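import Pool.Agent.Helper88.SE.Defs

set_option autoImplicit false

open MeasureTheory Set Filter Topology
open scoped ENNReal

namespace Pool.Agent.Helper88.SE

/-- The part of `K` below the level `t` in the direction `u`. -/
def cut (K : Set (E 2)) (u : E 2) (t : ℝ) : Set (E 2) := K ∩ {x | inner ℝ x u ≤ t}

/-- Volume of the part of `K` below the level `t`. -/
noncomputable def GK (K : Set (E 2)) (u : E 2) (t : ℝ) : ℝ := (volume (cut K u t)).toReal

/-- First moment in the direction `u` of the part of `K` below the level `t`. -/
noncomputable def FK (K : Set (E 2)) (u : E 2) (t : ℝ) : ℝ := ∫ x in cut K u t, inner ℝ x u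

/-- The centroid of a set. -/
noncomputable def cen (A : Set (E 2)) : E 2 := (volume A).toReal⁻¹ • ∫ x in A, x

/-- `K` floats in equilibrium in every orientation at density `d`. -/
def Floats (K : Set (E 2)) (d : ℝ) : Prop :=
  ∀ u : E 2, ‖u‖ = 1 → ∃ t : ℝ, (volume (cut K u t)).toReal = d * (volume K).toReal ∧
    ∃ c : ℝ, cen K - cen (cut K u t) = c • u

/-- convex body -/
def Body (K : Set (E 2)) : Prop := Convex ℝ K ∧ IsCompact K ∧ (interior K).Nonempty

end Pool.Agent.Helper88.SE
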