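import Pool.Agent.Helper88.FB.Defs

set_option autoImplicit false

open MeasureTheory Set Filter Topology
open scoped ENNReal

namespace Pool.Agent.Helper88.SE



theorem F_nonpos (K : Set (E 2)) (hK : Body K) (h0 : ∫ x in K, x = 0) (w : E 2) (hw : ‖w‖ = 1)
    (t : ℝ) : FK K w t ≤ 0 := by
  have hKc : IsCompact K := hK.2.1
  have hcont : Continuous fun x : E 2 => inner ℝ x w := by fun_prop
  have hint : IntegrableOn (fun x : E 2 => inner ℝ x w) K volume :=
    hcont.continuousOn.integrableOn_compact hKc
  have hHm : MeasurableSet {x : E 2 | inner ℝ x w ≤ t} :=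
    (isClosed_le hcont continuous_const).measurableSet
  have hKm : MeasurableSet K := hKc.isClosed.measurableSet
  unfold FK cut
  rcases le_total t 0 with ht | ht
  · refine setIntegral_nonpos (hKm.inter hHm) ?_
    intro x hx
    exact (show inner ℝ x w ≤ t from hx.2).trans ht
  · have h1 := integral_inter_add_diff hHm hint
    have h2 : ∫ x in K, inner ℝ x w = 0 := by
      have hid : IntegrableOn (fun x : E 2 => x) K volume :=
        continuous_id.continuousOn.integrableOn_compact hKc
      have h3 := integral_inner (𝕜 := ℝ) hid w
      have h4 : ∫ x in K, inner ℝ x w = ∫ x in K, inner ℝ w x :=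
        integral_congr_ae (Filter.Eventually.of_forall fun x => real_inner_comm w x)
      rw [h4, h3, h0, inner_zero_right]
    have h5 : 0 ≤ ∫ x in K \ {x : E 2 | inner ℝ x w ≤ t}, inner ℝ x w := by
      refine setIntegral_nonneg (hKm.diff hHm) ?_
      intro x hx
      have : ¬ inner ℝ x w ≤ t := hx.2
      linarith
    linarith

end Pool.Agent.Helper88.SE
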