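import Pool.Agent.Helper88.FB.Defs

set_option autoImplicit false

open MeasureTheory Set Filter Topology
open scoped ENNReal

namespace Pool.Agent.Helper88.SE



theorem G_t_hyper (u : E 2) (hu : ‖u‖ = 1) (t : ℝ) :
    (volume : Measure (E 2)) {x : E 2 | inner ℝ x u = t} = 0 := by
  have huu : inner ℝ u u = (1 : ℝ) := by
    rw [real_inner_self_eq_norm_sq, hu]; norm_num
  let s : AffineSubspace ℝ (E 2) :=
    AffineSubspace.mk' (t • u) (LinearMap.ker (innerₛₗ ℝ u : E 2 →ₗ[ℝ] ℝ))
  have hmem : ∀ x : E 2, x ∈ s ↔ inner ℝ x u = t := by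
    intro x
    rw [AffineSubspace.mem_mk', LinearMap.mem_ker, vsub_eq_sub]
    change inner ℝ u (x - t • u) = 0 ↔ _
    rw [inner_sub_right, inner_smul_right, huu, real_inner_comm x u]
    constructor
    · intro h; linarith
    · intro h; linarith
  have hs : s ≠ ⊤ := by
    intro h
    have h1 : (t + 1) • u ∈ s := by rw [h]; exact AffineSubspace.mem_top ℝ (E 2) _
    rw [hmem, inner_smul_left, huu] at h1
    simp at h1
  have h0 := Measure.addHaar_affineSubspace (volume : Measure (E 2)) s hs
  have heq : {x : E 2 | inner ℝ x u = t} = (s : Set (E 2)) := by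
    ext x
    exact (hmem x).symm
  rw [heq]
  exact h0

theorem G_t_int (K : Set (E 2)) (hK : Body K) (A : Set (E 2)) (hA : MeasurableSet A)
    (h : volume (K ∩ A) ≠ 0) : (interior K ∩ A).Nonempty := by
  by_contra hcon
  rw [Set.not_nonempty_iff_eq_empty] at hcon
  apply h
  have hfr : volume (frontier K) = 0 := hK.1.addHaar_frontier volume
  have hsub : K ∩ A ⊆ frontier K := by
    intro x hx
    rw [hK.2.1.isClosed.frontier_eq]
    refine ⟨hx.1, fun hi => ?_⟩
    have : x ∈ interior K ∩ A := ⟨hi, hx.2⟩
    rw [hcon] at this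
    exact this
  exact measure_mono_null hsub hfr

theorem G_t (K : Set (E 2)) (hK : Body K) (u : E 2) (hu : ‖u‖ = 1) :
    0 < (volume K).toReal ∧ Continuous (GK K u) ∧ Monotone (GK K u) ∧
      (∀ t, 0 ≤ GK K u t ∧ GK K u t ≤ (volume K).toReal) ∧
      ∀ t t', t < t' → 0 < GK K u t → GK K u t' < (volume K).toReal → GK K u t < GK K u t' := by
  have hfin : volume K < ⊤ := hK.2.1.measure_lt_top
  have hpos : 0 < volume K :=
    lt_of_lt_of_le (isOpen_interior.measure_pos volume hK.2.2) (measure_mono interior_subset)
  have hcont : Continuous (fun x : E 2 => inner ℝ x u) := by fun_prop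
  have hle : ∀ t, MeasurableSet {x : E 2 | inner ℝ x u ≤ t} := fun t =>
    (isClosed_le hcont continuous_const).measurableSet
  have hcutfin : ∀ t, volume (cut K u t) < ⊤ := fun t =>
    lt_of_le_of_lt (measure_mono Set.inter_subset_left) hfin
  have hmono : ∀ t t', t ≤ t' → cut K u t ⊆ cut K u t' := fun t t' h x hx =>
    ⟨hx.1, le_trans hx.2 h⟩
  refine ⟨ENNReal.toReal_pos hpos.ne' hfin.ne, ?_, ?_, ?_, ?_⟩
  · have hG : GK K u = fun t => ∫ x, Set.indicator {x : E 2 | inner ℝ x u ≤ t} (fun _ => (1 : ℝ)) x
        ∂(volume.restrict K) := by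
      funext t
      rw [integral_indicator (hle t), setIntegral_const, smul_eq_mul, mul_one]
      unfold GK cut Measure.real
      rw [Measure.restrict_apply (hle t), Set.inter_comm]
    rw [hG, continuous_iff_continuousAt]
    intro t0
    haveI : IsFiniteMeasure (volume.restrict K) := ⟨by rw [Measure.restrict_apply_univ]; exact hfin⟩
    refine continuousAt_of_dominated (bound := fun _ => (1 : ℝ)) ?_ ?_ (integrable_const _) ?_
    · exact Filter.Eventually.of_forall fun t =>
        (measurable_const.indicator (hle t)).aestronglyMeasurable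
    · refine Filter.Eventually.of_forall fun t => Filter.Eventually.of_forall fun x => ?_
      by_cases hx : x ∈ {x : E 2 | inner ℝ x u ≤ t}
      · rw [Set.indicator_of_mem hx]; norm_num
      · rw [Set.indicator_of_notMem hx]; norm_num
    · have hae : ∀ᵐ x ∂(volume.restrict K), inner ℝ x u ≠ t0 := by
        apply ae_restrict_of_ae
        rw [ae_iff]
        simpa using G_t_hyper u hu t0
      filter_upwards [hae] with x hx
      rcases lt_or_gt_of_ne hx with h | h
      · have : (fun t => Set.indicator {x : E 2 | inner ℝ x u ≤ t} (fun _ => (1 : ℝ)) x) =ᶠ[𝓝 t0]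
            fun _ => (1 : ℝ) := by
          filter_upwards [lt_mem_nhds h] with t ht
          exact Set.indicator_of_mem (show x ∈ {x : E 2 | inner ℝ x u ≤ t} from ht.le) _
        exact continuousAt_const.congr this.symm
      · have : (fun t => Set.indicator {x : E 2 | inner ℝ x u ≤ t} (fun _ => (1 : ℝ)) x) =ᶠ[𝓝 t0]
            fun _ => (0 : ℝ) := by
          filter_upwards [gt_mem_nhds h] with t ht
          exact Set.indicator_of_notMem
            (show x ∉ {x : E 2 | inner ℝ x u ≤ t} from fun hh => absurd hh (not_le.2 ht)) _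
        exact continuousAt_const.congr this.symm
  · intro t t' h
    exact ENNReal.toReal_mono (hcutfin t').ne (measure_mono (hmono t t' h))
  · intro t
    exact ⟨ENNReal.toReal_nonneg, ENNReal.toReal_mono hfin.ne (measure_mono Set.inter_subset_left)⟩
  · intro t t' htt h0 h1
    have hc0 : volume (K ∩ {x : E 2 | inner ℝ x u ≤ t}) ≠ 0 := by
      intro hh
      unfold GK cut at h0
      rw [hh] at h0
      simp at h0
    obtain ⟨x0, hx0, hx0'⟩ := G_t_int K hK _ (hle t) hc0
    have hgt : MeasurableSet {x : E 2 | t' < inner ℝ x u} :=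
      (isOpen_lt continuous_const hcont).measurableSet
    have hc1 : volume (K ∩ {x : E 2 | t' < inner ℝ x u}) ≠ 0 := by
      intro hh
      have hle2 : volume K ≤ volume (cut K u t') := by
        calc volume K ≤ volume (cut K u t' ∪ (K ∩ {x : E 2 | t' < inner ℝ x u})) := by
              apply measure_mono
              intro x hx
              rcases le_or_gt (inner ℝ x u) t' with h | h
              · exact Or.inl ⟨hx, h⟩
              · exact Or.inr ⟨hx, h⟩
          _ ≤ volume (cut K u t') + volume (K ∩ {x : E 2 | t' < inner ℝ x u}) := measure_union_le _ _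
          _ = volume (cut K u t') := by rw [hh, add_zero]
      have := ENNReal.toReal_mono (hcutfin t').ne hle2
      exact absurd h1 (not_lt.2 this)
    obtain ⟨y0, hy0, hy0'⟩ := G_t_int K hK _ hgt hc1
    have ha : inner ℝ x0 u ≤ t := hx0'
    have hb : t' < inner ℝ y0 u := hy0'
    set a : ℝ := inner ℝ x0 u with hadef
    set b : ℝ := inner ℝ y0 u with hbdef
    have hba : 0 < b - a := by linarith
    set m : ℝ := (t + t') / 2 with hm
    have hs0 : 0 ≤ (m - a) / (b - a) := div_nonneg (by linarith) hba.le
    have hs1 : 0 ≤ (b - m) / (b - a) := div_nonneg (by linarith) hba.le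
    have hsum : (b - m) / (b - a) + (m - a) / (b - a) = 1 := by
      field_simp
      ring
    have hz : ((b - m) / (b - a)) • x0 + ((m - a) / (b - a)) • y0 ∈ interior K :=
      hK.1.interior hx0 hy0 hs1 hs0 hsum
    have hzm : inner ℝ (((b - m) / (b - a)) • x0 + ((m - a) / (b - a)) • y0) u = m := by
      rw [inner_add_left, inner_smul_left, inner_smul_left, ← hadef, ← hbdef]
      simp only [conj_trivial]
      field_simp
      ring
    have hUo : IsOpen (interior K ∩ {x : E 2 | t < inner ℝ x u ∧ inner ℝ x u < t'}) :=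
      isOpen_interior.inter ((isOpen_lt continuous_const hcont).inter
        (isOpen_lt hcont continuous_const))
    have hUn : (interior K ∩ {x : E 2 | t < inner ℝ x u ∧ inner ℝ x u < t'}).Nonempty :=
      ⟨_, hz, by rw [Set.mem_setOf_eq, hzm]; constructor <;> linarith⟩
    have hUp := hUo.measure_pos volume hUn
    have hdisj : Disjoint (cut K u t) (interior K ∩ {x : E 2 | t < inner ℝ x u ∧ inner ℝ x u < t'}) := by
      rw [Set.disjoint_left]
      intro x hx hx'
      exact absurd hx.2 (not_le.2 hx'.2.1)
    have hunion : volume (cut K u t) +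
        volume (interior K ∩ {x : E 2 | t < inner ℝ x u ∧ inner ℝ x u < t'}) ≤ volume (cut K u t') := by
      rw [← measure_union hdisj hUo.measurableSet]
      apply measure_mono
      apply Set.union_subset (hmono t t' htt.le)
      intro x hx
      exact ⟨interior_subset hx.1, hx.2.2.le⟩
    have hlt : volume (cut K u t) < volume (cut K u t') := by
      refine lt_of_lt_of_le ?_ hunion
      exact ENNReal.lt_add_right (hcutfin t).ne hUp.ne'
    exact (ENNReal.toReal_lt_toReal (hcutfin t).ne (hcutfin t').ne).2 hlt

end Pool.Agent.Helper88.SE
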