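import Pool.Agent.Helper88.FB.Defs

set_option autoImplicit false

open MeasureTheory Set Filter Topology
open scoped ENNReal

namespace Pool.Agent.Helper88.SE



theorem bathtub (K : Set (E 2)) (hK : Body K) (w : E 2) (hw : ‖w‖ = 1) (t : ℝ) (A : Set (E 2))
    (hA : MeasurableSet A) (hAK : A ⊆ K) (hv : (volume A).toReal = GK K w t) :
    FK K w t ≤ ∫ x in A, inner ℝ x w := by
  have hKc : IsCompact K := hK.2.1
  have hfin : volume K < ⊤ := hKc.measure_lt_top
  have hcont : Continuous (fun x : E 2 => (inner ℝ x w : ℝ)) := by fun_prop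
  have hBm : MeasurableSet (cut K w t) :=
    hKc.measurableSet.inter (isClosed_le hcont continuous_const).measurableSet
  have hBK : cut K w t ⊆ K := Set.inter_subset_left
  have hgK : IntegrableOn (fun x : E 2 => (inner ℝ x w : ℝ)) K volume :=
    hcont.continuousOn.integrableOn_compact hKc
  have hgA : IntegrableOn (fun x : E 2 => (inner ℝ x w : ℝ)) A volume := hgK.mono_set hAK
  have hgB : IntegrableOn (fun x : E 2 => (inner ℝ x w : ℝ)) (cut K w t) volume :=
    hgK.mono_set hBK
  have hcA : IntegrableOn (fun _ : E 2 => t) A volume :=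
    (integrableOn_const (C := t) (hs := hfin.ne) (μ := volume) (s := K)).mono_set hAK
  have hcB : IntegrableOn (fun _ : E 2 => t) (cut K w t) volume :=
    (integrableOn_const (C := t) (hs := hfin.ne) (μ := volume) (s := K)).mono_set hBK
  have h1 : ∫ x in A, ((inner ℝ x w : ℝ) - t) = (∫ x in A, (inner ℝ x w : ℝ))
      - (volume A).toReal * t := by
    rw [integral_sub hgA hcA, setIntegral_const, smul_eq_mul]
    rfl
  have h2 : ∫ x in cut K w t, ((inner ℝ x w : ℝ) - t) = (∫ x in cut K w t, (inner ℝ x w : ℝ))
      - (volume (cut K w t)).toReal * t := by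
    rw [integral_sub hgB hcB, setIntegral_const, smul_eq_mul]
    rfl
  have h3 : ∫ x in cut K w t, ((inner ℝ x w : ℝ) - t) ≤ ∫ x in A, ((inner ℝ x w : ℝ) - t) := by
    rw [← integral_indicator hBm, ← integral_indicator hA]
    refine integral_mono ((hgB.sub hcB).integrable_indicator hBm)
      ((hgA.sub hcA).integrable_indicator hA) ?_
    intro x
    by_cases hxA : x ∈ A
    · by_cases hxB : x ∈ cut K w t
      · simp [Set.indicator_of_mem hxA, Set.indicator_of_mem hxB]
      · have hx : t < inner ℝ x w := by
          by_contra hcon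
          exact hxB ⟨hAK hxA, not_lt.mp hcon⟩
        simp only [Set.indicator_of_mem hxA, Set.indicator_of_notMem hxB]
        linarith
    · by_cases hxB : x ∈ cut K w t
      · have hx : (inner ℝ x w : ℝ) ≤ t := hxB.2
        simp only [Set.indicator_of_notMem hxA, Set.indicator_of_mem hxB]
        linarith
      · simp [Set.indicator_of_notMem hxA, Set.indicator_of_notMem hxB]
  have hv' : (volume A).toReal = (volume (cut K w t)).toReal := hv
  rw [h1, h2, hv'] at h3
  have h4 : FK K w t = ∫ x in cut K w t, (inner ℝ x w : ℝ) := rfl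
  rw [h4]
  linarith

end Pool.Agent.Helper88.SE
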