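import Pool.Agent.Helper88.FB.Defs

set_option autoImplicit false

open MeasureTheory Set Filter Topology
open scoped ENNReal

namespace Pool.Agent.Helper88.SE



theorem chain_aux (p : E 2 → ℝ) (hp : ∀ u, ‖u‖ = 1 → 0 ≤ p u)
    (h : ∀ u w, ‖u‖ = 1 → ‖w‖ = 1 → p u * inner ℝ u w ≤ p w) (u e : E 2) (hu : ‖u‖ = 1)
    (he : ‖e‖ = 1) (hue : inner ℝ u e = (0 : ℝ)) (θ : ℝ) (hθ : 0 ≤ θ) :
    p u ≤ p (Real.cos θ • u + Real.sin θ • e) := by
  have hinn : ∀ a b : ℝ, inner ℝ (Real.cos a • u + Real.sin a • e) (Real.cos b • u + Real.sin b • e)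
      = Real.cos (b - a) := by
    intro a b
    have huu : inner ℝ u u = (1 : ℝ) := by rw [real_inner_self_eq_norm_sq, hu]; norm_num
    have hee : inner ℝ e e = (1 : ℝ) := by rw [real_inner_self_eq_norm_sq, he]; norm_num
    have heu : inner ℝ e u = (0 : ℝ) := by rw [real_inner_comm]; exact hue
    simp only [inner_add_left, inner_add_right, inner_smul_left, inner_smul_right, huu, hee, heu,
      hue, Real.cos_sub]
    simp
    try ring
  have hnorm : ∀ a : ℝ, ‖Real.cos a • u + Real.sin a • e‖ = 1 := by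
    intro a
    have h1 := hinn a a
    rw [real_inner_self_eq_norm_sq, sub_self, Real.cos_zero] at h1
    exact (pow_eq_one_iff_of_nonneg (norm_nonneg _) two_ne_zero).mp h1
  have hstep : ∀ n : ℕ, 0 < n → θ ≤ n → p u * (1 - θ ^ 2 / 2 / n) ≤
      p (Real.cos θ • u + Real.sin θ • e) := by
    intro n hn hθn
    have hn0 : (0 : ℝ) < n := by exact_mod_cast hn
    obtain ⟨x, hx⟩ : ∃ x, x = θ / n := ⟨_, rfl⟩
    have hx0 : 0 ≤ x := by rw [hx]; positivity
    have hx1 : x ≤ 1 := by rw [hx]; exact (div_le_one hn0).mpr hθn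
    have hcos : 1 - x ^ 2 / 2 ≤ Real.cos x := Real.one_sub_sq_div_two_le_cos
    have hxx : x ^ 2 ≤ 1 := pow_le_one₀ hx0 hx1
    have hcos0 : 0 ≤ Real.cos x := by linarith
    have hind : ∀ j : ℕ, p u * Real.cos x ^ j ≤
        p (Real.cos (j * x) • u + Real.sin (j * x) • e) := by
      intro j
      induction j with
      | zero => simp
      | succ j ih =>
        have h1 := h _ _ (hnorm (j * x)) (hnorm ((j + 1 : ℕ) * x))
        rw [hinn, show ((j + 1 : ℕ) : ℝ) * x - j * x = x by push_cast; ring] at h1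
        calc p u * Real.cos x ^ (j + 1) = (p u * Real.cos x ^ j) * Real.cos x := by ring
          _ ≤ _ := mul_le_mul_of_nonneg_right ih hcos0
          _ ≤ _ := h1
    have hn1 := hind n
    rw [show (n : ℝ) * x = θ by rw [hx]; field_simp] at hn1
    refine le_trans ?_ hn1
    apply mul_le_mul_of_nonneg_left _ (hp u hu)
    have hb : 1 + (n : ℝ) * (-(x ^ 2 / 2)) ≤ (1 + -(x ^ 2 / 2)) ^ n :=
      one_add_mul_le_pow (by linarith) n
    have hpw : (1 + -(x ^ 2 / 2)) ^ n ≤ Real.cos x ^ n :=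
      pow_le_pow_left₀ (by linarith) (by linarith) n
    have he : 1 - θ ^ 2 / 2 / n = 1 + (n : ℝ) * (-(x ^ 2 / 2)) := by
      rw [hx]; field_simp; ring
    rw [he]
    exact hb.trans hpw
  have hlim : Tendsto (fun n : ℕ => p u * (1 - θ ^ 2 / 2 / n)) atTop (𝓝 (p u * (1 - 0))) :=
    (tendsto_const_nhds.sub (tendsto_const_div_atTop_nhds_zero_nat _)).const_mul _
  rw [sub_zero, mul_one] at hlim
  refine le_of_tendsto hlim ?_
  filter_upwards [eventually_ge_atTop (⌈θ⌉₊ + 1)] with n hn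
  apply hstep n (by omega)
  have h1 : θ ≤ ⌈θ⌉₊ := Nat.le_ceil θ
  have h2 : ((⌈θ⌉₊ + 1 : ℕ) : ℝ) ≤ n := by exact_mod_cast hn
  push_cast at h2
  linarith

theorem chain_nd (p : E 2 → ℝ) (hp : ∀ u, ‖u‖ = 1 → 0 ≤ p u)
    (h : ∀ u w, ‖u‖ = 1 → ‖w‖ = 1 → p u * inner ℝ u w ≤ p w) (u w : E 2) (hu : ‖u‖ = 1)
    (hw : ‖w‖ = 1) (hne : w - (inner ℝ u w : ℝ) • u ≠ 0) : p u ≤ p w := by
  obtain ⟨c, hc⟩ : ∃ c : ℝ, c = inner ℝ u w := ⟨_, rfl⟩
  rw [← hc] at hne
  obtain ⟨v, hv⟩ : ∃ v, v = w - c • u := ⟨_, rfl⟩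
  rw [← hv] at hne
  have huu : inner ℝ u u = (1 : ℝ) := by rw [real_inner_self_eq_norm_sq, hu]; norm_num
  have hww : inner ℝ w w = (1 : ℝ) := by rw [real_inner_self_eq_norm_sq, hw]; norm_num
  have huv : inner ℝ u v = (0 : ℝ) := by
    rw [hv, inner_sub_right, inner_smul_right, huu, ← hc]; ring
  have hvv : ‖v‖ ^ 2 = 1 - c ^ 2 := by
    rw [← real_inner_self_eq_norm_sq, hv, inner_sub_left, inner_sub_right, inner_sub_right,
      inner_smul_right, inner_smul_right, inner_smul_left, inner_smul_left, huu, hww,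
      real_inner_comm u w, ← hc]
    simp
    ring
  have hvpos : 0 < ‖v‖ := norm_pos_iff.mpr hne
  have hc1 : -1 ≤ c ∧ c ≤ 1 := by
    have : c ^ 2 ≤ 1 := by nlinarith [sq_nonneg ‖v‖]
    exact abs_le.mp ((sq_le_one_iff_abs_le_one c).mp this)
  have he : ‖(‖v‖⁻¹ • v)‖ = 1 := by
    rw [norm_smul, norm_inv, norm_norm, inv_mul_cancel₀ hvpos.ne']
  have hue : inner ℝ u (‖v‖⁻¹ • v) = (0 : ℝ) := by rw [inner_smul_right, huv, mul_zero]
  have hmain := chain_aux p hp h u (‖v‖⁻¹ • v) hu he hue (Real.arccos c) (Real.arccos_nonneg c)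
  have hsin : Real.sin (Real.arccos c) = ‖v‖ := by
    rw [Real.sin_arccos, ← hvv, Real.sqrt_sq hvpos.le]
  rw [Real.cos_arccos hc1.1 hc1.2, hsin, smul_smul, mul_inv_cancel₀ hvpos.ne', one_smul, hv] at hmain
  rw [show c • u + (w - c • u) = w by abel] at hmain
  exact hmain

theorem chain_le (p : E 2 → ℝ) (hp : ∀ u, ‖u‖ = 1 → 0 ≤ p u)
    (h : ∀ u w, ‖u‖ = 1 → ‖w‖ = 1 → p u * inner ℝ u w ≤ p w) (u w : E 2) (hu : ‖u‖ = 1)
    (hw : ‖w‖ = 1) : p u ≤ p w := by
  by_cases hne : w - (inner ℝ u w : ℝ) • u ≠ 0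
  · exact chain_nd p hp h u w hu hw hne
  · push Not at hne
    -- w = c u
    obtain ⟨c, hc⟩ : ∃ c : ℝ, c = inner ℝ u w := ⟨_, rfl⟩
    rw [← hc, sub_eq_zero] at hne
    have hcabs : |c| = 1 := by
      have := hw
      rw [hne, norm_smul, hu, mul_one, Real.norm_eq_abs] at this
      exact this
    -- a vector f which is not a multiple of u
    obtain ⟨f, hf, hfu⟩ : ∃ f : E 2, ‖f‖ = 1 ∧ ∀ t : ℝ, f ≠ t • u := by
      by_contra hcon
      push Not at hcon
      obtain ⟨t0, ht0⟩ := hcon (EuclideanSpace.single 0 1) (by simp)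
      obtain ⟨t1, ht1⟩ := hcon (EuclideanSpace.single 1 1) (by simp)
      have a0 := congrArg (fun x : E 2 => x 0) ht0
      have a1 := congrArg (fun x : E 2 => x 1) ht0
      have b0 := congrArg (fun x : E 2 => x 0) ht1
      have b1 := congrArg (fun x : E 2 => x 1) ht1
      simp at a0 a1 b0 b1
      rcases a1 with a1 | a1
      · rw [a1] at a0; simp at a0
      · rw [a1] at b1; simp at b1
    have h1 : p u ≤ p f := chain_nd p hp h u f hu hf (by
      intro h0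
      exact hfu _ (sub_eq_zero.mp h0))
    have h2 : p f ≤ p w := chain_nd p hp h f w hf hw (by
      intro h0
      rw [sub_eq_zero] at h0
      obtain ⟨a, ha⟩ : ∃ a : ℝ, a = inner ℝ f w := ⟨_, rfl⟩
      rw [← ha] at h0
      have ha0 : a ≠ 0 := by
        intro ha0
        rw [ha0, zero_smul] at h0
        rw [h0, norm_zero] at hw
        exact zero_ne_one hw
      apply hfu (a⁻¹ * c)
      rw [mul_smul, ← hne, h0, smul_smul, inv_mul_cancel₀ ha0, one_smul])
    exact h1.trans h2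

theorem chain (p : E 2 → ℝ) (hp : ∀ u, ‖u‖ = 1 → 0 ≤ p u)
    (h : ∀ u w, ‖u‖ = 1 → ‖w‖ = 1 → p u * inner ℝ u w ≤ p w) :
    ∀ u w, ‖u‖ = 1 → ‖w‖ = 1 → p u = p w := by
  intro u w hu hw
  exact le_antisymm (chain_le p hp h u w hu hw) (chain_le p hp h w u hw hu)

end Pool.Agent.Helper88.SE
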