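import Pool.Agent.Helper88.FB.Defs
import Pool.Agent.Helper88.FB.P_G_t
import Pool.Agent.Helper88.FB.P_bathtub
import Pool.Agent.Helper88.FB.P_F_nonpos
import Pool.Agent.Helper88.FB.P_chain

set_option autoImplicit false

open MeasureTheory Set Filter Topology
open scoped ENNReal

namespace Pool.Agent.Helper88.SE



theorem F_const (K : Set (E 2)) (hK : Body K) (h0 : ∫ x in K, x = 0) (d : ℝ) (hd : 0 < d)
    (hd1 : d < 1) (hF : Floats K d) :
    ∃ m : ℝ, ∀ u, ‖u‖ = 1 → ∀ t, GK K u t = d * (volume K).toReal → FK K u t = m := by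
  unfold Floats at hF
  choose! t ht using hF
  have hKc : IsCompact K := hK.2.1
  have hint : ∀ (u : E 2) (s : ℝ), IntegrableOn (fun x : E 2 => x) (cut K u s) volume := by
    intro u s
    have h1 : IntegrableOn (fun x : E 2 => x) K volume :=
      (continuous_id.continuousOn).integrableOn_compact hKc
    exact h1.mono_set inter_subset_left
  have hmeas : ∀ (u : E 2) (s : ℝ), MeasurableSet (cut K u s) := by
    intro u s
    have hc : Continuous (fun x : E 2 => inner ℝ x u) := by fun_prop
    exact hKc.measurableSet.inter (hc.measurable measurableSet_Iic)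
  have hinn : ∀ (u : E 2) (s : ℝ) (w : E 2),
      ∫ x in cut K u s, inner ℝ x w = inner ℝ (∫ x in cut K u s, x) w := by
    intro u s w
    have h1 := integral_inner (𝕜 := ℝ) (hint u s) w
    rw [real_inner_comm, ← h1]
    congr 1
    funext x
    exact real_inner_comm _ _
  have hcen : cen K = 0 := by unfold cen; rw [h0, smul_zero]
  have hu0 : ‖(EuclideanSpace.single 0 1 : E 2)‖ = 1 := by simp
  have hV : 0 < (volume K).toReal := (G_t K hK _ hu0).1
  have hdV : 0 < d * (volume K).toReal := mul_pos hd hV
  have hM : ∀ u, ‖u‖ = 1 → ∫ x in cut K u (t u), x = FK K u (t u) • u := by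
    intro u hu
    obtain ⟨h1, c, h2⟩ := ht u hu
    rw [hcen, zero_sub] at h2
    have hpos : 0 < (volume (cut K u (t u))).toReal := by rw [h1]; exact hdV
    have h3 : ∫ x in cut K u (t u), x = (volume (cut K u (t u))).toReal • cen (cut K u (t u)) := by
      unfold cen; rw [smul_smul, mul_inv_cancel₀ hpos.ne', one_smul]
    have h4 : cen (cut K u (t u)) = -(c • u) := by rw [← h2, neg_neg]
    have h5 : ∫ x in cut K u (t u), x = (-((volume (cut K u (t u))).toReal * c)) • u := by
      rw [h3, h4, ← neg_smul, smul_smul, mul_neg]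
    have h6 : FK K u (t u) = -((volume (cut K u (t u))).toReal * c) := by
      unfold FK
      rw [hinn, h5, real_inner_smul_left, real_inner_self_eq_norm_sq, hu]; ring
    rw [h6, h5]
  have hp : ∀ u w, ‖u‖ = 1 → ‖w‖ = 1 → (fun u => -FK K u (t u)) u * inner ℝ u w ≤ (fun u => -FK K u (t u)) w := by
    intro u w hu hw
    have h1 := bathtub K hK w hw (t w) (cut K u (t u)) (hmeas _ _) inter_subset_left
      (by rw [(ht u hu).1]; exact ((ht w hw).1).symm)
    rw [hinn, hM u hu, real_inner_smul_left] at h1
    show -FK K u (t u) * inner ℝ u w ≤ -FK K w (t w)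
    linarith
  have hch := chain (fun u => -FK K u (t u))
    (fun u hu => neg_nonneg.mpr (F_nonpos K hK h0 u hu (t u))) hp
  refine ⟨FK K (EuclideanSpace.single 0 1) (t (EuclideanSpace.single 0 1)), fun u hu s hs => ?_⟩
  have hts : s = t u := by
    have hG := (G_t K hK u hu).2.2.2.2
    have hlt : d * (volume K).toReal < (volume K).toReal := by nlinarith
    have ht1 : GK K u (t u) = d * (volume K).toReal := (ht u hu).1
    rcases lt_trichotomy s (t u) with h | h | h
    · have := hG s (t u) h (by rw [hs]; exact hdV) (by rw [ht1]; exact hlt)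
      rw [hs, ht1] at this
      exact absurd this (lt_irrefl _)
    · exact h
    · have := hG (t u) s h (by rw [ht1]; exact hdV) (by rw [hs]; exact hlt)
      rw [hs, ht1] at this
      exact absurd this (lt_irrefl _)
  have h7 := hch u (EuclideanSpace.single 0 1) hu hu0
  rw [hts]
  have h8 : -FK K u (t u) = -FK K (EuclideanSpace.single 0 1) (t (EuclideanSpace.single 0 1)) := h7
  linarith

end Pool.Agent.Helper88.SE
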