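import Pool.Agent.Helper88.FB.Defs
import Pool.Agent.Helper88.FB.P_G_t

set_option autoImplicit false

open MeasureTheory Set Filter Topology
open scoped ENNReal

namespace Pool.Agent.Helper88.SE



theorem F_diff (K : Set (E 2)) (hK : Body K) (u : E 2) (hu : ‖u‖ = 1) (t t' : ℝ) (h : t ≤ t') :
    t * (GK K u t' - GK K u t) ≤ FK K u t' - FK K u t ∧
    FK K u t' - FK K u t ≤ t' * (GK K u t' - GK K u t) := by
  have hKc : IsCompact K := hK.2.1
  have hKm : MeasurableSet K := hKc.measurableSet
  have hcont : Continuous (fun x : E 2 => inner ℝ x u) := by fun_prop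
  have hcm : ∀ s : ℝ, MeasurableSet (cut K u s) := fun s =>
    hKm.inter (measurableSet_le hcont.measurable measurable_const)
  have hsub : cut K u t ⊆ cut K u t' := fun x hx => ⟨hx.1, le_trans hx.2 h⟩
  have hKfin : volume K ≠ ⊤ := hKc.measure_lt_top.ne
  have hfin : ∀ s : ℝ, volume (cut K u s) ≠ ⊤ := fun s =>
    ne_top_of_le_ne_top hKfin (measure_mono inter_subset_left)
  have hintK : IntegrableOn (fun x : E 2 => inner ℝ x u) K volume :=
    hcont.continuousOn.integrableOn_compact hKc
  have hint : ∀ s : ℝ, IntegrableOn (fun x : E 2 => inner ℝ x u) (cut K u s) volume := fun s =>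
    hintK.mono_set inter_subset_left
  have eF : FK K u t' - FK K u t = ∫ x in cut K u t' \ cut K u t, inner ℝ x u := by
    unfold FK
    rw [setIntegral_diff (hcm t) (hint t') hsub]
  have eG : GK K u t' - GK K u t = (volume (cut K u t' \ cut K u t)).toReal := by
    unfold GK
    rw [measure_diff hsub (hcm t).nullMeasurableSet (hfin t),
      ENNReal.toReal_sub_of_le (measure_mono hsub) (hfin t')]
  have hDm : MeasurableSet (cut K u t' \ cut K u t) := (hcm t').diff (hcm t)
  have hDfin : volume (cut K u t' \ cut K u t) ≠ ⊤ :=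
    ne_top_of_le_ne_top (hfin t') (measure_mono diff_subset)
  have hDint : IntegrableOn (fun x : E 2 => inner ℝ x u) (cut K u t' \ cut K u t) volume :=
    (hint t').mono_set diff_subset
  have hlow : ∀ x ∈ cut K u t' \ cut K u t, t ≤ inner ℝ x u := by
    intro x hx
    by_contra hlt
    exact hx.2 ⟨hx.1.1, (not_le.1 hlt).le⟩
  have hup : ∀ x ∈ cut K u t' \ cut K u t, inner ℝ x u ≤ t' := fun x hx => hx.1.2
  have hconst : ∀ c : ℝ, IntegrableOn (fun _ : E 2 => c) (cut K u t' \ cut K u t) volume :=
    fun c => integrableOn_const hDfin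
  rw [eF, eG]
  constructor
  · calc t * (volume (cut K u t' \ cut K u t)).toReal
        = ∫ x in cut K u t' \ cut K u t, t := by
          rw [setIntegral_const, smul_eq_mul, mul_comm]
          rfl
      _ ≤ _ := setIntegral_mono_on (hconst t) hDint hDm hlow
  · calc ∫ x in cut K u t' \ cut K u t, inner ℝ x u
        ≤ ∫ x in cut K u t' \ cut K u t, t' := setIntegral_mono_on hDint (hconst t') hDm hup
      _ = t' * (volume (cut K u t' \ cut K u t)).toReal := by
          rw [setIntegral_const, smul_eq_mul, mul_comm]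
          rfl

end Pool.Agent.Helper88.SE
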