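import Pool.Agent.Helper88.FB.Defs
import Pool.Agent.Helper88.FB.P_G_t
import Pool.Agent.Helper88.FB.P_F_diff

set_option autoImplicit false

open MeasureTheory Set Filter Topology
open scoped ENNReal

namespace Pool.Agent.Helper88.SE



theorem F_layer (K : Set (E 2)) (hK : Body K) (u : E 2) (hu : ‖u‖ = 1) (t t' : ℝ) (h : t ≤ t') :
    FK K u t' - FK K u t = t' * GK K u t' - t * GK K u t - ∫ s in t..t', GK K u s := by
  obtain ⟨-, hcont, hmono, -, -⟩ := G_t K hK u hu
  have hF := F_diff K hK u hu
  clear hK h
  generalize FK K u = F at *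
  generalize GK K u = G at *
  have hint : ∀ a b, IntervalIntegrable G volume a b := fun a b => hcont.intervalIntegrable a b
  obtain ⟨Φ, hΦ⟩ : ∃ Φ : ℝ → ℝ, ∀ s, Φ s = F s - s * G s + ∫ x in t..s, G x := ⟨_, fun _ => rfl⟩
  have key : ∀ a b, a ≤ b → |Φ b - Φ a| ≤ (b - a) * (G b - G a) := by
    intro a b hab
    obtain ⟨h1, h1'⟩ := hF a b hab
    have h2 : (∫ x in t..b, G x) - ∫ x in t..a, G x = ∫ x in a..b, G x :=
      intervalIntegral.integral_interval_sub_left (hint t b) (hint t a)
    have h3 : (b - a) * G a ≤ ∫ x in a..b, G x := by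
      have := intervalIntegral.integral_mono_on hab (intervalIntegrable_const (c := G a)) (hint a b)
        (fun x hx => hmono hx.1)
      simpa using this
    have h4 : ∫ x in a..b, G x ≤ (b - a) * G b := by
      have := intervalIntegral.integral_mono_on hab (hint a b) (intervalIntegrable_const (c := G b))
        (fun x hx => hmono hx.2)
      simpa using this
    rw [hΦ, hΦ, abs_le]
    constructor <;> nlinarith
  have key2 : ∀ a b, |Φ b - Φ a| ≤ |b - a| * |G b - G a| := by
    intro a b
    rcases le_total a b with hab | hab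
    · refine (key a b hab).trans ?_
      rw [abs_of_nonneg (sub_nonneg.mpr hab), abs_of_nonneg (sub_nonneg.mpr (hmono hab))]
    · have := key b a hab
      rw [abs_sub_comm (Φ b), abs_sub_comm b a, abs_sub_comm (G b)]
      refine this.trans ?_
      rw [abs_of_nonneg (sub_nonneg.mpr hab), abs_of_nonneg (sub_nonneg.mpr (hmono hab))]
  have hd : ∀ a, HasDerivAt Φ 0 a := by
    intro a
    rw [hasDerivAt_iff_isLittleO, Asymptotics.isLittleO_iff]
    intro c hc
    have hcc := (Metric.continuousAt_iff'.mp (hcont.continuousAt (x := a))) c hc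
    filter_upwards [hcc] with b hb
    rw [Real.dist_eq] at hb
    simp only [smul_zero, sub_zero, Real.norm_eq_abs]
    calc |Φ b - Φ a| ≤ |b - a| * |G b - G a| := key2 a b
      _ ≤ |b - a| * c := mul_le_mul_of_nonneg_left hb.le (abs_nonneg _)
      _ = c * |b - a| := mul_comm _ _
  have hconst := is_const_of_deriv_eq_zero (fun a => (hd a).differentiableAt) (fun a => (hd a).deriv) t' t
  rw [hΦ, hΦ] at hconst
  simp only [intervalIntegral.integral_same, add_zero] at hconst
  linarith

end Pool.Agent.Helper88.SE
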