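import Pool.Agent.Helper88.FB.Defs

set_option autoImplicit false

open MeasureTheory Set Filter Topology
open scoped ENNReal

namespace Pool.Agent.Helper88.SE



theorem hyp_null_aux (u : E 2) (hu : ‖u‖ = 1) (t : ℝ) :
    (volume : Measure (E 2)) {x | inner ℝ x u = t} = 0 := by
  have hset : {x : E 2 | inner ℝ x u = t} =
      (fun x : E 2 => x + (-(t • u))) ⁻¹' ((LinearMap.ker (innerSL ℝ u : E 2 →L[ℝ] ℝ).toLinearMap : Submodule ℝ (E 2)) : Set (E 2)) := by
    ext x
    simp only [Set.mem_setOf_eq, Set.mem_preimage, SetLike.mem_coe, LinearMap.mem_ker,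
      ContinuousLinearMap.coe_coe, innerSL_apply_apply]
    rw [inner_add_right, inner_neg_right, inner_smul_right, real_inner_self_eq_norm_sq, hu,
      real_inner_comm]
    constructor
    · intro h; linarith
    · intro h; linarith
  rw [hset, measure_preimage_add_right]
  apply Measure.addHaar_submodule
  intro htop
  have h1 : u ∈ (LinearMap.ker (innerSL ℝ u : E 2 →L[ℝ] ℝ).toLinearMap : Submodule ℝ (E 2)) := by
    rw [htop]; trivial
  simp only [LinearMap.mem_ker, ContinuousLinearMap.coe_coe, innerSL_apply_apply] at h1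
  rw [real_inner_self_eq_norm_sq, hu] at h1
  norm_num at h1

theorem G_u (K : Set (E 2)) (hK : Body K) (t : ℝ) :
    Continuous (fun u : S 2 => GK K (u : E 2) t) := by
  have hKc : IsCompact K := hK.2.1
  haveI : IsFiniteMeasure ((volume : Measure (E 2)).restrict K) := by
    constructor
    rw [Measure.restrict_apply_univ]
    exact hKc.measure_lt_top
  have hmeas : ∀ u : E 2, MeasurableSet {x : E 2 | inner ℝ x u ≤ t} := by
    intro u
    exact measurableSet_le (by fun_prop) measurable_const
  have hG : ∀ u : E 2, GK K u t =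
      ∫ x in K, ({x : E 2 | inner ℝ x u ≤ t}.indicator (fun _ => (1:ℝ)) x) := by
    intro u
    have h1 := integral_indicator_one (μ := (volume : Measure (E 2)).restrict K) (hmeas u)
    have h2 : (fun x => ({x : E 2 | inner ℝ x u ≤ t}.indicator (fun _ => (1:ℝ)) x)) =
        {x : E 2 | inner ℝ x u ≤ t}.indicator 1 := rfl
    rw [h2, h1]
    unfold GK cut Measure.real
    rw [Measure.restrict_apply (hmeas u), Set.inter_comm]
  simp_rw [hG]
  rw [continuous_iff_continuousAt]
  intro u0
  have hu0 : ‖(u0 : E 2)‖ = 1 := by simpa using u0.2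
  refine MeasureTheory.continuousAt_of_dominated (bound := fun _ => (1:ℝ)) ?_ ?_ ?_ ?_
  · refine Filter.Eventually.of_forall fun u => ?_
    exact (measurable_const.indicator (hmeas _)).aestronglyMeasurable
  · refine Filter.Eventually.of_forall fun u => Filter.Eventually.of_forall fun x => ?_
    by_cases hx : x ∈ {x : E 2 | inner ℝ x (u : E 2) ≤ t}
    · rw [Set.indicator_of_mem hx]; simp
    · rw [Set.indicator_of_notMem hx]; simp
  · exact integrable_const _
  · have hnull : ∀ᵐ x ∂((volume : Measure (E 2)).restrict K), inner ℝ x (u0 : E 2) ≠ t := by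
      apply ae_restrict_of_ae
      rw [ae_iff]
      simpa using hyp_null_aux (u0 : E 2) hu0 t
    filter_upwards [hnull] with x hx
    have hc : Continuous (fun u : S 2 => inner ℝ x (u : E 2)) := by fun_prop
    rcases lt_or_gt_of_ne hx with h | h
    · have hev : ∀ᶠ u : S 2 in 𝓝 u0, inner ℝ x (u : E 2) < t :=
        hc.continuousAt.eventually_lt continuousAt_const h
      refine (continuousAt_const (y := (1:ℝ))).congr ?_
      filter_upwards [hev] with u hu
      rw [Set.indicator_of_mem]
      exact le_of_lt hu
    · have hev : ∀ᶠ u : S 2 in 𝓝 u0, t < inner ℝ x (u : E 2) :=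
        continuousAt_const.eventually_lt hc.continuousAt h
      refine (continuousAt_const (y := (0:ℝ))).congr ?_
      filter_upwards [hev] with u hu
      rw [Set.indicator_of_notMem]
      simpa using hu

end Pool.Agent.Helper88.SE
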