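import Pool.Agent.Helper88.FB.Defs
import Pool.Agent.Helper88.FB.P_G_t
import Pool.Agent.Helper88.FB.P_chain

set_option autoImplicit false

open MeasureTheory Set Filter Topology
open scoped ENNReal

namespace Pool.Agent.Helper88.SE



theorem acc_cen_mem (A : Set (E 2)) (hc : Convex ℝ A) (hk : IsCompact A)
    (hpos : 0 < (volume A).toReal) : cen A ∈ A := by
  have h := hc.set_average_mem hk.isClosed (μ := volume) (t := A) (f := fun x => x) ?_
    hk.measure_lt_top.ne ?_ ?_
  · rw [setAverage_eq] at h
    exact h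
  · intro h0; rw [h0] at hpos; simp at hpos
  · exact ae_restrict_of_forall_mem hk.measurableSet (fun x hx => hx)
  · exact continuous_id.continuousOn.integrableOn_compact hk

theorem acc_cut_compact (K : Set (E 2)) (hK : Body K) (u : E 2) (t : ℝ) :
    IsCompact (cut K u t) := by
  refine hK.2.1.inter_right ?_
  exact isClosed_le (by fun_prop) continuous_const

theorem acc_cut_convex (K : Set (E 2)) (hK : Body K) (u : E 2) (t : ℝ) :
    Convex ℝ (cut K u t) := by
  refine hK.1.inter ?_
  intro x hx y hy a b ha hb hab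
  simp only [mem_setOf_eq] at hx hy ⊢
  rw [inner_add_left, inner_smul_left, inner_smul_left]
  simp only [conj_trivial]
  have : b = 1 - a := by linarith
  subst this
  nlinarith

theorem acc_min (K : Set (E 2)) (hK : Body K) (h0 : ∫ x in K, x = 0)
    (hacc : ∀ ε > 0, ∃ d, 0 < d ∧ d < ε ∧ d < 1 ∧ Floats K d) (u : E 2) (hu : ‖u‖ = 1) :
    ∃ m : ℝ, (∀ x ∈ K, m ≤ inner ℝ x u) ∧ m • u ∈ K := by
  obtain ⟨hV, hcont, hmono, hbd, hstrict⟩ := G_t K hK u hu
  have hne : K.Nonempty := hK.2.2.mono interior_subset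
  obtain ⟨x0, hx0, hmin⟩ := hK.2.1.exists_isMinOn hne
    (f := fun x : E 2 => inner ℝ x u) (by fun_prop)
  have hmin' : ∀ x ∈ K, inner ℝ x0 u ≤ inner ℝ x u := fun x hx => hmin hx
  refine ⟨inner ℝ x0 u, hmin', ?_⟩
  set m : ℝ := inner ℝ x0 u with hm
  have hcl : m • u ∈ closure K := by
    rw [Metric.mem_closure_iff]
    intro η hη
    -- positive volume
    have hpos : 0 < (volume (cut K u (m + η))).toReal := by
      obtain ⟨y, hy⟩ := hK.2.2
      have hop : IsOpen (interior K ∩ {x : E 2 | inner ℝ x u < m + η}) :=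
        isOpen_interior.inter (isOpen_lt (by fun_prop) continuous_const)
      have hnon : (interior K ∩ {x : E 2 | inner ℝ x u < m + η}).Nonempty := by
        have hex : ∃ θ : ℝ, 0 < θ ∧ θ ≤ 1 ∧ θ * (inner ℝ y u - m) < η := by
          have hyK : m ≤ inner ℝ y u := hmin' y (interior_subset hy)
          refine ⟨min 1 (η / (2 * (inner ℝ y u - m + 1))), ?_, min_le_left _ _, ?_⟩
          · refine lt_min one_pos ?_
            apply div_pos hη; linarith
          · have h1 : min 1 (η / (2 * (inner ℝ y u - m + 1))) * (inner ℝ y u - m)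
                ≤ (η / (2 * (inner ℝ y u - m + 1))) * (inner ℝ y u - m) :=
              mul_le_mul_of_nonneg_right (min_le_right _ _) (by linarith)
            refine h1.trans_lt ?_
            rw [div_mul_eq_mul_div, div_lt_iff₀ (by linarith)]
            nlinarith
        obtain ⟨θ, hθ0, hθ1, hθ⟩ := hex
        refine ⟨(1 - θ) • x0 + θ • y, ?_, ?_⟩
        · exact hK.1.combo_self_interior_mem_interior hx0 hy (by linarith) hθ0 (by ring)
        · simp only [mem_setOf_eq]
          rw [inner_add_left, inner_smul_left, inner_smul_left]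
          simp only [conj_trivial]
          rw [← hm]
          nlinarith
      have hp : 0 < volume (interior K ∩ {x : E 2 | inner ℝ x u < m + η}) :=
        hop.measure_pos volume hnon
      have hsub : interior K ∩ {x : E 2 | inner ℝ x u < m + η} ⊆ cut K u (m + η) := by
        intro x hx
        refine ⟨interior_subset hx.1, ?_⟩
        have h9 := hx.2
        simp only [mem_setOf_eq] at h9 ⊢
        exact h9.le
      exact ENNReal.toReal_pos (hp.trans_le (measure_mono hsub)).ne'
        (acc_cut_compact K hK u (m + η)).measure_lt_top.ne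
    obtain ⟨d, hd0, hdε, hd1, hfl⟩ := hacc ((volume (cut K u (m + η))).toReal / (volume K).toReal)
      (div_pos hpos hV)
    obtain ⟨t, ht, c, hc⟩ := hfl u hu
    have hcK : cen K = 0 := by
      unfold cen; rw [h0, smul_zero]
    rw [hcK, zero_sub] at hc
    have hdV : d * (volume K).toReal < (volume (cut K u (m + η))).toReal := by
      rwa [lt_div_iff₀ hV] at hdε
    have htm : t < m + η := by
      by_contra hcon
      push Not at hcon
      have h2 := hmono hcon
      unfold GK at h2
      rw [ht] at h2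
      linarith
    have hb : cen (cut K u t) ∈ cut K u t :=
      acc_cen_mem _ (acc_cut_convex K hK u t) (acc_cut_compact K hK u t)
        (by rw [ht]; exact mul_pos hd0 hV)
    have hbe : cen (cut K u t) = (-c) • u := by
      rw [neg_smul, ← hc, neg_neg]
    rw [hbe] at hb
    have huu : inner ℝ u u = (1:ℝ) := by
      rw [real_inner_self_eq_norm_sq, hu]; norm_num
    have hin : inner ℝ ((-c) • u) u = -c := by
      rw [inner_smul_left, huu]; simp
    have h1 : m ≤ -c := by
      have := hmin' _ hb.1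
      rw [hin] at this
      exact this
    have h2 : -c ≤ t := by
      have := hb.2
      simp only [mem_setOf_eq] at this
      rw [hin] at this
      exact this
    refine ⟨(-c) • u, hb.1, ?_⟩
    rw [dist_eq_norm, ← sub_smul, norm_smul, hu, mul_one, Real.norm_eq_abs, abs_lt]
    constructor <;> linarith
  rwa [hK.2.1.isClosed.closure_eq] at hcl

theorem acc_zero (K : Set (E 2)) (hK : Body K) (h0 : ∫ x in K, x = 0)
    (hacc : ∀ ε > 0, ∃ d, 0 < d ∧ d < ε ∧ d < 1 ∧ Floats K d) :
    ∃ R : ℝ, 0 < R ∧ K = Metric.closedBall 0 R := by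
  have hsup : ∀ v : E 2, ‖v‖ = 1 → ∃ h : ℝ, (∀ x ∈ K, inner ℝ x v ≤ h) ∧ h • v ∈ K := by
    intro v hv
    obtain ⟨m, hm1, hm2⟩ := acc_min K hK h0 hacc (-v) (by rw [norm_neg, hv])
    refine ⟨-m, fun x hx => ?_, ?_⟩
    · have := hm1 x hx
      rw [inner_neg_right] at this
      linarith
    · rw [smul_neg] at hm2
      rwa [neg_smul]
  choose! h hh using hsup
  -- a unit vector
  obtain ⟨e, he⟩ : ∃ e : E 2, ‖e‖ = 1 := ⟨EuclideanSpace.single 0 1, by simp⟩
  obtain ⟨hV, -⟩ := G_t K hK e he
  have h0K : (0 : E 2) ∈ K := by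
    have := acc_cen_mem K hK.1 hK.2.1 hV
    unfold cen at this
    rwa [h0, smul_zero] at this
  have hnn : ∀ u : E 2, ‖u‖ = 1 → 0 ≤ h u := by
    intro u hu
    have := (hh u hu).1 0 h0K
    rwa [inner_zero_left] at this
  have hch := chain h hnn (by
    intro u w hu hw
    have := (hh w hw).1 _ (hh u hu).2
    rw [inner_smul_left] at this
    simpa using this)
  have hunit : ∀ x : E 2, x ≠ 0 → ‖(‖x‖⁻¹ • x)‖ = 1 := by
    intro x hx
    rw [norm_smul, norm_inv, norm_norm]
    exact inv_mul_cancel₀ (norm_ne_zero_iff.mpr hx)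
  have hsub : K ⊆ Metric.closedBall 0 (h e) := by
    intro x hx
    rw [mem_closedBall_zero_iff]
    by_cases hx0 : x = 0
    · rw [hx0, norm_zero]; exact hnn e he
    · have h1 := (hh _ (hunit x hx0)).1 x hx
      rw [hch _ _ (hunit x hx0) he, inner_smul_right, real_inner_self_eq_norm_sq] at h1
      have hxn : ‖x‖ ≠ 0 := norm_ne_zero_iff.mpr hx0
      have : ‖x‖⁻¹ * ‖x‖ ^ 2 = ‖x‖ := by field_simp
      rwa [this] at h1
  have hR : 0 < h e := by
    rcases (hnn e he).lt_or_eq with h1 | h1
    · exact h1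
    · exfalso
      rw [← h1, Metric.closedBall_zero] at hsub
      have : volume K = 0 := measure_mono_null hsub (by simp)
      rw [this] at hV
      simp at hV
  refine ⟨h e, hR, Subset.antisymm hsub ?_⟩
  intro x hx
  rw [mem_closedBall_zero_iff] at hx
  by_cases hx0 : x = 0
  · rw [hx0]; exact h0K
  · have h1 := (hh _ (hunit x hx0)).2
    rw [hch _ _ (hunit x hx0) he] at h1
    have hxn : ‖x‖ ≠ 0 := norm_ne_zero_iff.mpr hx0
    have h2 := hK.1 h0K h1
      (show (0 : ℝ) ≤ 1 - ‖x‖ / h e by rw [sub_nonneg, div_le_one hR]; exact hx)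
      (show (0 : ℝ) ≤ ‖x‖ / h e by positivity) (by ring)
    rw [smul_zero, zero_add, smul_smul, smul_smul] at h2
    have h3 : ‖x‖ / h e * h e * ‖x‖⁻¹ = 1 := by
      field_simp
    have h4 : ‖x‖ / h e * (h e * ‖x‖⁻¹) = 1 := by
      field_simp
    first
      | (rw [h3, one_smul] at h2; exact h2)
      | (rw [h4, one_smul] at h2; exact h2)

end Pool.Agent.Helper88.SE
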