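import Pool.Agent.Helper88.FB.Defs
import Pool.Agent.Helper88.FB.P_sg_prob
import Pool.Agent.Helper88.FB.P_sg_open

set_option autoImplicit false

open MeasureTheory Set Filter Topology
open scoped ENNReal

namespace Pool.Agent.Helper88.SE



theorem dense_test (f : S 2 → ℝ) (hf : Continuous f)
    (h : ∀ v : E 2, ‖v‖ = 1 → ∀ k : ℕ, ∫ u : S 2, (inner ℝ (u : E 2) v) ^ k * f u ∂(sg 2) = 
      (∫ u : S 2, (inner ℝ (u : E 2) v) ^ k ∂(sg 2)) * ∫ u : S 2, f u ∂(sg 2)) :
    ∀ u w, f u = f w := by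
  haveI := sg_prob 2
  haveI := sg_open 2
  obtain ⟨c, hc⟩ : ∃ c, c = ∫ u : S 2, f u ∂(sg 2) := ⟨_, rfl⟩
  let g : C(S 2, ℝ) := ⟨fun u => f u - c, hf.sub continuous_const⟩
  have hg : ∀ u, g u = f u - c := fun u => rfl
  have hint : ∀ q : S 2 → ℝ, Continuous q → Integrable q (sg 2) := fun q hq =>
    hq.integrable_of_hasCompactSupport (HasCompactSupport.of_compactSpace _)
  have hunit : ∀ v : E 2, ‖v‖ = 1 → ∀ k : ℕ,
      ∫ u : S 2, (inner ℝ (u : E 2) v) ^ k * g u ∂(sg 2) = 0 := by
    intro v hv k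
    have h1 := h v hv k
    have hcont : Continuous (fun u : S 2 => (inner ℝ (u : E 2) v) ^ k) := by fun_prop
    have h2 : ∀ u : S 2, (inner ℝ (u : E 2) v) ^ k * g u =
        (inner ℝ (u : E 2) v) ^ k * f u - (inner ℝ (u : E 2) v) ^ k * c := by
      intro u; rw [hg]; ring
    have i1 : Integrable (fun u : S 2 => (inner ℝ (u : E 2) v) ^ k * f u) (sg 2) :=
      hint _ (hcont.mul hf)
    have i2 : Integrable (fun u : S 2 => (inner ℝ (u : E 2) v) ^ k * c) (sg 2) :=
      hint _ (hcont.mul continuous_const)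
    rw [integral_congr_ae (ae_of_all _ h2), integral_sub i1 i2, h1,
      integral_mul_const, ← hc]
    ring
  have hall : ∀ v : E 2, ∀ k : ℕ,
      ∫ u : S 2, (inner ℝ (u : E 2) v) ^ k * g u ∂(sg 2) = 0 := by
    intro v k
    by_cases hv : v = 0
    · rcases Nat.eq_zero_or_pos k with hk | hk
      · have h1 := hunit (EuclideanSpace.single 0 1) (by simp) 0
        rw [hk]
        simpa using h1
      · have h2 : ∀ u : S 2, (inner ℝ (u : E 2) v) ^ k * g u = 0 := by
          intro u
          rw [hv, inner_zero_right, zero_pow hk.ne', zero_mul]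
        rw [integral_congr_ae (ae_of_all _ h2), integral_zero]
    · have hn : ‖v‖ ≠ 0 := norm_ne_zero_iff.mpr hv
      have h1 := hunit (‖v‖⁻¹ • v) (by rw [norm_smul, norm_inv, norm_norm, inv_mul_cancel₀ hn]) k
      have h2 : ∀ u : S 2, (inner ℝ (u : E 2) v) ^ k * g u =
          ‖v‖ ^ k * ((inner ℝ (u : E 2) (‖v‖⁻¹ • v)) ^ k * g u) := by
        intro u
        rw [inner_smul_right, mul_pow, ← mul_assoc, ← mul_assoc, ← mul_pow, mul_inv_cancel₀ hn,
          one_pow, one_mul]
      rw [integral_congr_ae (ae_of_all _ h2), integral_const_mul, h1, mul_zero]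
  let L : C(S 2, ℝ) →L[ℝ] ℝ := LinearMap.mkContinuous
    { toFun := fun q => ∫ u, q u * g u ∂(sg 2)
      map_add' := by
        intro q r
        have h3 : ∀ u, (q + r) u * g u = q u * g u + r u * g u := fun u => by
          rw [ContinuousMap.add_apply, add_mul]
        have i1 : Integrable (fun u : S 2 => q u * g u) (sg 2) :=
          hint _ (q.continuous.mul g.continuous)
        have i2 : Integrable (fun u : S 2 => r u * g u) (sg 2) :=
          hint _ (r.continuous.mul g.continuous)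
        rw [integral_congr_ae (ae_of_all _ h3), integral_add i1 i2]
      map_smul' := by
        intro a q
        have h3 : ∀ u, (a • q) u * g u = a * (q u * g u) := fun u => by
          rw [ContinuousMap.smul_apply, smul_eq_mul, mul_assoc]
        rw [integral_congr_ae (ae_of_all _ h3), integral_const_mul]
        rfl }
    (∫ u, ‖g u‖ ∂(sg 2)) (by
      intro q
      show ‖∫ u, q u * g u ∂(sg 2)‖ ≤ _
      rw [mul_comm, ← integral_const_mul]
      refine norm_integral_le_of_norm_le (hint _ (continuous_const.mul g.continuous.norm))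
        (ae_of_all _ fun u => ?_)
      rw [norm_mul]
      exact mul_le_mul_of_nonneg_right (q.norm_coe_le_norm u) (norm_nonneg _))
  have hLapp : ∀ q, L q = ∫ u, q u * g u ∂(sg 2) := fun q => rfl
  let ℓ : E 2 → C(S 2, ℝ) := fun v => ⟨fun u => inner ℝ (u : E 2) v, by fun_prop⟩
  have hℓadd : ∀ v w, ℓ (v + w) = ℓ v + ℓ w := by
    intro v w
    ext u
    exact inner_add_right (𝕜 := ℝ) (u : E 2) v w
  have hℓ0 : ℓ 0 = 0 := by
    ext u
    exact inner_zero_right (𝕜 := ℝ) (u : E 2)
  let EE : E 2 → C(S 2, ℝ) := fun v => NormedSpace.exp (ℓ v)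
  have hEE : ∀ v, L (EE v) = 0 := by
    intro v
    have h1 := (NormedSpace.exp_series_hasSum_exp' (𝕂 := ℝ) (ℓ v)).mapL L
    have h2 : ∀ n : ℕ, L (((n.factorial : ℝ)⁻¹) • (ℓ v) ^ n) = 0 := by
      intro n
      rw [map_smul, hLapp]
      have h3 : ∫ u, ((ℓ v) ^ n) u * g u ∂(sg 2) = 0 := hall v n
      rw [h3, smul_zero]
    simp only [h2] at h1
    exact h1.unique hasSum_zero
  have hEEadd : ∀ v w, EE v * EE w = EE (v + w) := by
    intro v w
    show NormedSpace.exp (ℓ v) * NormedSpace.exp (ℓ w) = NormedSpace.exp (ℓ (v + w))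
    rw [hℓadd, NormedSpace.exp_add]
  have hEE0 : EE 0 = 1 := by
    show NormedSpace.exp (ℓ 0) = 1
    rw [hℓ0, NormedSpace.exp_zero]
  let p : Submodule ℝ C(S 2, ℝ) := Submodule.span ℝ (Set.range EE)
  have hone : (1 : C(S 2, ℝ)) ∈ p := by
    rw [← hEE0]
    exact Submodule.subset_span ⟨0, rfl⟩
  have hmul : ∀ x y, x ∈ p → y ∈ p → x * y ∈ p := by
    intro x y hx hy
    have h1 : x * y ∈ p * p := Submodule.mul_mem_mul hx hy
    have h2 : p * p ≤ p := by
      show Submodule.span ℝ (Set.range EE) * Submodule.span ℝ (Set.range EE) ≤ _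
      rw [Submodule.span_mul_span]
      apply Submodule.span_mono
      rintro _ ⟨_, ⟨v, rfl⟩, _, ⟨w, rfl⟩, rfl⟩
      exact ⟨v + w, (hEEadd v w).symm⟩
    exact h2 h1
  let A : Subalgebra ℝ C(S 2, ℝ) := p.toSubalgebra hone hmul
  have hsep : A.SeparatesPoints := by
    intro x y hxy
    refine ⟨EE ((x : E 2) - y), ⟨EE ((x : E 2) - y), Submodule.subset_span ⟨_, rfl⟩, rfl⟩, ?_⟩
    have hval : ∀ (v : E 2) (u : S 2), EE v u = Real.exp (inner ℝ (u : E 2) v) := by
      intro v u
      have h1 := (NormedSpace.exp_series_hasSum_exp' (𝕂 := ℝ) (ℓ v)).mapL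
        (ContinuousMap.evalCLM ℝ u : C(S 2, ℝ) →L[ℝ] ℝ)
      have h2 := NormedSpace.exp_series_hasSum_exp' (𝕂 := ℝ) (inner ℝ (u : E 2) v : ℝ)
      have h3 : EE v u = NormedSpace.exp (inner ℝ (u : E 2) v : ℝ) := h1.unique h2
      rw [h3, Real.exp_eq_exp_ℝ]
    intro heq
    rw [hval, hval] at heq
    have h4 := Real.exp_injective heq
    have h5 : inner ℝ ((x : E 2) - y) ((x : E 2) - y) = 0 := by
      rw [inner_sub_left, h4, sub_self]
    rw [inner_self_eq_zero, sub_eq_zero] at h5
    exact hxy (Subtype.ext h5)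
  have htop := ContinuousMap.subalgebra_topologicalClosure_eq_top_of_separatesPoints A hsep
  have hker : ∀ q : C(S 2, ℝ), L q = 0 := by
    intro q
    have h1 : q ∈ A.topologicalClosure := by rw [htop]; exact Algebra.mem_top
    have h2 : q ∈ closure (A : Set C(S 2, ℝ)) := h1
    have h3 : closure (A : Set C(S 2, ℝ)) ⊆ {q | L q = 0} := by
      apply closure_minimal
      · intro r hr
        have h4 : p ≤ LinearMap.ker L.toLinearMap := by
          rw [Submodule.span_le]
          rintro _ ⟨v, rfl⟩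
          exact hEE v
        exact h4 hr
      · exact isClosed_eq L.continuous continuous_const
    exact h3 h2
  have h0 := hker g
  rw [hLapp] at h0
  have hcont2 : Continuous (fun u => g u * g u) := g.continuous.mul g.continuous
  have hnn : 0 ≤ (fun u => g u * g u) := fun u => mul_self_nonneg _
  rw [integral_eq_zero_iff_of_nonneg hnn (hint _ hcont2)] at h0
  have h1 : (fun u => g u * g u) = (0 : S 2 → ℝ) :=
    (Continuous.ae_eq_iff_eq (sg 2) hcont2 continuous_zero).mp h0
  have h2 : ∀ u, f u = c := by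
    intro u
    have h3 : g u * g u = 0 := congrFun h1 u
    have h4 := mul_self_eq_zero.mp h3
    rw [hg] at h4
    linarith
  intro u w
  rw [h2, h2]

end Pool.Agent.Helper88.SE
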