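import Pool.Agent.Helper88.FB.Defs

set_option autoImplicit false

open MeasureTheory Set Filter Topology
open scoped ENNReal

namespace Pool.Agent.Helper88.SE



theorem ball_level (R t : ℝ) (hR : 0 < R) (u w : E 2) (hu : ‖u‖ = 1) (hw : ‖w‖ = 1) :
    GK (Metric.closedBall 0 R) u t = GK (Metric.closedBall 0 R) w t := by
  obtain ⟨g, hg⟩ : ∃ g : E 2 ≃ₗᵢ[ℝ] E 2, g u = w :=
    ⟨(ℝ ∙ (u - w))ᗮ.reflection, Submodule.reflection_sub (by rw [hu, hw])⟩
  have hmp : MeasurePreserving g volume volume := g.measurePreserving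
  have hpre : cut (Metric.closedBall 0 R) u t = g ⁻¹' (cut (Metric.closedBall 0 R) w t) := by
    ext x
    simp only [cut, Set.mem_inter_iff, Set.mem_preimage, Metric.mem_closedBall, dist_zero_right,
      Set.mem_setOf_eq, LinearIsometryEquiv.norm_map]
    rw [← hg, LinearIsometryEquiv.inner_map_map]
  unfold GK
  rw [hpre]
  congr 1
  refine hmp.measure_preimage ?_
  refine MeasurableSet.nullMeasurableSet ?_
  refine Metric.isClosed_closedBall.measurableSet.inter ?_
  exact (isClosed_le (by fun_prop) (by fun_prop)).measurableSet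

end Pool.Agent.Helper88.SE
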