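import Pool.Agent.Helper88.FB.Defs

set_option autoImplicit false

open MeasureTheory Set Filter Topology
open scoped ENNReal

namespace Pool.Agent.Helper88.SE



/-- the point with spherical coordinates `(r, θ, ϕ)` -/
noncomputable def sph_coord_sph (r θ ϕ : ℝ) : E 2 :=
  !₂[r * Real.sin θ * Real.cos ϕ, r * Real.sin θ * Real.sin ϕ, r * Real.cos θ]

theorem sph_coord_sS : MeasurePreserving (fun x : E 2 => ((x 2, (x 0, x 1)) : ℝ × ℝ × ℝ)) volume volume := by
  have h := ((MeasurePreserving.id (volume : Measure ℝ)).prod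
    (volume_preserving_finTwoArrow ℝ)).comp
    ((volume_preserving_piFinSuccAbove (fun _ : Fin 3 => ℝ) 2).comp
      (PiLp.volume_preserving_ofLp (Fin 3)))
  exact h

theorem sph_coord_sT : Measurable (fun p : ℝ × ℝ × ℝ => (!₂[p.2.1, p.2.2, p.1] : E 2)) := by
  have h : Continuous (fun p : ℝ × ℝ × ℝ => (!₂[p.2.1, p.2.2, p.1] : E 2)) := by
    apply (PiLp.continuous_toLp 2 _).comp
    apply continuous_pi
    intro i
    fin_cases i
    · exact continuous_snd.fst
    · exact continuous_snd.snd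
    · exact continuous_fst
  exact h.measurable

/-- integration in spherical coordinates -/
theorem sph_coord_lint (F : E 2 → ℝ≥0∞) (hF : Measurable F) :
    ∫⁻ x, F x = ∫⁻ r in Ioi (0:ℝ), ∫⁻ θ in Ioo 0 Real.pi, ∫⁻ ϕ in Ioo (-Real.pi) Real.pi,
      ENNReal.ofReal (r ^ 2 * Real.sin θ) * F (sph_coord_sph r θ ϕ) := by
  set G : ℝ × ℝ × ℝ → ℝ≥0∞ := fun p => F !₂[p.2.1, p.2.2, p.1] with hG
  have hGm : Measurable G := hF.comp sph_coord_sT
  have e1 : ∫⁻ x, F x = ∫⁻ p, G p := by
    rw [← sph_coord_sS.lintegral_comp hGm]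
    apply lintegral_congr
    intro x
    show F x = F !₂[x 0, x 1, x 2]
    congr 1
    ext i
    fin_cases i <;> rfl
  rw [e1, Measure.volume_eq_prod, lintegral_prod _ hGm.aemeasurable]
  set K : ℝ × ℝ → ℝ≥0∞ := fun w =>
    ∫⁻ φ in Ioo (-Real.pi) Real.pi, G (w.1, (w.2 * Real.cos φ, w.2 * Real.sin φ)) with hK
  have hKm : Measurable K := by
    apply Measurable.lintegral_prod_right'
      (f := fun x : (ℝ × ℝ) × ℝ => G (x.1.1, (x.1.2 * Real.cos x.2, x.1.2 * Real.sin x.2)))
    exact hGm.comp (by fun_prop)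
  have e2 : ∀ z : ℝ, ∫⁻ q : ℝ × ℝ, G (z, q) = ∫⁻ s : ℝ, ENNReal.ofReal s * K (z, s) := by
    intro z
    have hm : Measurable (fun p : ℝ × ℝ => ENNReal.ofReal p.1 • G (z, polarCoord.symm p)) := by
      have : (fun p : ℝ × ℝ => ENNReal.ofReal p.1 • G (z, polarCoord.symm p)) =
          fun p : ℝ × ℝ => ENNReal.ofReal p.1 * G (z, (p.1 * Real.cos p.2, p.1 * Real.sin p.2)) := rfl
      rw [this]
      exact (ENNReal.measurable_ofReal.comp measurable_fst).mul (hGm.comp (by fun_prop))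
    rw [← lintegral_comp_polarCoord_symm (fun q => G (z, q)), polarCoord_target,
      Measure.volume_eq_prod, setLIntegral_prod _ hm.aemeasurable]
    have h1 : ∫⁻ s : ℝ, ENNReal.ofReal s * K (z, s) =
        ∫⁻ s in Ioi (0 : ℝ), ENNReal.ofReal s * K (z, s) := by
      rw [← lintegral_indicator measurableSet_Ioi]
      apply lintegral_congr
      intro s
      by_cases hs : s ∈ Ioi (0 : ℝ)
      · rw [indicator_of_mem hs]
      · rw [indicator_of_notMem hs, ENNReal.ofReal_of_nonpos (not_lt.mp hs), zero_mul]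
    rw [h1]
    apply lintegral_congr
    intro s
    rw [hK]
    simp only
    rw [← lintegral_const_mul' _ _ ENNReal.ofReal_ne_top]
    rfl
  simp_rw [e2]
  have hKm2 : Measurable (fun w : ℝ × ℝ => ENNReal.ofReal w.2 * K w) :=
    (ENNReal.measurable_ofReal.comp measurable_snd).mul hKm
  have e3 : ∫⁻ z : ℝ, ∫⁻ s : ℝ, ENNReal.ofReal s * K (z, s) =
      ∫⁻ w : ℝ × ℝ, ENNReal.ofReal w.2 * K w := by
    rw [Measure.volume_eq_prod, lintegral_prod _ hKm2.aemeasurable]
  have hm : Measurable (fun p : ℝ × ℝ => ENNReal.ofReal p.1 •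
      (ENNReal.ofReal (polarCoord.symm p).2 * K (polarCoord.symm p))) := by
    have : (fun p : ℝ × ℝ => ENNReal.ofReal p.1 •
      (ENNReal.ofReal (polarCoord.symm p).2 * K (polarCoord.symm p))) =
        fun p : ℝ × ℝ => ENNReal.ofReal p.1 *
        (ENNReal.ofReal (p.1 * Real.sin p.2) * K (p.1 * Real.cos p.2, p.1 * Real.sin p.2)) := rfl
    rw [this]
    refine (ENNReal.measurable_ofReal.comp measurable_fst).mul
      ((ENNReal.measurable_ofReal.comp (by fun_prop)).mul (hKm.comp (by fun_prop)))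
  rw [e3, ← lintegral_comp_polarCoord_symm (fun w : ℝ × ℝ => ENNReal.ofReal w.2 * K w),
    polarCoord_target, Measure.volume_eq_prod, setLIntegral_prod _ hm.aemeasurable]
  apply setLIntegral_congr_fun measurableSet_Ioi
  intro r hr
  have hr' : (0 : ℝ) < r := hr
  simp only
  rw [← lintegral_indicator measurableSet_Ioo, ← lintegral_indicator measurableSet_Ioo]
  apply lintegral_congr
  intro θ
  by_cases h1 : θ ∈ Ioo (0 : ℝ) Real.pi
  · have h2 : θ ∈ Ioo (-Real.pi) Real.pi := ⟨by linarith [h1.1, Real.pi_pos], h1.2⟩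
    rw [indicator_of_mem h1, indicator_of_mem h2]
    show ENNReal.ofReal r * (ENNReal.ofReal (r * Real.sin θ) *
      K (r * Real.cos θ, r * Real.sin θ)) = _
    rw [← mul_assoc, ← ENNReal.ofReal_mul hr'.le, lintegral_const_mul' _ _ ENNReal.ofReal_ne_top]
    have : r * (r * Real.sin θ) = r ^ 2 * Real.sin θ := by ring
    rw [this]
    rfl
  · rw [indicator_of_notMem h1]
    by_cases h2 : θ ∈ Ioo (-Real.pi) Real.pi
    · rw [indicator_of_mem h2]
      have h3 : θ ≤ 0 := by
        by_contra h4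
        exact h1 ⟨not_le.mp h4, h2.2⟩
      have h5 : Real.sin θ ≤ 0 := Real.sin_nonpos_of_nonpos_of_neg_pi_le h3 h2.1.le
      show ENNReal.ofReal r * (ENNReal.ofReal (r * Real.sin θ) *
        K (r * Real.cos θ, r * Real.sin θ)) = 0
      rw [ENNReal.ofReal_of_nonpos (mul_nonpos_of_nonneg_of_nonpos hr'.le h5)]
      simp
    · rw [indicator_of_notMem h2]

theorem sph_coord_norm (r θ ϕ : ℝ) (hr : 0 < r) : ‖sph_coord_sph r θ ϕ‖ = r := by
  rw [EuclideanSpace.norm_eq, Fin.sum_univ_three]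
  have : ‖(sph_coord_sph r θ ϕ) 0‖ ^ 2 + ‖(sph_coord_sph r θ ϕ) 1‖ ^ 2 + ‖(sph_coord_sph r θ ϕ) 2‖ ^ 2 = r ^ 2 := by
    rw [Real.norm_eq_abs, Real.norm_eq_abs, Real.norm_eq_abs, sq_abs, sq_abs, sq_abs]
    show (r * Real.sin θ * Real.cos ϕ) ^ 2 + (r * Real.sin θ * Real.sin ϕ) ^ 2 + (r * Real.cos θ) ^ 2 = r ^ 2
    have h1 := Real.sin_sq_add_cos_sq θ
    have h2 := Real.sin_sq_add_cos_sq ϕ
    calc (r * Real.sin θ * Real.cos ϕ) ^ 2 + (r * Real.sin θ * Real.sin ϕ) ^ 2 + (r * Real.cos θ) ^ 2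
        = r ^ 2 * (Real.sin θ ^ 2 * (Real.sin ϕ ^ 2 + Real.cos ϕ ^ 2) + Real.cos θ ^ 2) := by ring
      _ = r ^ 2 := by rw [h2, mul_one, h1, mul_one]
  rw [this, Real.sqrt_sq hr.le]

theorem sph_coord_smul (r θ ϕ : ℝ) (hr : 0 < r) : r⁻¹ • sph_coord_sph r θ ϕ = sph_coord_sph 1 θ ϕ := by
  ext i
  fin_cases i
  · show r⁻¹ * (r * Real.sin θ * Real.cos ϕ) = 1 * Real.sin θ * Real.cos ϕ
    field_simp
  · show r⁻¹ * (r * Real.sin θ * Real.sin ϕ) = 1 * Real.sin θ * Real.sin ϕ
    field_simp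
  · show r⁻¹ * (r * Real.cos θ) = 1 * Real.cos θ
    field_simp

/-- the parametrisation -/
noncomputable def sph_coord_P (p : ℝ × ℝ) : E 2 :=
  !₂[Real.sqrt (1 - p.1 ^ 2) * Real.cos p.2, Real.sqrt (1 - p.1 ^ 2) * Real.sin p.2, p.1]

theorem sph_coord_Pm : Measurable sph_coord_P := by
  have h : Continuous sph_coord_P := by
    unfold sph_coord_P
    apply (PiLp.continuous_toLp 2 _).comp
    apply continuous_pi
    intro i
    fin_cases i
    · show Continuous (fun p : ℝ × ℝ => Real.sqrt (1 - p.1 ^ 2) * Real.cos p.2)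
      fun_prop
    · show Continuous (fun p : ℝ × ℝ => Real.sqrt (1 - p.1 ^ 2) * Real.sin p.2)
      fun_prop
    · exact continuous_fst
  exact h.measurable

theorem sph_coord_main (h : E 2 → ℝ≥0∞) (hh : Measurable h) :
    ∫⁻ u : S 2, h (u : E 2) ∂((volume : Measure (E 2)).toSphere) =
      ∫⁻ θ in Ioo 0 Real.pi, ∫⁻ ϕ in Ioo (-Real.pi) Real.pi,
        ENNReal.ofReal (Real.sin θ) * h (sph_coord_sph 1 θ ϕ) := by
  set W : ℝ → ℝ≥0∞ := (Iio 1).indicator 1 with hW
  have hWm : Measurable W := measurable_one.indicator measurableSet_Iio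
  set F : E 2 → ℝ≥0∞ := fun x => W ‖x‖ * h (‖x‖⁻¹ • x) with hF
  have hFm : Measurable F := by
    refine (hWm.comp measurable_norm).mul (hh.comp ?_)
    exact (measurable_norm.inv).smul measurable_id
  have hfr : Module.finrank ℝ (E 2) = 3 := by simp
  -- first computation
  have e1 : ∫⁻ x, F x = (∫⁻ u : S 2, h (u : E 2) ∂((volume : Measure (E 2)).toSphere)) *
      ENNReal.ofReal (1 / 3) := by
    have a1 : ∫⁻ x, F x = ∫⁻ x : ({0}ᶜ : Set (E 2)), F x ∂((volume : Measure (E 2)).comap (↑)) := by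
      rw [lintegral_subtype_comap (measurableSet_singleton _).compl, restrict_compl_singleton]
    have a2 : ∫⁻ x : ({0}ᶜ : Set (E 2)), F x ∂((volume : Measure (E 2)).comap (↑)) =
        ∫⁻ p : (S 2) × Ioi (0 : ℝ), h (p.1 : E 2) * W p.2
          ∂((volume : Measure (E 2)).toSphere.prod (Measure.volumeIoiPow (Module.finrank ℝ (E 2) - 1))) := by
      have hmp := (volume : Measure (E 2)).measurePreserving_homeomorphUnitSphereProd
      have hg : Measurable (fun p : (S 2) × Ioi (0 : ℝ) => h (p.1 : E 2) * W p.2) :=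
        (hh.comp (measurable_subtype_coe.comp measurable_fst)).mul
          (hWm.comp (measurable_subtype_coe.comp measurable_snd))
      rw [← hmp.lintegral_comp hg]
      apply lintegral_congr
      intro x
      rw [hF]
      simp only [homeomorphUnitSphereProd_apply_snd_coe, homeomorphUnitSphereProd_apply_fst_coe]
      rw [mul_comm]
    have a3 : ∫⁻ p : (S 2) × Ioi (0 : ℝ), h (p.1 : E 2) * W p.2
          ∂((volume : Measure (E 2)).toSphere.prod (Measure.volumeIoiPow (Module.finrank ℝ (E 2) - 1))) =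
        (∫⁻ u : S 2, h (u : E 2) ∂((volume : Measure (E 2)).toSphere)) *
          ∫⁻ r : Ioi (0 : ℝ), W r ∂(Measure.volumeIoiPow (Module.finrank ℝ (E 2) - 1)) := by
      exact lintegral_prod_mul (hh.comp measurable_subtype_coe).aemeasurable
        (hWm.comp measurable_subtype_coe).aemeasurable
    have a4 : ∫⁻ r : Ioi (0 : ℝ), W r ∂(Measure.volumeIoiPow (Module.finrank ℝ (E 2) - 1)) =
        ENNReal.ofReal (1 / 3) := by
      rw [hfr]
      have b1 : (fun r : Ioi (0 : ℝ) => W r) = (Iio (⟨1, mem_Ioi.2 one_pos⟩ : Ioi (0 : ℝ))).indicator 1 := by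
        funext r
        rw [hW]
        by_cases hr : (r : ℝ) < 1
        · rw [indicator_of_mem (show (r : ℝ) ∈ Iio (1 : ℝ) from hr),
            indicator_of_mem (show r ∈ Iio (⟨1, mem_Ioi.2 one_pos⟩ : Ioi (0 : ℝ)) from hr)]
          rfl
        · rw [indicator_of_notMem (show (r : ℝ) ∉ Iio (1 : ℝ) from hr),
            indicator_of_notMem (show r ∉ Iio (⟨1, mem_Ioi.2 one_pos⟩ : Ioi (0 : ℝ)) from hr)]
      rw [b1, lintegral_indicator_one measurableSet_Iio, Measure.volumeIoiPow_apply_Iio]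
      norm_num
    rw [a1, a2, a3, a4]
  -- second computation
  have e2 : ∫⁻ x, F x = ENNReal.ofReal (1 / 3) * ∫⁻ θ in Ioo 0 Real.pi, ∫⁻ ϕ in Ioo (-Real.pi) Real.pi,
        ENNReal.ofReal (Real.sin θ) * h (sph_coord_sph 1 θ ϕ) := by
    rw [sph_coord_lint F hFm]
    have b1 : ∀ r ∈ Ioi (0 : ℝ), (∫⁻ θ in Ioo 0 Real.pi, ∫⁻ ϕ in Ioo (-Real.pi) Real.pi,
        ENNReal.ofReal (r ^ 2 * Real.sin θ) * F (sph_coord_sph r θ ϕ)) =
        (ENNReal.ofReal (r ^ 2) * W r) * ∫⁻ θ in Ioo 0 Real.pi, ∫⁻ ϕ in Ioo (-Real.pi) Real.pi,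
        ENNReal.ofReal (Real.sin θ) * h (sph_coord_sph 1 θ ϕ) := by
      intro r hr
      have hr' : (0 : ℝ) < r := hr
      have hWt : W r ≠ ⊤ := by
        rw [hW]
        by_cases h1 : r ∈ Iio (1 : ℝ)
        · rw [indicator_of_mem h1]; simp
        · rw [indicator_of_notMem h1]; simp
      have hct : ENNReal.ofReal (r ^ 2) * W r ≠ ⊤ := ENNReal.mul_ne_top ENNReal.ofReal_ne_top hWt
      rw [← lintegral_const_mul' _ _ hct]
      apply lintegral_congr
      intro θ
      rw [← lintegral_const_mul' _ _ hct]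
      apply lintegral_congr
      intro ϕ
      rw [hF]
      simp only
      rw [sph_coord_norm r θ ϕ hr', sph_coord_smul r θ ϕ hr', ENNReal.ofReal_mul (by positivity)]
      ring
    rw [setLIntegral_congr_fun measurableSet_Ioi b1, lintegral_mul_const'']
    · congr 1
      have b2 : ∫⁻ r : Ioi (0 : ℝ), W r ∂(Measure.volumeIoiPow 2) = ENNReal.ofReal (1 / 3) := by
        have b1 : (fun r : Ioi (0 : ℝ) => W r) = (Iio (⟨1, mem_Ioi.2 one_pos⟩ : Ioi (0 : ℝ))).indicator 1 := by
          funext r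
          rw [hW]
          by_cases hr : (r : ℝ) < 1
          · rw [indicator_of_mem (show (r : ℝ) ∈ Iio (1 : ℝ) from hr),
              indicator_of_mem (show r ∈ Iio (⟨1, mem_Ioi.2 one_pos⟩ : Ioi (0 : ℝ)) from hr)]
            rfl
          · rw [indicator_of_notMem (show (r : ℝ) ∉ Iio (1 : ℝ) from hr),
              indicator_of_notMem (show r ∉ Iio (⟨1, mem_Ioi.2 one_pos⟩ : Ioi (0 : ℝ)) from hr)]
        rw [b1, lintegral_indicator_one measurableSet_Iio, Measure.volumeIoiPow_apply_Iio]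
        norm_num
      rw [← b2, Measure.volumeIoiPow, lintegral_withDensity_eq_lintegral_mul]
      · have b3 := lintegral_subtype_comap (μ := (volume : Measure ℝ)) (measurableSet_Ioi (a := (0 : ℝ)))
          (fun r : ℝ => ENNReal.ofReal (r ^ 2) * W r)
        exact b3.symm
      · exact (ENNReal.measurable_ofReal.comp (measurable_subtype_coe.pow_const 2))
      · exact hWm.comp measurable_subtype_coe
    · exact ((ENNReal.measurable_ofReal.comp (measurable_id.pow_const 2)).mul hWm).aemeasurable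
  rw [e1, mul_comm] at e2
  have hc0 : ENNReal.ofReal (1 / 3) ≠ 0 := by
    rw [Ne, ENNReal.ofReal_eq_zero]; norm_num
  exact (ENNReal.mul_right_inj hc0 ENNReal.ofReal_ne_top).1 e2

theorem sph_coord_main2 (h : E 2 → ℝ≥0∞) (hh : Measurable h) :
    ∫⁻ u : S 2, h (u : E 2) ∂((volume : Measure (E 2)).toSphere) =
      ∫⁻ z in Icc (-1) 1, ∫⁻ ϕ in Ioo (-Real.pi) Real.pi, h (sph_coord_P (z, ϕ)) := by
  rw [sph_coord_main h hh]
  have himg : Real.cos '' (Icc 0 Real.pi) = Icc (-1) 1 := Real.bijOn_cos.image_eq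
  have e := lintegral_image_eq_lintegral_abs_deriv_mul (s := Icc 0 Real.pi) (f := Real.cos)
    (f' := fun θ => -Real.sin θ) measurableSet_Icc (fun θ _ => (Real.hasDerivAt_cos θ).hasDerivWithinAt)
    Real.injOn_cos (fun z => ∫⁻ ϕ in Ioo (-Real.pi) Real.pi, h (sph_coord_P (z, ϕ)))
  rw [himg] at e
  rw [e, ← Measure.restrict_congr_set (Ioo_ae_eq_Icc (a := (0 : ℝ)) (b := Real.pi))]
  apply setLIntegral_congr_fun measurableSet_Ioo
  intro θ hθ
  have hs : 0 ≤ Real.sin θ := Real.sin_nonneg_of_nonneg_of_le_pi hθ.1.le hθ.2.le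
  simp only
  rw [abs_neg, abs_of_nonneg hs, ← lintegral_const_mul' _ _ ENNReal.ofReal_ne_top]
  apply lintegral_congr
  intro ϕ
  congr 2
  unfold sph_coord_P sph_coord_sph
  simp only
  rw [← Real.sin_eq_sqrt_one_sub_cos_sq hθ.1.le hθ.2.le, one_mul, one_mul]

theorem sph_coord (f : E 2 → ℝ) (hf : Measurable f) (hb : ∃ B, ∀ u, ‖u‖ = 1 → |f u| ≤ B) :
    ∫ u : S 2, f (u : E 2) ∂(sg 2) = (4 * Real.pi)⁻¹ *
      ∫ z in (-1 : ℝ)..1, ∫ a in (0 : ℝ)..(2 * Real.pi),
        f (!₂[Real.sqrt (1 - z ^ 2) * Real.cos a, Real.sqrt (1 - z ^ 2) * Real.sin a, z] : E 2) := by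
  set ν : Measure (ℝ × ℝ) := (volume.restrict (Icc (-1) 1)).prod (volume.restrict (Ioo (-Real.pi) Real.pi)) with hν
  have hmap : Measure.map (Subtype.val : S 2 → E 2) (volume : Measure (E 2)).toSphere =
      Measure.map sph_coord_P ν := by
    ext B hB
    rw [← lintegral_indicator_one hB, ← lintegral_indicator_one hB,
      lintegral_map (measurable_one.indicator hB) measurable_subtype_coe,
      lintegral_map (measurable_one.indicator hB) sph_coord_Pm,
      sph_coord_main2 _ (measurable_one.indicator hB), hν, lintegral_prod]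
    exact ((measurable_one.indicator hB).comp sph_coord_Pm).aemeasurable
  have huniv : (volume : Measure (E 2)).toSphere univ = ENNReal.ofReal (4 * Real.pi) := by
    have h1 := sph_coord_main2 1 measurable_one
    simp only [Pi.one_apply, lintegral_one, Measure.restrict_apply_univ, Real.volume_Ioo,
      lintegral_const, Real.volume_Icc] at h1
    rw [h1, ← ENNReal.ofReal_mul (by linarith [Real.pi_pos])]
    congr 1
    ring
  obtain ⟨B, hB⟩ := hb
  have hnorm : ∀ z ∈ Icc (-1 : ℝ) 1, ∀ a, ‖sph_coord_P (z, a)‖ = 1 := by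
    intro z hz a
    rw [EuclideanSpace.norm_eq, Fin.sum_univ_three]
    have : ‖(sph_coord_P (z, a)) 0‖ ^ 2 + ‖(sph_coord_P (z, a)) 1‖ ^ 2 + ‖(sph_coord_P (z, a)) 2‖ ^ 2 = 1 := by
      rw [Real.norm_eq_abs, Real.norm_eq_abs, Real.norm_eq_abs, sq_abs, sq_abs, sq_abs]
      show (Real.sqrt (1 - z ^ 2) * Real.cos a) ^ 2 + (Real.sqrt (1 - z ^ 2) * Real.sin a) ^ 2 + z ^ 2 = 1
      have h2 := Real.sin_sq_add_cos_sq a
      have h3 : Real.sqrt (1 - z ^ 2) ^ 2 = 1 - z ^ 2 := Real.sq_sqrt (by nlinarith [hz.1, hz.2])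
      calc (Real.sqrt (1 - z ^ 2) * Real.cos a) ^ 2 + (Real.sqrt (1 - z ^ 2) * Real.sin a) ^ 2 + z ^ 2
          = Real.sqrt (1 - z ^ 2) ^ 2 * (Real.sin a ^ 2 + Real.cos a ^ 2) + z ^ 2 := by ring
        _ = 1 := by rw [h2, h3]; ring
    rw [this, Real.sqrt_one]
  have hint : Integrable (fun p => f (sph_coord_P p)) ν := by
    haveI : IsFiniteMeasure ν := by rw [hν]; infer_instance
    refine Integrable.of_bound (hf.comp sph_coord_Pm).aestronglyMeasurable B ?_
    rw [hν, Measure.prod_restrict]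
    refine (ae_restrict_iff' (measurableSet_Icc.prod measurableSet_Ioo)).2 (Filter.Eventually.of_forall ?_)
    rintro ⟨z, a⟩ hp
    rw [Real.norm_eq_abs]
    exact hB _ (hnorm z hp.1 a)
  have e1 : ∫ u : S 2, f (u : E 2) ∂((volume : Measure (E 2)).toSphere) = ∫ p, f (sph_coord_P p) ∂ν := by
    rw [← integral_map measurable_subtype_coe.aemeasurable hf.aestronglyMeasurable, hmap,
      integral_map sph_coord_Pm.aemeasurable hf.aestronglyMeasurable]
  have e2 : ∫ p, f (sph_coord_P p) ∂ν = ∫ z in (-1 : ℝ)..1, ∫ a in (0 : ℝ)..(2 * Real.pi),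
        f (sph_coord_P (z, a)) := by
    rw [hν] at hint ⊢
    rw [integral_prod _ hint, intervalIntegral.integral_of_le (by norm_num), integral_Icc_eq_integral_Ioc]
    congr 1
    funext z
    have hper : Function.Periodic (fun a => f (sph_coord_P (z, a))) (2 * Real.pi) := by
      intro a
      show f (sph_coord_P (z, a + 2 * Real.pi)) = f (sph_coord_P (z, a))
      unfold sph_coord_P
      simp only [Real.cos_add_two_pi, Real.sin_add_two_pi]
    have h2 := hper.intervalIntegral_add_eq (-Real.pi) 0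
    rw [zero_add, show -Real.pi + 2 * Real.pi = Real.pi by ring,
      intervalIntegral.integral_of_le (by linarith [Real.pi_pos]), integral_Ioc_eq_integral_Ioo] at h2
    exact h2
  unfold sg
  rw [integral_smul_measure, e1, e2, huniv, ENNReal.toReal_inv, ENNReal.toReal_ofReal (by positivity), smul_eq_mul]
  rfl

end Pool.Agent.Helper88.SE
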