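import Pool.Agent.Helper88.FB.Defs
import Pool.Agent.Helper88.FB.P_sph_coord

set_option autoImplicit false

open MeasureTheory Set Filter Topology
open scoped ENNReal

namespace Pool.Agent.Helper88.SE



lemma pn_angle (x y : ℝ) : ∃ b : ℝ, x = Real.sqrt (x ^ 2 + y ^ 2) * Real.cos b ∧
    y = Real.sqrt (x ^ 2 + y ^ 2) * Real.sin b := by
  refine ⟨Complex.arg ⟨x, y⟩, ?_, ?_⟩
  · have h := Complex.norm_mul_cos_arg ⟨x, y⟩
    have e : ‖(⟨x, y⟩ : ℂ)‖ = Real.sqrt (x ^ 2 + y ^ 2) := by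
      rw [Complex.norm_def, Complex.normSq_mk]; ring_nf
    rw [e] at h
    exact h.symm
  · have h := Complex.norm_mul_sin_arg ⟨x, y⟩
    have e : ‖(⟨x, y⟩ : ℂ)‖ = Real.sqrt (x ^ 2 + y ^ 2) := by
      rw [Complex.norm_def, Complex.normSq_mk]; ring_nf
    rw [e] at h
    exact h.symm

lemma pn_shift (f : ℝ → ℝ) (hf : Function.Periodic f (2 * Real.pi)) (b : ℝ) :
    ∫ a in (0:ℝ)..(2 * Real.pi), f (a - b) = ∫ a in (0:ℝ)..(2 * Real.pi), f a := by
  rw [intervalIntegral.integral_comp_sub_right]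
  have h := hf.intervalIntegral_add_eq (0 - b) 0
  have e1 : 0 - b + 2 * Real.pi = 2 * Real.pi - b := by ring
  rw [e1, zero_add] at h
  exact h

/-- moments of cos -/
noncomputable def pnM (i : ℕ) : ℝ := ∫ a in (0:ℝ)..(2 * Real.pi), Real.cos a ^ i

lemma pnM_odd (i : ℕ) (hi : Odd i) : pnM i = 0 := by
  have hper : Function.Periodic (fun a : ℝ => Real.cos a ^ i) (2 * Real.pi) := by
    intro a; simp [Real.cos_add_two_pi]
  have h := pn_shift _ hper Real.pi
  have e : (fun a : ℝ => Real.cos (a - Real.pi) ^ i) = fun a : ℝ => -(Real.cos a ^ i) := by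
    funext a
    rw [Real.cos_sub_pi, hi.neg_pow]
  rw [e, intervalIntegral.integral_neg] at h
  unfold pnM
  linarith

lemma pn_inner (k : ℕ) (w0 w1 q t : ℝ) :
    ∫ a in (0:ℝ)..(2 * Real.pi), (q * (w0 * Real.cos a + w1 * Real.sin a) + t) ^ k =
      ∑ i ∈ Finset.range (k + 1), (q ^ 2 * (w0 ^ 2 + w1 ^ 2)) ^ (i / 2) * t ^ (k - i) * (k.choose i : ℝ) * pnM i := by
  obtain ⟨b, hb1, hb2⟩ := pn_angle w0 w1
  obtain ⟨ρ, hρ⟩ : ∃ ρ, ρ = Real.sqrt (w0 ^ 2 + w1 ^ 2) := ⟨_, rfl⟩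
  rw [← hρ] at hb1 hb2
  have hρ2 : ρ ^ 2 = w0 ^ 2 + w1 ^ 2 := by rw [hρ]; exact Real.sq_sqrt (by positivity)
  have e1 : (fun a : ℝ => (q * (w0 * Real.cos a + w1 * Real.sin a) + t) ^ k) =
      fun a : ℝ => (fun a : ℝ => (q * ρ * Real.cos a + t) ^ k) (a - b) := by
    funext a
    simp only [Real.cos_sub]
    congr 1
    rw [hb1, hb2]
    ring
  have hper : Function.Periodic (fun a : ℝ => (q * ρ * Real.cos a + t) ^ k) (2 * Real.pi) := by
    intro a; simp [Real.cos_add_two_pi]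
  rw [e1, pn_shift _ hper b]
  have e2 : (fun a : ℝ => (q * ρ * Real.cos a + t) ^ k) = fun a : ℝ =>
      ∑ i ∈ Finset.range (k + 1), ((q * ρ) ^ i * t ^ (k - i) * (k.choose i : ℝ)) * Real.cos a ^ i := by
    funext a
    rw [add_pow]
    apply Finset.sum_congr rfl
    intro i _
    rw [mul_pow (q * ρ) (Real.cos a) i]
    ring
  rw [e2, intervalIntegral.integral_finsetSum]
  · apply Finset.sum_congr rfl
    intro i _
    rw [intervalIntegral.integral_const_mul]
    change _ * pnM i = _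
    rcases Nat.even_or_odd i with h | h
    · obtain ⟨m, hm⟩ := h
      have hm2 : i = 2 * m := by omega
      have hm3 : i / 2 = m := by omega
      rw [hm3, ← hρ2]
      have : (q * ρ) ^ i = (q ^ 2 * ρ ^ 2) ^ m := by
        rw [hm2, pow_mul, mul_pow]
      rw [this]
    · rw [pnM_odd i h]; simp
  · intro i _
    apply Continuous.intervalIntegrable
    fun_prop

lemma pn_prim (k : ℕ) (A : Polynomial ℝ) (hA : A.natDegree ≤ k) (s : ℝ) :
    ∫ z in (-1:ℝ)..s, A.eval z = ∑ j ∈ Finset.range (k + 2),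
      (if j = 0 then -∑ i ∈ Finset.range (k + 1), A.coeff i * ((-1 : ℝ) ^ (i + 1) / (i + 1))
        else A.coeff (j - 1) / j) * s ^ j := by
  have e1 : (fun z : ℝ => A.eval z) = fun z : ℝ => ∑ i ∈ Finset.range (k + 1), A.coeff i * z ^ i := by
    funext z
    exact Polynomial.eval_eq_sum_range' (by omega) z
  rw [e1, intervalIntegral.integral_finsetSum]
  · rw [Finset.sum_range_succ' _ (k + 1)]
    simp only [if_true, pow_zero, mul_one]
    rw [← sub_eq_add_neg, ← Finset.sum_sub_distrib]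
    apply Finset.sum_congr rfl
    intro i _
    rw [intervalIntegral.integral_const_mul, integral_pow]
    simp only [Nat.add_eq_zero_iff, one_ne_zero, and_false, if_false, Nat.add_sub_cancel]
    push_cast
    ring
  · intro i _
    apply Continuous.intervalIntegrable
    fun_prop

noncomputable def pnA (k i : ℕ) : Polynomial ℝ := (1 - Polynomial.X ^ 2) ^ (i / 2) * Polynomial.X ^ (k - i)

lemma pnA_deg (k i : ℕ) (hi : i ≤ k) : (pnA k i).natDegree ≤ k := by
  unfold pnA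
  refine (Polynomial.natDegree_mul_le).trans ?_
  have h1 : ((1 - Polynomial.X ^ 2 : Polynomial ℝ) ^ (i / 2)).natDegree ≤ (i / 2) * 2 := by
    refine (Polynomial.natDegree_pow_le).trans ?_
    apply Nat.mul_le_mul_left
    refine (Polynomial.natDegree_sub_le _ _).trans ?_
    simp
  have h2 : ((Polynomial.X : Polynomial ℝ) ^ (k - i)).natDegree = k - i := by simp
  rw [h2]
  omega

lemma pnA_eval (k i : ℕ) (z : ℝ) : (pnA k i).eval z = (1 - z ^ 2) ^ (i / 2) * z ^ (k - i) := by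
  simp [pnA]

/-- coefficient of the primitive -/
noncomputable def pnB (k i j : ℕ) : ℝ :=
  (if j = 0 then -∑ l ∈ Finset.range (k + 1), (pnA k i).coeff l * ((-1 : ℝ) ^ (l + 1) / (l + 1))
        else (pnA k i).coeff (j - 1) / j)

/-- the coefficients -/
noncomputable def pnc (k j : ℕ) (y : ℝ) : ℝ :=
  (4 * Real.pi)⁻¹ * ∑ i ∈ Finset.range (k + 1), ((1 - y ^ 2) ^ (i / 2) * y ^ (k - i) * (k.choose i : ℝ) * pnM i) * pnB k i j

lemma pn_outer (k : ℕ) (y s : ℝ) :
    (4 * Real.pi)⁻¹ * ∫ z in (-1:ℝ)..s, ∑ i ∈ Finset.range (k + 1),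
      ((1 - z ^ 2) * (1 - y ^ 2)) ^ (i / 2) * (z * y) ^ (k - i) * (k.choose i : ℝ) * pnM i =
      ∑ j ∈ Finset.range (k + 2), pnc k j y * s ^ j := by
  have e1 : ∀ z : ℝ, ∑ i ∈ Finset.range (k + 1),
      ((1 - z ^ 2) * (1 - y ^ 2)) ^ (i / 2) * (z * y) ^ (k - i) * (k.choose i : ℝ) * pnM i =
      ∑ i ∈ Finset.range (k + 1), ((1 - y ^ 2) ^ (i / 2) * y ^ (k - i) * (k.choose i : ℝ) * pnM i) * (pnA k i).eval z := by
    intro z
    apply Finset.sum_congr rfl
    intro i _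
    rw [pnA_eval, mul_pow, mul_pow]
    ring
  simp only [e1]
  rw [intervalIntegral.integral_finsetSum]
  · have e2 : ∀ i ∈ Finset.range (k + 1), ∫ z in (-1:ℝ)..s, ((1 - y ^ 2) ^ (i / 2) * y ^ (k - i) * (k.choose i : ℝ) * pnM i) * (pnA k i).eval z =
        ((1 - y ^ 2) ^ (i / 2) * y ^ (k - i) * (k.choose i : ℝ) * pnM i) * ∑ j ∈ Finset.range (k + 2), pnB k i j * s ^ j := by
      intro i hi
      rw [intervalIntegral.integral_const_mul, pn_prim k (pnA k i) (pnA_deg k i (by simpa [Nat.lt_succ_iff] using hi)) s]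
      rfl
    rw [Finset.sum_congr rfl e2]
    unfold pnc
    simp only [Finset.mul_sum, Finset.sum_mul]
    rw [Finset.sum_comm]
    apply Finset.sum_congr rfl
    intro j _
    apply Finset.sum_congr rfl
    intro i _
    ring
  · intro i _
    apply Continuous.intervalIntegrable
    fun_prop

lemma pn_ind (g : ℝ → ℝ) (hg : Continuous g) (s : ℝ) (hs : |s| ≤ 1) :
    ∫ z in (-1:ℝ)..1, g z * (if z ≤ s then (1:ℝ) else 0) = ∫ z in (-1:ℝ)..s, g z := by
  rw [abs_le] at hs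
  have e : (fun z : ℝ => g z * (if z ≤ s then (1:ℝ) else 0)) = (Iic s).indicator g := by
    funext z
    by_cases h : z ≤ s
    · simp [indicator, h]
    · simp [indicator, h]
  rw [e, intervalIntegral.integral_of_le (by norm_num), intervalIntegral.integral_of_le hs.1,
    setIntegral_indicator measurableSet_Iic]
  congr 2
  ext z
  simp only [mem_inter_iff, mem_Ioc, mem_Iic]
  constructor
  · rintro ⟨h1, h2⟩; exact ⟨h1.1, h2⟩
  · rintro ⟨h1, h2⟩; exact ⟨⟨h1, h2.trans hs.2⟩, h2⟩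

theorem poly_north (k : ℕ) : ∃ c : ℕ → ℝ → ℝ, (∀ j, Continuous (c j)) ∧
    ∀ w : E 2, ‖w‖ = 1 → ∀ s : ℝ, |s| ≤ 1 →
      ∫ u : S 2, (inner ℝ (u : E 2) w) ^ k *
        (if (u : E 2) 2 ≤ s then (1 : ℝ) else 0) ∂(sg 2) =
      ∑ j ∈ Finset.range (k + 2), c j (w 2) * s ^ j := by
  refine ⟨fun j y => pnc k j y, ?_, ?_⟩
  · intro j
    unfold pnc
    fun_prop
  intro w hw s hs
  have hwsq : w 0 ^ 2 + w 1 ^ 2 = 1 - w 2 ^ 2 := by
    have h := EuclideanSpace.real_norm_sq_eq w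
    rw [hw] at h
    have h3 : ∑ i, w i ^ 2 = w 0 ^ 2 + w 1 ^ 2 + w 2 ^ 2 := Fin.sum_univ_three _
    rw [h3] at h
    linarith
  have hmeas : Measurable (fun u : E 2 => (inner ℝ u w) ^ k * (if u 2 ≤ s then (1 : ℝ) else 0)) := by
    apply Measurable.mul
    · fun_prop
    · apply Measurable.ite
      · exact measurableSet_le (by fun_prop) measurable_const
      · exact measurable_const
      · exact measurable_const
  have hb : ∃ B, ∀ u : E 2, ‖u‖ = 1 → |(inner ℝ u w) ^ k * (if u 2 ≤ s then (1 : ℝ) else 0)| ≤ B := by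
    refine ⟨1, fun u hu => ?_⟩
    rw [abs_mul, abs_pow]
    have h1 : |inner ℝ u w| ≤ 1 := by
      have := abs_real_inner_le_norm u w
      rw [hu, hw] at this
      linarith
    have h2 : |inner ℝ u w| ^ k ≤ 1 := pow_le_one₀ (abs_nonneg _) h1
    have h3 : |(if u 2 ≤ s then (1 : ℝ) else 0)| ≤ 1 := by split_ifs <;> simp
    calc _ ≤ 1 * 1 := mul_le_mul h2 h3 (abs_nonneg _) (by norm_num)
      _ = 1 := by norm_num
  have h := sph_coord (fun u : E 2 => (inner ℝ u w) ^ k * (if u 2 ≤ s then (1 : ℝ) else 0)) hmeas hb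
  rw [h, ← pn_outer k (w 2) s]
  congr 1
  rw [← pn_ind _ (by fun_prop) s hs]
  apply intervalIntegral.integral_congr
  intro z hz
  rw [uIcc_of_le (by norm_num)] at hz
  have hz1 : 0 ≤ 1 - z ^ 2 := by nlinarith [hz.1, hz.2]
  have e0 : (1 - z ^ 2) = Real.sqrt (1 - z ^ 2) ^ 2 := (Real.sq_sqrt hz1).symm
  simp only []
  have e : ∀ a : ℝ, (inner ℝ (!₂[Real.sqrt (1 - z ^ 2) * Real.cos a, Real.sqrt (1 - z ^ 2) * Real.sin a, z] : E 2) w) ^ k *
      (if (!₂[Real.sqrt (1 - z ^ 2) * Real.cos a, Real.sqrt (1 - z ^ 2) * Real.sin a, z] : E 2) 2 ≤ s then (1 : ℝ) else 0) =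
      (Real.sqrt (1 - z ^ 2) * (w 0 * Real.cos a + w 1 * Real.sin a) + z * w 2) ^ k * (if z ≤ s then (1:ℝ) else 0) := by
    intro a
    have e1 : inner ℝ (!₂[Real.sqrt (1 - z ^ 2) * Real.cos a, Real.sqrt (1 - z ^ 2) * Real.sin a, z] : E 2) w =
        Real.sqrt (1 - z ^ 2) * (w 0 * Real.cos a + w 1 * Real.sin a) + z * w 2 := by
      rw [PiLp.inner_apply]
      have : ∀ F : Fin (2 + 1) → ℝ, ∑ i, F i = F 0 + F 1 + F 2 := fun F => Fin.sum_univ_three F
      rw [this]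
      simp
      ring
    rw [e1]
    rfl
  simp only [e]
  rw [intervalIntegral.integral_mul_const, pn_inner]
  rw [← hwsq]
  congr 1
  apply Finset.sum_congr rfl
  intro i _
  rw [← e0]

end Pool.Agent.Helper88.SE
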