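import Pool.Agent.Helper88.FB.Defs
import Pool.Agent.Helper88.FB.P_rot_mp
import Pool.Agent.Helper88.FB.P_poly_north

set_option autoImplicit false

open MeasureTheory Set Filter Topology
open scoped ENNReal

namespace Pool.Agent.Helper88.SE



theorem poly_avg (k : ℕ) : ∃ c : ℕ → ℝ → ℝ, (∀ j, Continuous (c j)) ∧
    ∀ v : E 2, ‖v‖ = 1 → ∀ x : E 2, x ≠ 0 → ∀ s : ℝ, |s| ≤ 1 →
      ∫ u : S 2, (inner ℝ (u : E 2) v) ^ k *
        (if inner ℝ x (u : E 2) ≤ s * ‖x‖ then (1 : ℝ) else 0) ∂(sg 2) =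
      ∑ j ∈ Finset.range (k + 2), c j (inner ℝ x v / ‖x‖) * s ^ j := by
  obtain ⟨c, hc, hcw⟩ := poly_north k
  refine ⟨c, hc, ?_⟩
  intro v hv x hx s hs
  have hx0 : 0 < ‖x‖ := norm_pos_iff.2 hx
  obtain ⟨e, he⟩ : ∃ e : E 2, e = ‖x‖⁻¹ • x := ⟨_, rfl⟩
  have hen : ‖e‖ = 1 := by
    rw [he, norm_smul, norm_inv, norm_norm, inv_mul_cancel₀ hx0.ne']
  obtain ⟨g, hg⟩ : ∃ g : Iso 2, g e = EuclideanSpace.single 2 1 := by
    refine ⟨(ℝ ∙ (e - EuclideanSpace.single 2 1))ᗮ.reflection, ?_⟩
    apply Submodule.reflection_sub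
    rw [hen]
    simp
  have key : ∀ y : E 2, (g y) 2 = inner ℝ x y / ‖x‖ := by
    intro y
    have h1 : inner ℝ (g e) (g y) = inner ℝ e y := LinearIsometryEquiv.inner_map_map g e y
    rw [hg, EuclideanSpace.inner_single_left] at h1
    rw [he, inner_smul_left] at h1
    simp at h1
    rw [h1]
    field_simp
  let H : S 2 ≃ₜ S 2 :=
    { toFun := rot g
      invFun := rot g.symm
      left_inv := fun u => by
        apply Subtype.ext
        simp [rot]
      right_inv := fun u => by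
        apply Subtype.ext
        simp [rot]
      continuous_toFun := by
        unfold rot
        exact Continuous.subtype_mk (g.continuous.comp continuous_subtype_val) _
      continuous_invFun := by
        unfold rot
        exact Continuous.subtype_mk (g.symm.continuous.comp continuous_subtype_val) _ }
  have hemb : MeasurableEmbedding (rot g : S 2 → S 2) := H.measurableEmbedding
  have hint := (rot_mp 2 g).integral_comp hemb (fun u : S 2 => (inner ℝ (u : E 2) (g v)) ^ k *
        (if (u : E 2) 2 ≤ s then (1 : ℝ) else 0))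
  have hgv : ‖g v‖ = 1 := by rw [LinearIsometryEquiv.norm_map, hv]
  rw [hcw (g v) hgv s hs, key v] at hint
  rw [← hint]
  refine integral_congr_ae (Filter.Eventually.of_forall fun u => ?_)
  have h1 : inner ℝ ((rot g u : S 2) : E 2) (g v) = inner ℝ (u : E 2) v :=
    LinearIsometryEquiv.inner_map_map g _ _
  have h2 : ((rot g u : S 2) : E 2) 2 = inner ℝ x (u : E 2) / ‖x‖ := key _
  simp only [h1, h2]
  congr 1
  by_cases h : inner ℝ x (u : E 2) ≤ s * ‖x‖
  · rw [if_pos h, if_pos ((div_le_iff₀ hx0).2 h)]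
  · rw [if_neg h, if_neg (fun h' => h ((div_le_iff₀ hx0).1 h'))]

end Pool.Agent.Helper88.SE
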