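import Pool.Agent.Helper88.FB.Defs
import Pool.Agent.Helper88.FB.P_sg_prob
import Pool.Agent.Helper88.FB.P_G_t
import Pool.Agent.Helper88.FB.P_poly_avg
import Pool.Agent.Helper88.FB.P_ball_level

set_option autoImplicit false

open MeasureTheory Set Filter Topology
open scoped ENNReal

namespace Pool.Agent.Helper88.SE



theorem poly_G_aux (K : Set (E 2)) (hK : Body K) (R : ℝ) (hR : 0 < R)
    (hB : Metric.closedBall 0 R ⊆ K) (v : E 2) (hv : ‖v‖ = 1) (k : ℕ) :
    ∃ P : Polynomial ℝ, ∀ t : ℝ, |t| < R →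
      ∫ u : S 2, (inner ℝ (u : E 2) v) ^ k * GK K (u : E 2) t ∂(sg 2) =
      (∫ u : S 2, (inner ℝ (u : E 2) v) ^ k ∂(sg 2)) * GK (Metric.closedBall 0 R) v t +
        P.eval t := by
  classical
  haveI := sg_prob 2
  obtain ⟨hconv, hcomp, hint⟩ := hK
  set B : Set (E 2) := Metric.closedBall 0 R with hBdef
  have hKm : MeasurableSet K := hcomp.measurableSet
  have hBm : MeasurableSet B := measurableSet_closedBall
  set D : Set (E 2) := K \ B with hD
  have hDm : MeasurableSet D := hKm.diff hBm
  have hKf : volume K < ⊤ := hcomp.measure_lt_top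
  have hDf : volume D < ⊤ := lt_of_le_of_lt (measure_mono diff_subset) hKf
  haveI : IsFiniteMeasure ((volume : Measure (E 2)).restrict D) :=
    ⟨by rw [Measure.restrict_apply_univ]; exact hDf⟩
  have hDn : ∀ x ∈ D, R < ‖x‖ := by
    intro x hx
    have := hx.2
    rw [hBdef, mem_closedBall_zero_iff, not_le] at this
    exact this
  obtain ⟨c, hc, hpa⟩ := poly_avg k
  let h : ℕ → E 2 → ℝ := fun j x => c j (inner ℝ x v / ‖x‖) * (‖x‖⁻¹) ^ j
  have hhm : ∀ j, Measurable (h j) := by
    intro j
    have h1 : Measurable fun x : E 2 => inner ℝ x v / ‖x‖ :=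
      Measurable.div (by fun_prop) (by fun_prop)
    exact ((hc j).measurable.comp h1).mul ((measurable_norm.inv).pow_const j)
  have hhi : ∀ j, IntegrableOn (h j) D := by
    intro j
    obtain ⟨C, hC⟩ := (isCompact_Icc (a := (-1 : ℝ)) (b := 1)).exists_bound_of_continuousOn
      (hc j).continuousOn
    refine Measure.integrableOn_of_bounded hDf.ne (hhm j).aestronglyMeasurable
      (M := |C| * (R⁻¹) ^ j) ?_
    rw [ae_restrict_iff' hDm]
    refine Filter.Eventually.of_forall fun x hx => ?_
    have hxR := hDn x hx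
    have hx0 : 0 < ‖x‖ := hR.trans hxR
    have hle : |inner ℝ x v / ‖x‖| ≤ 1 := by
      rw [abs_div, abs_norm, div_le_one hx0]
      have := abs_real_inner_le_norm x v
      rw [hv, mul_one] at this
      exact this
    have h1 := hC _ (abs_le.mp hle)
    show ‖c j (inner ℝ x v / ‖x‖) * (‖x‖⁻¹) ^ j‖ ≤ _
    rw [norm_mul, norm_pow, norm_inv, norm_norm]
    have h2 : (‖x‖⁻¹) ^ j ≤ (R⁻¹) ^ j := by
      apply pow_le_pow_left₀ (by positivity)
      exact inv_anti₀ hR hxR.le
    exact mul_le_mul (h1.trans (le_abs_self C)) h2 (by positivity) (abs_nonneg _)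
  refine ⟨∑ j ∈ Finset.range (k + 2), Polynomial.C (∫ x in D, h j x) * Polynomial.X ^ j, ?_⟩
  intro t ht
  let q : S 2 → ℝ := fun u => (inner ℝ (u : E 2) v) ^ k
  have hqc : Continuous q := by
    show Continuous fun u : S 2 => (inner ℝ (u : E 2) v) ^ k
    fun_prop
  have hq1 : ∀ u, |q u| ≤ 1 := by
    intro u
    show |(inner ℝ (u : E 2) v) ^ k| ≤ 1
    rw [abs_pow]
    apply pow_le_one₀ (abs_nonneg _)
    have := abs_real_inner_le_norm (u : E 2) v
    rw [hv, mul_one] at this
    have hu : ‖(u : E 2)‖ = 1 := by simpa using u.2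
    linarith
  have hqi : Integrable q (sg 2) :=
    Integrable.of_bound hqc.aestronglyMeasurable 1 (Filter.Eventually.of_forall fun u => by
      rw [Real.norm_eq_abs]; exact hq1 u)
  -- the two variable function
  let f : S 2 → E 2 → ℝ := fun u x => q u * (if inner ℝ x (u : E 2) ≤ t then (1 : ℝ) else 0)
  have hfm : Measurable (Function.uncurry f) := by
    have hs : MeasurableSet {p : S 2 × E 2 | inner ℝ p.2 (p.1 : E 2) ≤ t} := by
      refine measurableSet_le ?_ measurable_const
      exact Continuous.measurable (by fun_prop)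
    have h1 : Measurable fun p : S 2 × E 2 => (if inner ℝ p.2 (p.1 : E 2) ≤ t then (1 : ℝ) else 0) :=
      Measurable.ite hs measurable_const measurable_const
    exact (hqc.measurable.comp measurable_fst).mul h1
  have hfi : Integrable (Function.uncurry f) ((sg 2).prod ((volume : Measure (E 2)).restrict D)) := by
    refine Integrable.of_bound hfm.aestronglyMeasurable 1 (Filter.Eventually.of_forall fun p => ?_)
    show ‖q p.1 * (if inner ℝ p.2 (p.1 : E 2) ≤ t then (1 : ℝ) else 0)‖ ≤ 1
    rw [Real.norm_eq_abs, abs_mul]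
    have h1 := hq1 p.1
    split_ifs
    · simpa using h1
    · simp
  -- decomposition of GK
  have hG : ∀ u : S 2, GK K (u : E 2) t = GK B v t +
      ∫ x in D, (if inner ℝ x (u : E 2) ≤ t then (1 : ℝ) else 0) := by
    intro u
    have hu : ‖(u : E 2)‖ = 1 := by simpa using u.2
    rw [← ball_level R t hR (u : E 2) v hu hv]
    set H : Set (E 2) := {x | inner ℝ x (u : E 2) ≤ t} with hH
    have hHm : MeasurableSet H := by
      refine measurableSet_le ?_ measurable_const
      exact Continuous.measurable (by fun_prop)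
    have h1 : ∫ x in D, (if inner ℝ x (u : E 2) ≤ t then (1 : ℝ) else 0) =
        (volume (D ∩ H)).toReal := by
      have h2 : (fun x : E 2 => (if inner ℝ x (u : E 2) ≤ t then (1 : ℝ) else 0)) =
          H.indicator 1 := by
        funext x
        simp only [Set.indicator_apply, hH, Set.mem_setOf_eq, Pi.one_apply]
      rw [h2, integral_indicator_one hHm, measureReal_def, Measure.restrict_apply hHm,
        inter_comm]
    rw [h1]
    unfold GK cut
    have h3 : K ∩ H = (B ∩ H) ∪ (D ∩ H) := by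
      rw [← union_inter_distrib_right, hD, union_diff_cancel hB]
    rw [← hH, h3, measure_union _ (hDm.inter hHm), ENNReal.toReal_add]
    · exact (lt_of_le_of_lt (measure_mono (inter_subset_left.trans hB)) hKf).ne
    · exact (lt_of_le_of_lt (measure_mono inter_subset_left) hDf).ne
    · exact (disjoint_sdiff_self_right).mono inter_subset_left inter_subset_left
  have hstep : ∀ u : S 2, (inner ℝ (u : E 2) v) ^ k * GK K (u : E 2) t =
      q u * GK B v t + ∫ x in D, f u x := by
    intro u
    rw [hG u, mul_add]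
    congr 1
    show q u * _ = ∫ x in D, q u * _
    rw [integral_const_mul]
  simp_rw [hstep]
  have hpl : Integrable (fun u : S 2 => ∫ x in D, f u x) (sg 2) := hfi.integral_prod_left
  rw [integral_add (hqi.mul_const _) hpl, integral_mul_const,
    integral_integral_swap hfi]
  congr 1
  have hinner : ∀ x ∈ D, ∫ u : S 2, f u x ∂(sg 2) = ∑ j ∈ Finset.range (k + 2), h j x * t ^ j := by
    intro x hx
    have hxR := hDn x hx
    have hx0 : 0 < ‖x‖ := hR.trans hxR
    have h1 := hpa v hv x (norm_pos_iff.mp hx0) (t / ‖x‖) (by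
      rw [abs_div, abs_norm, div_le_one hx0]
      linarith)
    rw [div_mul_cancel₀ _ hx0.ne'] at h1
    show ∫ u : S 2, (inner ℝ (u : E 2) v) ^ k *
      (if inner ℝ x (u : E 2) ≤ t then (1 : ℝ) else 0) ∂(sg 2) = _
    rw [h1]
    refine Finset.sum_congr rfl fun j _ => ?_
    show _ = c j (inner ℝ x v / ‖x‖) * (‖x‖⁻¹) ^ j * t ^ j
    rw [div_eq_mul_inv t, mul_pow]
    ring
  rw [setIntegral_congr_fun hDm hinner, integral_finset_sum]
  · rw [Polynomial.eval_finset_sum]
    refine Finset.sum_congr rfl fun j _ => ?_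
    rw [integral_mul_const]
    simp
  · intro j _
    exact (hhi j).mul_const _

theorem poly_G (K : Set (E 2)) (hK : Body K) (R : ℝ) (hR : 0 < R)
    (hB : Metric.closedBall 0 R ⊆ K) (v : E 2) (hv : ‖v‖ = 1) (k : ℕ) :
    ∃ P : Polynomial ℝ, ∀ t : ℝ, |t| < R →
      ∫ u : S 2, (inner ℝ (u : E 2) v) ^ k * GK K (u : E 2) t ∂(sg 2) -
        (∫ u : S 2, (inner ℝ (u : E 2) v) ^ k ∂(sg 2)) * ∫ u : S 2, GK K (u : E 2) t ∂(sg 2) =
      P.eval t := by
  haveI := sg_prob 2
  obtain ⟨P, hP⟩ := poly_G_aux K hK R hR hB v hv k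
  obtain ⟨P0, hP0⟩ := poly_G_aux K hK R hR hB v hv 0
  refine ⟨P - Polynomial.C (∫ u : S 2, (inner ℝ (u : E 2) v) ^ k ∂(sg 2)) * P0, ?_⟩
  intro t ht
  have h0 := hP0 t ht
  simp only [pow_zero, one_mul, integral_const, probReal_univ, smul_eq_mul, mul_one] at h0
  rw [hP t ht, h0, Polynomial.eval_sub, Polynomial.eval_mul, Polynomial.eval_C]
  ring

end Pool.Agent.Helper88.SE
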