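import Pool.Agent.Helper88.FB.Defs
import Pool.Agent.Helper88.FB.P_sg_prob
import Pool.Agent.Helper88.FB.P_G_u
import Pool.Agent.Helper88.FB.P_poly_G
import Pool.Agent.Helper88.FB.P_dense_test

set_option autoImplicit false

open MeasureTheory Set Filter Topology
open scoped ENNReal

namespace Pool.Agent.Helper88.SE



theorem all_levels (K : Set (E 2)) (hK : Body K) (R : ℝ) (hR : 0 < R)
    (hB : Metric.closedBall 0 R ⊆ K)
    (hT : {τ : ℝ | |τ| < R ∧ ∃ c : ℝ, ∀ u, ‖u‖ = 1 → GK K u τ = c}.Infinite) :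
    ∀ t : ℝ, |t| < R → ∀ u w : E 2, ‖u‖ = 1 → ‖w‖ = 1 → GK K u t = GK K w t := by
  intro t ht u w hu hw
  haveI := sg_prob 2
  have key : ∀ v : E 2, ‖v‖ = 1 → ∀ k : ℕ,
      ∫ u : S 2, (inner ℝ (u : E 2) v) ^ k * GK K (u : E 2) t ∂(sg 2) =
      (∫ u : S 2, (inner ℝ (u : E 2) v) ^ k ∂(sg 2)) * ∫ u : S 2, GK K (u : E 2) t ∂(sg 2) := by
    intro v hv k
    obtain ⟨P, hP⟩ := poly_G K hK R hR hB v hv k
    have hP0 : P = 0 := by
      apply Polynomial.eq_zero_of_infinite_isRoot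
      refine hT.mono ?_
      rintro τ ⟨hτ, c, hc⟩
      have h1 := hP τ hτ
      have hc' : ∀ u : S 2, GK K (u : E 2) τ = c := fun u => hc u (by simpa using u.2)
      simp_rw [hc'] at h1
      rw [integral_mul_const, integral_const] at h1
      have h2 : P.eval τ = 0 := by
        rw [← h1]
        simp
      exact h2
    have h1 := hP t ht
    rw [hP0, Polynomial.eval_zero] at h1
    linarith
  exact dense_test (fun u : S 2 => GK K (u : E 2) t) (G_u K hK t) key
    ⟨u, by simpa using hu⟩ ⟨w, by simpa using hw⟩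

end Pool.Agent.Helper88.SE
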