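import Pool.Agent.Helper88.FB.Defs

set_option autoImplicit false

open MeasureTheory Set Filter Topology
open scoped ENNReal

namespace Pool.Agent.Helper88.SE


theorem area_mp (u e f : E 2) (hu : ‖u‖ = 1) (he : ‖e‖ = 1) (hf : ‖f‖ = 1) (hue : inner ℝ u e = 0)
    (huf : inner ℝ u f = 0) (hef : inner ℝ e f = 0) :
    MeasurePreserving (fun p : ℝ × (ℝ × ℝ) => p.1 • u + p.2.1 • e + p.2.2 • f) := by
  have hcard : Module.finrank ℝ (E 2) = Fintype.card (Fin 3) := by simp
  have hon : Orthonormal ℝ ![u, e, f] := by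
    rw [orthonormal_iff_ite]
    intro i j
    fin_cases i <;> fin_cases j <;>
      simp [hu, he, hf, hue, huf, hef, real_inner_self_eq_norm_sq, real_inner_comm u e, real_inner_comm u f, real_inner_comm e f]
  let b : OrthonormalBasis (Fin 3) ℝ (E 2) :=
    OrthonormalBasis.mk hon (by
      have h1 := hon.linearIndependent.span_eq_top_of_card_eq_finrank' (by simp)
      rw [h1])
  have hb : ∀ i, b i = ![u, e, f] i := fun i => by simp [b]
  have h1 : MeasurePreserving (fun p : ℝ × (ℝ × ℝ) => (p.1, (MeasurableEquiv.finTwoArrow (α := ℝ)).symm p.2)) :=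
    (MeasurePreserving.id volume).prod (volume_preserving_finTwoArrow ℝ).symm
  have h2 := (volume_preserving_piFinSuccAbove (fun _ : Fin 3 => ℝ) 0).symm
  have h3 := PiLp.volume_preserving_toLp (Fin 3)
  have h4 := b.measurePreserving_repr_symm
  have h5 := h4.comp (h3.comp (h2.comp h1))
  have hfun : (fun p : ℝ × (ℝ × ℝ) => p.1 • u + p.2.1 • e + p.2.2 • f) = (⇑b.repr.symm ∘
      WithLp.toLp 2 ∘
        ⇑(MeasurableEquiv.piFinSuccAbove (fun _ : Fin 3 => ℝ) 0).symm ∘ fun p : ℝ × (ℝ × ℝ) => (p.1, MeasurableEquiv.finTwoArrow.symm p.2)) := by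
    funext p
    obtain ⟨s, y, z⟩ := p
    simp only [Function.comp_apply]
    rw [← b.sum_repr (b.repr.symm _)]
    simp [Fin.sum_univ_three, hb, MeasurableEquiv.piFinSuccAbove, MeasurableEquiv.finTwoArrow]
  rw [hfun]
  exact h5

theorem area_half (g : ℝ) (hg : 0 < g) (f : ℝ → ℝ≥0∞)
    (hf : ∀ r, 0 < r → f r = if r ≤ g then 1 else 0) :
    ∫⁻ r in Ioi (0:ℝ), ENNReal.ofReal r * f r = ENNReal.ofReal (g ^ 2 / 2) := by
  have h1 : ∫⁻ r in Ioi (0:ℝ), ENNReal.ofReal r * f r = ∫⁻ r in Ioi (0:ℝ), (Iic g).indicator (fun r => ENNReal.ofReal r) r := by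
    refine setLIntegral_congr_fun measurableSet_Ioi (fun r hr => ?_)
    simp only [hf r hr, indicator, mem_Iic]
    split_ifs <;> simp
  rw [h1, setLIntegral_indicator measurableSet_Iic, Set.inter_comm, Ioi_inter_Iic,
    ← ofReal_integral_eq_lintegral_ofReal]
  · rw [← intervalIntegral.integral_of_le hg.le, integral_id]
    congr 1; ring
  · exact (continuous_id.integrableOn_Icc (a := 0) (b := g)).mono_set Ioc_subset_Icc_self
  · exact (ae_restrict_mem measurableSet_Ioc).mono (fun r hr => hr.1.le)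

theorem area_polar (A : Set (ℝ × ℝ)) (hA : MeasurableSet A) (g : ℝ → ℝ) (hg : Continuous g)
    (hpos : ∀ a, 0 < g a) (hper : Function.Periodic g (2 * Real.pi))
    (hmem : ∀ r a, 0 < r → ((r * Real.cos a, r * Real.sin a) ∈ A ↔ r ≤ g a)) :
    volume A = ENNReal.ofReal (∫ a in (0:ℝ)..(2 * Real.pi), g a ^ 2 / 2) := by
  have h0 : volume A = ∫⁻ p, A.indicator 1 p := by
    rw [lintegral_indicator_one hA]
  rw [h0, ← lintegral_comp_polarCoord_symm, polarCoord_target, Measure.volume_eq_prod, ← Measure.prod_restrict]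
  have hmeas : Measurable (fun p : ℝ × ℝ => ENNReal.ofReal p.1 • A.indicator (1 : ℝ × ℝ → ℝ≥0∞) (polarCoord.symm p)) := by
    have hc : Measurable (fun p : ℝ × ℝ => polarCoord.symm p) := by
      have : (fun p : ℝ × ℝ => polarCoord.symm p) = fun p => (p.1 * Real.cos p.2, p.1 * Real.sin p.2) := by
        funext p; rfl
      rw [this]
      fun_prop
    exact (measurable_fst.ennreal_ofReal).mul ((measurable_one.indicator hA).comp hc)
  rw [lintegral_prod_symm' _ hmeas]
  have h2 : ∀ a : ℝ, ∫⁻ r in Ioi (0:ℝ), ENNReal.ofReal r • A.indicator (1 : ℝ × ℝ → ℝ≥0∞) (polarCoord.symm (r, a)) =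
      ENNReal.ofReal (g a ^ 2 / 2) := by
    intro a
    refine area_half (g a) (hpos a) _ (fun r hr => ?_)
    have : polarCoord.symm (r, a) = (r * Real.cos a, r * Real.sin a) := rfl
    rw [this]
    by_cases h : r ≤ g a
    · rw [if_pos h, indicator_of_mem ((hmem r a hr).2 h)]
      rfl
    · rw [if_neg h, indicator_of_notMem (fun h' => h ((hmem r a hr).1 h'))]
  simp_rw [h2]
  have hgc : Continuous (fun a => g a ^ 2 / 2) := by fun_prop
  rw [← ofReal_integral_eq_lintegral_ofReal]
  · congr 1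
    rw [← integral_Ioc_eq_integral_Ioo, ← intervalIntegral.integral_of_le (by linarith [Real.pi_pos])]
    have hp2 : Function.Periodic (fun a => g a ^ 2 / 2) (2 * Real.pi) := fun x => by simp only [hper x]
    have := hp2.intervalIntegral_add_eq (-Real.pi) 0
    have e1 : -Real.pi + 2 * Real.pi = Real.pi := by ring
    rw [e1, zero_add] at this
    exact this
  · exact (hgc.integrableOn_Icc (a := -Real.pi) (b := Real.pi)).mono_set Ioo_subset_Icc_self
  · exact Filter.Eventually.of_forall (fun a => by positivity)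

theorem area (K : Set (E 2)) (hK : Body K) (R : ℝ) (hR : 0 < R)
    (hB : Metric.closedBall 0 R ⊆ K) (ρ : E 2 × E 2 → ℝ)
    (hρ : ∀ p e : E 2, p ∈ interior K → e ≠ 0 →
        0 < ρ (p, e) ∧ ∀ r : ℝ, 0 ≤ r → (p + r • e ∈ K ↔ r ≤ ρ (p, e)))
    (hρc : ContinuousOn ρ {q | q.1 ∈ interior K ∧ q.2 ≠ 0})
    (u e f : E 2) (hu : ‖u‖ = 1) (he : ‖e‖ = 1) (hf : ‖f‖ = 1) (hue : inner ℝ u e = 0)
    (huf : inner ℝ u f = 0) (hef : inner ℝ e f = 0) (t t' : ℝ) (ht : -R < t) (htt : t ≤ t')
    (ht' : t' < R) :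
    GK K u t' - GK K u t = ∫ s in t..t', ∫ a in (0 : ℝ)..(2 * Real.pi),
      ρ (s • u, Real.cos a • e + Real.sin a • f) ^ 2 / 2 := by
  have hcl : MeasurableSet K := hK.2.1.isClosed.measurableSet
  set Φ : ℝ × (ℝ × ℝ) → E 2 := fun p => p.1 • u + p.2.1 • e + p.2.2 • f with hΦ
  have hmp : MeasurePreserving Φ := area_mp u e f hu he hf hue huf hef
  have hΦc : Continuous Φ := by rw [hΦ]; fun_prop
  -- slices
  have hslice : ∀ s : ℝ, -R < s → s < R → volume {q : ℝ × ℝ | Φ (s, q) ∈ K} =
      ENNReal.ofReal (∫ a in (0:ℝ)..(2 * Real.pi), ρ (s • u, Real.cos a • e + Real.sin a • f) ^ 2 / 2) := by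
    intro s hs1 hs2
    have hint : s • u ∈ interior K := by
      have hb : Metric.ball (0 : E 2) R ⊆ interior K :=
        interior_maximal (Metric.ball_subset_closedBall.trans hB) Metric.isOpen_ball
      apply hb
      rw [mem_ball_zero_iff, norm_smul, hu, mul_one, Real.norm_eq_abs, abs_lt]
      exact ⟨hs1, hs2⟩
    have hne : ∀ a : ℝ, Real.cos a • e + Real.sin a • f ≠ 0 := by
      intro a h0
      have h1 : inner ℝ (Real.cos a • e + Real.sin a • f) (Real.cos a • e + Real.sin a • f) = (1:ℝ) := by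
        rw [inner_add_left, inner_add_right, inner_add_right]
        simp only [inner_smul_left, inner_smul_right, real_inner_self_eq_norm_sq, he, hf, hef, real_inner_comm e f]
        simp
        nlinarith [Real.sin_sq_add_cos_sq a]
      rw [h0, inner_zero_left] at h1
      exact zero_ne_one h1
    refine area_polar _ ?_ (fun a => ρ (s • u, Real.cos a • e + Real.sin a • f)) ?_ ?_ ?_ ?_
    · exact hcl.preimage ((hΦc.comp (by fun_prop : Continuous (fun q : ℝ × ℝ => (s, q)))).measurable)
    · refine hρc.comp_continuous (by fun_prop) (fun a => ⟨hint, hne a⟩)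
    · intro a
      exact (hρ _ _ hint (hne a)).1
    · intro a
      simp only [Real.cos_add_two_pi, Real.sin_add_two_pi]
    · intro r a hr
      rw [← (hρ _ _ hint (hne a)).2 r hr.le]
      have : Φ (s, (r * Real.cos a, r * Real.sin a)) = s • u + r • (Real.cos a • e + Real.sin a • f) := by
        simp only [hΦ, smul_add, smul_smul, add_assoc]
      rw [mem_ofPred_eq, this]
  -- the difference
  have hcut : ∀ s, MeasurableSet (cut K u s) := fun s =>
    hcl.inter (measurableSet_le (by fun_prop) measurable_const)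
  have hfin : ∀ s, volume (cut K u s) ≠ ∞ := fun s =>
    (measure_mono inter_subset_left).trans_lt hK.2.1.measure_lt_top |>.ne
  have hsub : cut K u t ⊆ cut K u t' := fun x hx => ⟨hx.1, le_trans hx.2 htt⟩
  have hdiff : GK K u t' - GK K u t = (volume (cut K u t' \ cut K u t)).toReal := by
    rw [measure_sdiff hsub (hcut t).nullMeasurableSet (hfin t), ENNReal.toReal_sub_of_le (measure_mono hsub) (hfin t')]
    rfl
  have hinner : ∀ p : ℝ × (ℝ × ℝ), inner ℝ (Φ p) u = p.1 := by
    intro p
    simp only [hΦ, inner_add_left, inner_smul_left, real_inner_self_eq_norm_sq, hu, real_inner_comm u e, real_inner_comm u f, hue, huf]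
    simp
  have hvol : volume (cut K u t' \ cut K u t) = ∫⁻ s in Ioc t t', volume {q : ℝ × ℝ | Φ (s, q) ∈ K} := by
    rw [← hmp.measure_preimage ((hcut t').diff (hcut t)).nullMeasurableSet, Measure.volume_eq_prod,
      Measure.prod_apply (hmp.measurable ((hcut t').diff (hcut t))), ← lintegral_indicator measurableSet_Ioc]
    refine lintegral_congr (fun s => ?_)
    by_cases hs : s ∈ Ioc t t'
    · rw [indicator_of_mem hs]
      congr 1
      ext q
      simp only [mem_preimage, Set.mem_sdiff, cut, mem_inter_iff, mem_ofPred_eq, hinner]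
      constructor
      · intro h; exact h.1.1
      · intro h; exact ⟨⟨h, hs.2⟩, fun h' => absurd h'.2 (not_le.2 hs.1)⟩
    · rw [indicator_of_notMem hs]
      have : Prod.mk s ⁻¹' (Φ ⁻¹' (cut K u t' \ cut K u t)) = ∅ := by
        ext q
        simp only [mem_preimage, Set.mem_sdiff, cut, mem_inter_iff, mem_ofPred_eq, hinner, mem_empty_iff_false, iff_false]
        intro h
        apply hs
        refine ⟨?_, h.1.2⟩
        by_contra hc
        exact h.2 ⟨h.1.1, not_lt.1 hc⟩
      rw [this, measure_empty]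
  rw [hdiff, hvol, ← integral_toReal, intervalIntegral.integral_of_le htt]
  · refine setIntegral_congr_fun measurableSet_Ioc (fun s hs => ?_)
    rw [hslice s (lt_trans ht hs.1) (lt_of_le_of_lt hs.2 ht'), ENNReal.toReal_ofReal]
    exact intervalIntegral.integral_nonneg (by positivity) (fun a _ => by positivity)
  · have hm : MeasurableSet (Φ ⁻¹' K) := hmp.measurable hcl
    exact (measurable_measure_prodMk_left hm).aemeasurable
  · refine (ae_restrict_mem measurableSet_Ioc).mono (fun s hs => ?_)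
    rw [hslice s (lt_trans ht hs.1) (lt_of_le_of_lt hs.2 ht')]
    exact ENNReal.ofReal_lt_top

end Pool.Agent.Helper88.SE
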