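import Pool.Agent.Helper88.FB.Defs

set_option autoImplicit false

open MeasureTheory Set Filter Topology
open scoped ENNReal

namespace Pool.Agent.Helper88.SE



theorem inrad (K : Set (E 2)) (hK : Body K) (h0 : ∫ x in K, x = 0) :
    ∃ (R : ℝ) (v : E 2), 0 < R ∧ ‖v‖ = 1 ∧ Metric.closedBall 0 R ⊆ K ∧
      ∀ x ∈ K, inner ℝ x v ≤ R := by
  obtain ⟨hconv, hcomp, hne⟩ := hK
  have hclosed : IsClosed K := hcomp.isClosed
  have hintconv : Convex ℝ (interior K) := hconv.interior
  have hcl : K ⊆ closure (interior K) := by
    rw [hconv.closure_interior_eq_closure_of_nonempty_interior hne]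
    exact subset_closure
  -- a strict bound on the interior gives a bound on `K`
  have hext : ∀ (f : E 2 →L[ℝ] ℝ) (c : ℝ), (∀ a ∈ interior K, f a < c) → ∀ x ∈ K, f x ≤ c := by
    intro f c hf x hx
    have h1 : closure (interior K) ⊆ {y | f y ≤ c} := by
      apply closure_minimal
      · intro y hy
        exact (hf y hy).le
      · exact isClosed_le f.continuous continuous_const
    exact h1 (hcl hx)
  have hintid : IntegrableOn (fun x : E 2 => x) K volume :=
    (continuous_id.continuousOn).integrableOn_compact hcomp
  -- the centroid is an interior point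
  have h0int : (0 : E 2) ∈ interior K := by
    by_contra hnot
    obtain ⟨f, hf⟩ := geometric_hahn_banach_open_point hintconv isOpen_interior hnot
    have hf0 : ∀ a ∈ interior K, f a < 0 := by
      intro a ha
      have := hf a ha
      simpa using this
    have hfK := hext f 0 hf0
    have hint : ∫ x in K, f x = 0 := by
      have h2 := f.integral_comp_comm hintid
      rw [h2, h0]
      simp
    have hpos : 0 < ∫ x in K, (-(f x)) := by
      rw [setIntegral_pos_iff_support_of_nonneg_ae]
      · refine lt_of_lt_of_le (isOpen_interior.measure_pos volume hne) (measure_mono ?_)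
        intro y hy
        refine ⟨?_, interior_subset hy⟩
        simp only [Function.mem_support]
        have h5 := hf0 y hy
        intro h6
        linarith
      · filter_upwards [ae_restrict_mem hclosed.measurableSet] with y hy
        have := hfK y hy
        simp only [Pi.zero_apply]
        linarith
      · exact (f.continuous.neg.continuousOn).integrableOn_compact hcomp
    rw [integral_neg, hint] at hpos
    simp at hpos
  -- nearest point outside the interior
  have hCne : ((interior K)ᶜ : Set (E 2)).Nonempty := by
    by_contra hemp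
    rw [Set.not_nonempty_iff_eq_empty, Set.compl_empty_iff] at hemp
    have huniv : K = Set.univ := by
      apply Set.eq_univ_of_univ_subset
      rw [← hemp]
      exact interior_subset
    have hc : IsCompact (Set.univ : Set (E 2)) := huniv ▸ hcomp
    exact noncompact_univ (E 2) hc
  obtain ⟨z, hzC, hz⟩ := (isOpen_interior (s := K)).isClosed_compl.exists_infDist_eq_dist hCne (0 : E 2)
  have hz0 : z ≠ 0 := by
    rintro rfl
    exact hzC h0int
  have hR : 0 < ‖z‖ := norm_pos_iff.mpr hz0
  have hdist : dist (0 : E 2) z = ‖z‖ := by simp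
  have hball : Metric.ball (0 : E 2) ‖z‖ ⊆ interior K := by
    intro x hx
    by_contra hxn
    have h1 : Metric.infDist (0 : E 2) (interior K)ᶜ ≤ dist 0 x :=
      Metric.infDist_le_dist_of_mem hxn
    rw [hz, hdist] at h1
    rw [Metric.mem_ball, dist_comm] at hx
    linarith
  have hcball : Metric.closedBall (0 : E 2) ‖z‖ ⊆ K := by
    rw [← closure_ball (0 : E 2) hR.ne']
    calc closure (Metric.ball (0 : E 2) ‖z‖) ⊆ closure (interior K) := closure_mono hball
      _ ⊆ closure K := closure_mono interior_subset
      _ = K := hclosed.closure_eq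
  obtain ⟨f, hf⟩ := geometric_hahn_banach_open_point hintconv isOpen_interior hzC
  have hfK := hext f (f z) hf
  set a : E 2 := (InnerProductSpace.toDual ℝ (E 2)).symm f with ha
  have hfa : ∀ x, f x = inner ℝ a x := by
    intro x
    rw [ha, InnerProductSpace.toDual_symm_apply]
  have hfz : 0 < f z := by
    have := hf 0 h0int
    simpa using this
  have ha0 : a ≠ 0 := by
    intro h
    rw [hfa z, h] at hfz
    simp at hfz
  have hna : 0 < ‖a‖ := norm_pos_iff.mpr ha0
  refine ⟨‖z‖, ‖a‖⁻¹ • a, hR, ?_, hcball, ?_⟩
  · rw [norm_smul, norm_inv, norm_norm, inv_mul_cancel₀ hna.ne']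
  · intro x hx
    rw [inner_smul_right, real_inner_comm, ← hfa x]
    have h1 := hfK x hx
    have h2 : f z ≤ ‖a‖ * ‖z‖ := by
      rw [hfa z]
      exact real_inner_le_norm a z
    rw [inv_mul_le_iff₀ hna]
    linarith

end Pool.Agent.Helper88.SE
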