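import Pool.Agent.Helper88.FB.Defs
import Pool.Agent.Helper88.FB.P_G_t

set_option autoImplicit false

open MeasureTheory Set Filter Topology
open scoped ENNReal

namespace Pool.Agent.Helper88.SE



theorem is_ball (K : Set (E 2)) (hK : Body K) (R : ℝ) (v : E 2) (hR : 0 < R) (hv : ‖v‖ = 1)
    (hB : Metric.closedBall 0 R ⊆ K) (hKv : ∀ x ∈ K, inner ℝ x v ≤ R)
    (h : ∀ t : ℝ, |t| < R → ∀ u w : E 2, ‖u‖ = 1 → ‖w‖ = 1 → GK K u t = GK K w t) :
    K = Metric.closedBall 0 R := by
  refine Subset.antisymm (fun x hx => ?_) hB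
  rw [mem_closedBall_zero_iff]
  by_contra hlt
  push Not at hlt
  have hx0 : 0 < ‖x‖ := hR.trans hlt
  obtain ⟨u, hu⟩ : ∃ u : E 2, u = ‖x‖⁻¹ • x := ⟨_, rfl⟩
  have hu1 : ‖u‖ = 1 := by
    rw [hu, norm_smul, norm_inv, norm_norm, inv_mul_cancel₀ hx0.ne']
  have hxu : R < inner ℝ x u := by
    rw [hu, inner_smul_right, real_inner_self_eq_norm_sq, pow_two, ← mul_assoc,
      inv_mul_cancel₀ hx0.ne', one_mul]
    exact hlt
  obtain ⟨-, hcu, -, -, -⟩ := G_t K hK u hu1
  obtain ⟨-, hcv, -, -, -⟩ := G_t K hK v hv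
  have heq : Set.EqOn (GK K u) (GK K v) (Ioo (-R) R) := fun t ht =>
    h t (abs_lt.mpr ht) u v hu1 hv
  have heq2 := heq.closure hcu hcv
  rw [closure_Ioo (by linarith : (-R) ≠ R)] at heq2
  have hGR : GK K u R = GK K v R := heq2 ⟨by linarith, le_refl R⟩
  have hcutv : cut K v R = K := by
    unfold cut
    exact Set.inter_eq_left.mpr (fun y hy => hKv y hy)
  unfold GK at hGR
  rw [hcutv] at hGR
  have hfin : volume K ≠ ∞ := hK.2.1.measure_ne_top
  have hsub : cut K u R ⊆ K := Set.inter_subset_left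
  have hfin2 : volume (cut K u R) ≠ ∞ := ne_top_of_le_ne_top hfin (measure_mono hsub)
  have hvol : volume (cut K u R) = volume K := (ENNReal.toReal_eq_toReal_iff' hfin2 hfin).mp hGR
  have hmeas : MeasurableSet (cut K u R) := by
    unfold cut
    apply hK.2.1.measurableSet.inter
    exact measurableSet_le (by fun_prop) measurable_const
  have hdiff : volume (K \ cut K u R) = 0 := by
    rw [measure_sdiff hsub hmeas.nullMeasurableSet hfin2, hvol, tsub_self]
  have hO : IsOpen {y : E 2 | R < inner ℝ y u} := isOpen_lt continuous_const (by fun_prop)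
  have hcl : x ∈ closure (interior K) := by
    rw [hK.1.closure_interior_eq_closure_of_nonempty_interior hK.2.2]
    exact subset_closure hx
  have hne : (({y : E 2 | R < inner ℝ y u}) ∩ interior K).Nonempty :=
    mem_closure_iff.mp hcl _ hO hxu
  have hpos : 0 < volume (({y : E 2 | R < inner ℝ y u}) ∩ interior K) :=
    (hO.inter isOpen_interior).measure_pos volume hne
  have hss : ({y : E 2 | R < inner ℝ y u}) ∩ interior K ⊆ K \ cut K u R := by
    rintro y ⟨hy1, hy2⟩
    refine ⟨interior_subset hy2, fun hy3 => ?_⟩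
    have h1 : inner ℝ y u ≤ R := hy3.2
    exact absurd hy1 (not_lt.mpr h1)
  have := measure_mono (μ := volume) hss
  rw [hdiff] at this
  exact absurd hpos (not_lt.mpr this)

end Pool.Agent.Helper88.SE
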