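import Pool.Agent.Helper88.FB.Defs

set_option autoImplicit false

open MeasureTheory Set Filter Topology
open scoped ENNReal

namespace Pool.Agent.Helper88.SE



theorem level_range_null (R : ℝ) (v : E 2) (hv : ‖v‖ = 1) :
    volume {x : E 2 | inner ℝ x v = R} = 0 := by
  have hvv : inner ℝ v v = (1 : ℝ) := by rw [real_inner_self_eq_norm_sq, hv]; norm_num
  have hmem : ∀ x : E 2, x ∈ AffineSubspace.mk' (R • v) (LinearMap.ker (innerSL ℝ v).toLinearMap) ↔
      inner ℝ x v = R := by
    intro x
    rw [AffineSubspace.mem_mk', LinearMap.mem_ker]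
    show inner ℝ v (x - R • v) = 0 ↔ _
    rw [inner_sub_right, real_inner_smul_right, hvv, mul_one, real_inner_comm, sub_eq_zero]
  have hset : {x : E 2 | inner ℝ x v = R} =
      (AffineSubspace.mk' (R • v) (LinearMap.ker (innerSL ℝ v).toLinearMap) :
        Set (E 2)) := by
    ext x
    exact (hmem x).symm
  rw [hset]
  refine Measure.addHaar_affineSubspace volume _ ?_
  intro htop
  have h1 : ((R + 1) • v : E 2) ∈
      AffineSubspace.mk' (R • v) (LinearMap.ker (innerSL ℝ v).toLinearMap) := by
    rw [htop]
    exact AffineSubspace.mem_top ℝ _ _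
  rw [hmem, real_inner_smul_left, hvv] at h1
  linarith

theorem level_range (K : Set (E 2)) (hK : Body K) (R : ℝ) (v : E 2) (hR : 0 < R) (hv : ‖v‖ = 1)
    (hKv : ∀ x ∈ K, inner ℝ x v ≤ R) (τ d : ℝ) (hd : 0 < d) (hd1 : d < 1)
    (h : ∀ u, ‖u‖ = 1 → GK K u τ = d * (volume K).toReal) : |τ| < R := by
  have hpos : 0 < volume K :=
    (isOpen_interior.measure_pos volume hK.2.2).trans_le (measure_mono interior_subset)
  have hV : 0 < (volume K).toReal := ENNReal.toReal_pos hpos.ne' hK.2.1.measure_lt_top.ne
  rw [abs_lt]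
  constructor
  · by_contra hcon
    push Not at hcon
    have h1 := h (-v) (by rw [norm_neg, hv])
    have hsub : cut K (-v) τ ⊆ {x : E 2 | inner ℝ x v = R} := by
      rintro x ⟨hx, hx2⟩
      have hx3 : inner ℝ x (-v) ≤ τ := hx2
      rw [inner_neg_right] at hx3
      exact le_antisymm (hKv x hx) (by linarith)
    have h0 : volume (cut K (-v) τ) = 0 := measure_mono_null hsub (level_range_null R v hv)
    unfold GK at h1
    rw [h0, ENNReal.toReal_zero] at h1
    have := mul_pos hd hV
    linarith
  · by_contra hcon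
    push Not at hcon
    have h1 := h v hv
    have hset : cut K v τ = K := by
      refine Set.Subset.antisymm Set.inter_subset_left fun x hx => ⟨hx, ?_⟩
      exact (hKv x hx).trans hcon
    unfold GK at h1
    rw [hset] at h1
    nlinarith

end Pool.Agent.Helper88.SE
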