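import Pool.Agent.Helper88.FB.Defs
import Pool.Agent.Helper88.FB.P_G_t

set_option autoImplicit false

open MeasureTheory Set Filter Topology
open scoped ENNReal

namespace Pool.Agent.Helper88.SE



theorem floats_closed_cut (K : Set (E 2)) (hK : Body K) (u : E 2) (t : ℝ) :
    IsClosed (cut K u t) := by
  apply hK.2.1.isClosed.inter
  exact isClosed_le (by fun_prop) continuous_const

theorem floats_closed_M (K : Set (E 2)) (hK : Body K) (u : E 2) (R : ℝ)
    (hR : ∀ x ∈ K, ‖x‖ ≤ R) (s t : ℝ) (hst : s ≤ t) :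
    ‖(∫ x in cut K u t, x) - ∫ x in cut K u s, x‖ ≤ R * (GK K u t - GK K u s) := by
  have hms : MeasurableSet (cut K u s) := (floats_closed_cut K hK u s).measurableSet
  have hmt : MeasurableSet (cut K u t) := (floats_closed_cut K hK u t).measurableSet
  have hsub : cut K u s ⊆ cut K u t := fun x hx => ⟨hx.1, le_trans hx.2 hst⟩
  have hfin : ∀ r, volume (cut K u r) < ⊤ := fun r =>
    lt_of_le_of_lt (measure_mono inter_subset_left) hK.2.1.measure_lt_top
  have hint : IntegrableOn (fun x : E 2 => x) (cut K u t) volume :=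
    (continuousOn_id.integrableOn_compact hK.2.1).mono_set inter_subset_left
  have h1 : (∫ x in cut K u t \ cut K u s, x) = (∫ x in cut K u t, x) - ∫ x in cut K u s, x :=
    setIntegral_sdiff hms hint hsub
  rw [← h1]
  have h2 : ‖∫ x in cut K u t \ cut K u s, x‖ ≤ R * volume.real (cut K u t \ cut K u s) := by
    apply norm_setIntegral_le_of_norm_le_const
    · exact lt_of_le_of_lt (measure_mono sdiff_subset) (hfin t)
    · intro x hx
      exact hR x hx.1.1
  have h3 : volume.real (cut K u t \ cut K u s) = GK K u t - GK K u s :=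
    measureReal_sdiff hsub hms (hfin t).ne
  rw [← h3]
  exact h2

theorem floats_closed_M' (K : Set (E 2)) (hK : Body K) (u : E 2) (R : ℝ)
    (hR : ∀ x ∈ K, ‖x‖ ≤ R) (s t : ℝ) :
    ‖(∫ x in cut K u s, x) - ∫ x in cut K u t, x‖ ≤ R * |GK K u s - GK K u t| := by
  have hR0 : 0 ≤ R := by
    obtain ⟨x, hx⟩ := hK.2.2
    exact (norm_nonneg x).trans (hR x (interior_subset hx))
  rcases le_total s t with h | h
  · rw [norm_sub_rev, abs_sub_comm]
    exact (floats_closed_M K hK u R hR s t h).trans
      (mul_le_mul_of_nonneg_left (le_abs_self _) hR0)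
  · exact (floats_closed_M K hK u R hR t s h).trans
      (mul_le_mul_of_nonneg_left (le_abs_self _) hR0)

theorem floats_closed (K : Set (E 2)) (hK : Body K) (d : ℝ) (hd : 0 < d) (hd1 : d < 1)
    (h : ∀ ε > 0, ∃ d', 0 < d' ∧ d' < 1 ∧ |d' - d| < ε ∧ Floats K d') : Floats K d := by
  intro u hu
  obtain ⟨hV, hGc, hGm, hGb, -⟩ := G_t K hK u hu
  obtain ⟨R, hR⟩ : ∃ R : ℝ, ∀ x ∈ K, ‖x‖ ≤ R := hK.2.1.isBounded.exists_norm_le
  have hin : ∀ x ∈ K, |inner ℝ x u| ≤ R := by
    intro x hx
    have h1 := abs_real_inner_le_norm x u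
    rw [hu, mul_one] at h1
    exact h1.trans (hR x hx)
  choose dd hd0 hd1' hdd hfl using fun n : ℕ => h (1 / ((n : ℝ) + 1)) (by positivity)
  choose t ht c hc using fun n => hfl n u hu
  have hdlim : Tendsto dd atTop (𝓝 d) := by
    rw [tendsto_iff_dist_tendsto_zero]
    refine squeeze_zero (fun _ => dist_nonneg) (fun n => ?_) tendsto_one_div_add_atTop_nhds_zero_nat
    rw [Real.dist_eq]
    exact (hdd n).le
  have htb : ∀ n, t n ∈ Icc (-R) R := by
    intro n
    constructor
    · by_contra hlt
      push Not at hlt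
      have h1 : cut K u (t n) = ∅ := by
        rw [eq_empty_iff_forall_notMem]
        rintro x ⟨hx, hx'⟩
        have h2 := (abs_le.1 (hin x hx)).1
        have h3 : inner ℝ x u ≤ t n := hx'
        linarith
      have h2 := ht n
      rw [h1] at h2
      simp only [measure_empty, ENNReal.toReal_zero] at h2
      have := mul_pos (hd0 n) hV
      linarith
    · by_contra hlt
      push Not at hlt
      have h1 : cut K u (t n) = K := by
        apply Subset.antisymm inter_subset_left
        intro x hx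
        refine ⟨hx, ?_⟩
        show inner ℝ x u ≤ t n
        linarith [(abs_le.1 (hin x hx)).2]
      have h2 := ht n
      rw [h1] at h2
      have h3 := hd1' n
      nlinarith
  obtain ⟨t0, -, φ, hφ, hlim⟩ := isCompact_Icc.tendsto_subseq htb
  have hG : ∀ n, GK K u (t n) = dd n * (volume K).toReal := ht
  have hGlim : Tendsto (fun n => GK K u (t (φ n))) atTop (𝓝 (GK K u t0)) :=
    (hGc.tendsto t0).comp hlim
  have hGlim2 : Tendsto (fun n => GK K u (t (φ n))) atTop (𝓝 (d * (volume K).toReal)) := by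
    simp only [hG]
    exact (hdlim.comp hφ.tendsto_atTop).mul_const _
  have hGt0 : GK K u t0 = d * (volume K).toReal := tendsto_nhds_unique hGlim hGlim2
  refine ⟨t0, hGt0, ?_⟩
  have hMlim : Tendsto (fun n => ∫ x in cut K u (t (φ n)), x) atTop (𝓝 (∫ x in cut K u t0, x)) := by
    rw [tendsto_iff_norm_sub_tendsto_zero]
    refine squeeze_zero (fun _ => norm_nonneg _)
      (fun n => floats_closed_M' K hK u R hR (t (φ n)) t0) ?_
    have h1 : Tendsto (fun n => GK K u (t (φ n)) - GK K u t0) atTop (𝓝 0) := by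
      have := hGlim.sub_const (GK K u t0)
      rwa [sub_self] at this
    have h2 := (h1.abs).const_mul R
    simpa using h2
  have hcen : Tendsto (fun n => cen (cut K u (t (φ n)))) atTop (𝓝 (cen (cut K u t0))) := by
    have h1 : GK K u t0 ≠ 0 := by
      rw [hGt0]
      exact (mul_pos hd hV).ne'
    exact (hGlim.inv₀ h1).smul hMlim
  have hcl : IsClosed ((Submodule.span ℝ {u} : Submodule ℝ (E 2)) : Set (E 2)) :=
    Submodule.closed_of_finiteDimensional _
  have hmem : cen K - cen (cut K u t0) ∈ (Submodule.span ℝ {u} : Submodule ℝ (E 2)) := by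
    refine hcl.mem_of_tendsto (tendsto_const_nhds.sub hcen) (Eventually.of_forall fun n => ?_)
    rw [hc (φ n)]
    exact Submodule.smul_mem _ _ (Submodule.mem_span_singleton_self u)
  obtain ⟨a, ha⟩ := Submodule.mem_span_singleton.1 hmem
  exact ⟨a, ha.symm⟩

end Pool.Agent.Helper88.SE
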