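import Pool.Agent.Helper88.FB.Defs
import Pool.Agent.Helper88.FB.P_G_t

set_option autoImplicit false

open MeasureTheory Set Filter Topology
open scoped ENNReal

namespace Pool.Agent.Helper88.SE



theorem fc_null (u : E 2) (hu : ‖u‖ = 1) (c : ℝ) :
    volume {x : E 2 | inner ℝ x u = c} = 0 := by
  let W : Submodule ℝ (E 2) := LinearMap.ker ((innerSL ℝ u : E 2 →L[ℝ] ℝ) : E 2 →ₗ[ℝ] ℝ)
  have hW : ∀ x, x ∈ W ↔ inner ℝ x u = 0 := by
    intro x
    rw [LinearMap.mem_ker]
    show inner ℝ u x = 0 ↔ _
    rw [real_inner_comm]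
  have huu : inner ℝ u u = (1 : ℝ) := by rw [real_inner_self_eq_norm_sq, hu]; norm_num
  have hne : W ≠ ⊤ := by
    intro e
    have : u ∈ W := by rw [e]; exact Submodule.mem_top
    rw [hW, huu] at this
    exact one_ne_zero this
  have e : {x : E 2 | inner ℝ x u = c} = (fun x : E 2 => x + (-(c • u))) ⁻¹' (W : Set (E 2)) := by
    ext x
    rw [mem_setOf_eq, mem_preimage, SetLike.mem_coe, hW, inner_add_left, inner_neg_left,
      inner_smul_left, huu]
    simp only [conj_trivial]
    constructor
    · intro h; linarith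
    · intro h; linarith
  rw [e, measure_preimage_add_right]
  exact Measure.addHaar_submodule _ W hne

theorem floats_compl (K : Set (E 2)) (hK : Body K) (d : ℝ) (hd : 0 < d) (hd1 : d < 1)
    (h : Floats K d) : Floats K (1 - d) := by
  intro u hu
  have hKm : MeasurableSet K := hK.2.1.measurableSet
  obtain ⟨hV, _, _, _, _⟩ := G_t K hK u hu
  have hKfin : volume K ≠ ⊤ := hK.2.1.measure_lt_top.ne
  obtain ⟨t, ht, c, hc⟩ := h (-u) (by rw [norm_neg]; exact hu)
  refine ⟨-t, ?_⟩
  have hA : cut K (-u) t = K ∩ {x | -t ≤ inner ℝ x u} := by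
    unfold cut
    ext x
    simp only [mem_inter_iff, mem_setOf_eq, inner_neg_right]
    constructor
    · rintro ⟨h1, h2⟩; exact ⟨h1, by linarith⟩
    · rintro ⟨h1, h2⟩; exact ⟨h1, by linarith⟩
  have hAB : cut K (-u) t ∪ cut K u (-t) = K := by
    rw [hA]
    unfold cut
    ext x
    simp only [mem_union, mem_inter_iff, mem_setOf_eq]
    constructor
    · rintro (h1 | h1) <;> exact h1.1
    · intro h1
      rcases le_total (-t) (inner ℝ x u) with h2 | h2
      · exact Or.inl ⟨h1, h2⟩
      · exact Or.inr ⟨h1, h2⟩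
  have hAm : MeasurableSet (cut K (-u) t) := by
    unfold cut
    exact hKm.inter (measurableSet_le (by fun_prop) measurable_const)
  have hBm : MeasurableSet (cut K u (-t)) := by
    unfold cut
    exact hKm.inter (measurableSet_le (by fun_prop) measurable_const)
  have hdis : AEDisjoint volume (cut K (-u) t) (cut K u (-t)) := by
    apply measure_mono_null _ (fc_null u hu (-t))
    rw [hA]
    unfold cut
    rintro x ⟨⟨_, h1⟩, ⟨_, h2⟩⟩
    exact le_antisymm h2 h1
  have hAK : cut K (-u) t ⊆ K := inter_subset_left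
  have hBK : cut K u (-t) ⊆ K := inter_subset_left
  have hint : IntegrableOn (fun x : E 2 => x) K volume :=
    (continuous_id.continuousOn).integrableOn_compact hK.2.1
  have hvol : volume K = volume (cut K (-u) t) + volume (cut K u (-t)) := by
    have := measure_union₀ hBm.nullMeasurableSet hdis
    rw [hAB] at this
    exact this
  have hI : ∫ x in K, x = (∫ x in cut K (-u) t, x) + ∫ x in cut K u (-t), x := by
    have := integral_union_ae (f := fun x : E 2 => x) hdis hBm.nullMeasurableSet
      (hint.mono_set hAK) (hint.mono_set hBK)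
    rw [hAB] at this
    exact this
  have hAf : volume (cut K (-u) t) ≠ ⊤ := ne_top_of_le_ne_top hKfin (measure_mono hAK)
  have hBf : volume (cut K u (-t)) ≠ ⊤ := ne_top_of_le_ne_top hKfin (measure_mono hBK)
  have hvr : (volume K).toReal = (volume (cut K (-u) t)).toReal +
      (volume (cut K u (-t))).toReal := by
    rw [hvol, ENNReal.toReal_add hAf hBf]
  set V := (volume K).toReal with hVdef
  have hvB : (volume (cut K u (-t))).toReal = (1 - d) * V := by
    rw [ht] at hvr; linarith
  refine ⟨hvB, d * c / (1 - d), ?_⟩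
  have e1 : ∫ x in K, x = V • cen K := by
    unfold cen
    rw [smul_smul, mul_inv_cancel₀ hV.ne', one_smul]
  have hdV : d * V ≠ 0 := (mul_pos hd hV).ne'
  have e2 : ∫ x in cut K (-u) t, x = (d * V) • cen (cut K (-u) t) := by
    unfold cen
    rw [ht, smul_smul, mul_inv_cancel₀ hdV, one_smul]
  have e3 : cen (cut K (-u) t) = cen K + c • u := by
    have : cen (cut K (-u) t) = cen K - (cen K - cen (cut K (-u) t)) := by abel
    rw [this, hc, smul_neg, sub_neg_eq_add]
  have h1d : 0 < 1 - d := by linarith
  have e4 : cen (cut K u (-t)) = cen K - (d * c / (1 - d)) • u := by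
    have e5 : ∫ x in cut K u (-t), x = V • cen K - (d * V) • (cen K + c • u) := by
      rw [← e1, ← e3, ← e2, hI]; abel
    have e6 : ((1 - d) * V) • (cen K - (d * c / (1 - d)) • u) =
        V • cen K - (d * V) • (cen K + c • u) := by
      have e7 : (1 - d) * V * (d * c / (1 - d)) = d * V * c := by field_simp
      rw [smul_sub, smul_smul, e7, smul_add, smul_smul]
      module
    have e8 : cen (cut K u (-t)) = ((1 - d) * V)⁻¹ • ∫ x in cut K u (-t), x := by
      conv_lhs => unfold cen
      rw [hvB]
    rw [e8, e5, ← e6, smul_smul, inv_mul_cancel₀ (mul_pos h1d hV).ne', one_smul]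
  rw [e4]
  abel

end Pool.Agent.Helper88.SE
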