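import Pool.Agent.Helper88.FB.Defs
import Pool.Agent.Helper88.FB.P_G_t
import Pool.Agent.Helper88.FB.P_F_const
import Pool.Agent.Helper88.FB.P_F_diff

set_option autoImplicit false

open MeasureTheory Set Filter Topology
open scoped ENNReal

namespace Pool.Agent.Helper88.SE



theorem level_const (K : Set (E 2)) (hK : Body K) (h0 : ∫ x in K, x = 0) (d : ℝ) (hd : 0 < d)
    (hd1 : d < 1) (hF : Floats K d) (hacc : ∀ ε > 0, ∃ d', d < d' ∧ d' < d + ε ∧ d' < 1 ∧ Floats K d') :
    ∃ τ : ℝ, ∀ u, ‖u‖ = 1 → GK K u τ = d * (volume K).toReal := by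
  obtain ⟨m, hm⟩ := F_const K hK h0 d hd hd1 hF
  have key : ∀ u w : E 2, ‖u‖ = 1 → ‖w‖ = 1 → ∀ tu tw : ℝ, GK K u tu = d * (volume K).toReal →
      GK K w tw = d * (volume K).toReal → tu ≤ tw := by
    intro u w hu hw tu tw htu htw
    by_contra hlt
    have hlt' : tw < tu := not_le.mp hlt
    obtain ⟨hV, -, hmonou, -, -⟩ := G_t K hK u hu
    obtain ⟨-, -, hmonow, hbw, hstr⟩ := G_t K hK w hw
    have hs1 : tw < (tu + tw) / 2 := by linarith
    have hs2 : (tu + tw) / 2 < tu := by linarith
    generalize (tu + tw) / 2 = s at *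
    have hG1 : d * (volume K).toReal < GK K w s := by
      by_cases h1 : GK K w s < (volume K).toReal
      · have h2 := hstr tw s hs1 (by rw [htw]; exact mul_pos hd hV) h1
        rw [htw] at h2
        exact h2
      · have h2 : (volume K).toReal ≤ GK K w s := not_lt.mp h1
        have h3 : d * (volume K).toReal < 1 * (volume K).toReal := mul_lt_mul_of_pos_right hd1 hV
        linarith
    obtain ⟨d', hd', hd'2, hd'1, hF'⟩ := hacc ((GK K w s - d * (volume K).toReal) / (volume K).toReal)
      (div_pos (by linarith) hV)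
    have hd'V : d' * (volume K).toReal < GK K w s := by
      have h2 : d' * (volume K).toReal <
          (d + (GK K w s - d * (volume K).toReal) / (volume K).toReal) * (volume K).toReal :=
        mul_lt_mul_of_pos_right hd'2 hV
      have h3 : (d + (GK K w s - d * (volume K).toReal) / (volume K).toReal) * (volume K).toReal = GK K w s := by
        have hV0 := hV.ne'
        field_simp
        ring
      linarith
    have hdd : d * (volume K).toReal < d' * (volume K).toReal := mul_lt_mul_of_pos_right hd' hV
    obtain ⟨m', hm'⟩ := F_const K hK h0 d' (by linarith) hd'1 hF'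
    obtain ⟨tu', htu', -⟩ := hF' u hu
    obtain ⟨tw', htw', -⟩ := hF' w hw
    change GK K u tu' = _ at htu'
    change GK K w tw' = _ at htw'
    have hmu' := hm' u hu tu' htu'
    have hmw' := hm' w hw tw' htw'
    have hmu := hm u hu tu htu
    have hmw := hm w hw tw htw
    have h1 : tu ≤ tu' := by
      by_contra h
      have h2 := hmonou (not_le.mp h).le
      rw [htu, htu'] at h2
      linarith
    have h2 : tw ≤ tw' := by
      by_contra h
      have h3 := hmonow (not_le.mp h).le
      rw [htw, htw'] at h3
      linarith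
    have h3 : tw' < s := by
      by_contra h
      have h4 := hmonow (not_lt.mp h)
      rw [htw'] at h4
      linarith
    have f1 := (F_diff K hK u hu tu tu' h1).1
    have f2 := (F_diff K hK w hw tw tw' h2).2
    rw [htu, htu', hmu', hmu] at f1
    rw [htw, htw', hmw', hmw] at f2
    have h5 : 0 < d' * (volume K).toReal - d * (volume K).toReal := by linarith
    have h6 : tu * (d' * (volume K).toReal - d * (volume K).toReal) ≤
        tw' * (d' * (volume K).toReal - d * (volume K).toReal) := f1.trans f2
    have h7 : tu ≤ tw' := le_of_mul_le_mul_right h6 h5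
    linarith
  have hu0 : ‖(EuclideanSpace.single 0 1 : E 2)‖ = 1 := by simp
  obtain ⟨τ, hτ, -⟩ := hF _ hu0
  change GK K _ τ = _ at hτ
  refine ⟨τ, ?_⟩
  intro u hu
  obtain ⟨t, ht, -⟩ := hF u hu
  change GK K u t = _ at ht
  have e1 := key u _ hu hu0 t τ ht hτ
  have e2 := key _ u hu0 hu τ t hτ ht
  have e3 : t = τ := le_antisymm e1 e2
  rw [← e3]
  exact ht

end Pool.Agent.Helper88.SE
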