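import Pool.Agent.Helper88.FB.Defs

set_option autoImplicit false

open MeasureTheory Set Filter Topology
open scoped ENNReal

namespace Pool.Agent.Helper88.SE



theorem level_flip_null (u : E 2) (hu : ‖u‖ = 1) (c : ℝ) :
    (volume : Measure (E 2)) {x : E 2 | inner ℝ x u = c} = 0 := by
  have huu : inner ℝ u u = (1 : ℝ) := by rw [real_inner_self_eq_norm_sq, hu]; norm_num
  have h1 : {x : E 2 | inner ℝ x u = c} =
      ((AffineSubspace.mk' (c • u) (LinearMap.ker (innerSL ℝ u).toLinearMap) : AffineSubspace ℝ (E 2)) :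
        Set (E 2)) := by
    ext x
    rw [SetLike.mem_coe, AffineSubspace.mem_mk', LinearMap.mem_ker]
    change inner ℝ x u = c ↔ inner ℝ u (x - c • u) = 0
    rw [inner_sub_right, inner_smul_right, huu, real_inner_comm, mul_one, sub_eq_zero]
  rw [h1]
  apply Measure.addHaar_affineSubspace
  intro htop
  have h2 : c • u + u ∈ (AffineSubspace.mk' (c • u) (LinearMap.ker (innerSL ℝ u).toLinearMap) :
      AffineSubspace ℝ (E 2)) := by
    rw [htop]
    exact AffineSubspace.mem_top ℝ (E 2) _
  rw [AffineSubspace.mem_mk', LinearMap.mem_ker] at h2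
  change inner ℝ u ((c • u + u) - c • u) = 0 at h2
  rw [add_sub_cancel_left, huu] at h2
  exact one_ne_zero h2

theorem level_flip (K : Set (E 2)) (hK : Body K) (d τ : ℝ)
    (h : ∀ u, ‖u‖ = 1 → GK K u τ = (1 - d) * (volume K).toReal) :
    ∀ u, ‖u‖ = 1 → GK K u (-τ) = d * (volume K).toReal := by
  intro u hu
  have h1 := h (-u) (by rw [norm_neg, hu])
  have hm : MeasurableSet (cut K (-u) τ) := by
    refine hK.2.1.measurableSet.inter ?_
    have : IsClosed {x : E 2 | inner ℝ x (-u) ≤ τ} := isClosed_le (by fun_prop) continuous_const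
    exact this.measurableSet
  have hunion : cut K u (-τ) ∪ cut K (-u) τ = K := by
    unfold cut
    rw [← Set.inter_union_distrib_left]
    apply Set.inter_eq_left.2
    intro x _
    by_cases hx : inner ℝ x u ≤ -τ
    · exact Or.inl hx
    · right
      show inner ℝ x (-u) ≤ τ
      rw [inner_neg_right]
      linarith
  have hinter : (volume : Measure (E 2)) (cut K u (-τ) ∩ cut K (-u) τ) = 0 := by
    refine measure_mono_null ?_ (level_flip_null u hu (-τ))
    rintro x ⟨⟨_, hx1⟩, _, hx2⟩
    have hx1 : inner ℝ x u ≤ -τ := hx1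
    have hx2 : inner ℝ x (-u) ≤ τ := hx2
    rw [inner_neg_right] at hx2
    show inner ℝ x u = -τ
    linarith
  have h2 := measure_union_add_inter (μ := (volume : Measure (E 2))) (cut K u (-τ)) hm
  rw [hunion, hinter, add_zero] at h2
  have hfin : (volume : Measure (E 2)) K ≠ ⊤ := hK.2.1.measure_lt_top.ne
  have hf1 : (volume : Measure (E 2)) (cut K u (-τ)) ≠ ⊤ :=
    ne_top_of_le_ne_top hfin (measure_mono Set.inter_subset_left)
  have hf2 : (volume : Measure (E 2)) (cut K (-u) τ) ≠ ⊤ :=
    ne_top_of_le_ne_top hfin (measure_mono Set.inter_subset_left)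
  have h3 := congrArg ENNReal.toReal h2
  rw [ENNReal.toReal_add hf1 hf2] at h3
  unfold GK at h1 ⊢
  rw [h1] at h3
  linarith

end Pool.Agent.Helper88.SE
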