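import Pool.Agent.Helper88.FB.Defs
import Pool.Agent.Helper88.FB.P_G_t
import Pool.Agent.Helper88.FB.P_level_const
import Pool.Agent.Helper88.FB.P_floats_closed
import Pool.Agent.Helper88.FB.P_floats_compl
import Pool.Agent.Helper88.FB.P_level_flip

set_option autoImplicit false

open MeasureTheory Set Filter Topology
open scoped ENNReal

namespace Pool.Agent.Helper88.SE



theorem levels2 (K : Set (E 2)) (hK : Body K) (h0 : ∫ x in K, x = 0)
    (hD : {d : ℝ | 0 < d ∧ d < 1 ∧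
      AccPt d (Filter.principal {e : ℝ | 0 < e ∧ e < 1 ∧ Floats K e})}.Infinite) :
    {τ : ℝ | ∃ d : ℝ, 0 < d ∧ d < 1 ∧ ∀ u, ‖u‖ = 1 → GK K u τ = d * (volume K).toReal}.Infinite := by
  have key : ∀ d : ℝ, (0 < d ∧ d < 1 ∧
      AccPt d (Filter.principal {e : ℝ | 0 < e ∧ e < 1 ∧ Floats K e})) →
      ∃ τ : ℝ, ∀ u, ‖u‖ = 1 → GK K u τ = d * (volume K).toReal := by
    rintro d ⟨hd, hd1, hacc⟩
    rw [accPt_iff_nhds] at hacc
    have hball : ∀ ε > 0, ∃ e, 0 < e ∧ e < 1 ∧ Floats K e ∧ |e - d| < ε ∧ e ≠ d := by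
      intro ε hε
      obtain ⟨y, ⟨hy1, hy2⟩, hy3⟩ := hacc _ (Metric.ball_mem_nhds d hε)
      exact ⟨y, hy2.1, hy2.2.1, hy2.2.2, by simpa [Real.dist_eq] using hy1, hy3⟩
    have hF : Floats K d := floats_closed K hK d hd hd1 fun ε hε => by
      obtain ⟨e, h1, h2, h3, h4, -⟩ := hball ε hε
      exact ⟨e, h1, h2, h4, h3⟩
    by_cases hr : ∀ ε > 0, ∃ d', d < d' ∧ d' < d + ε ∧ d' < 1 ∧ Floats K d'
    · exact level_const K hK h0 d hd hd1 hF hr
    · push Not at hr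
      obtain ⟨ε0, hε0, hr⟩ := hr
      have hl : ∀ ε > 0, ∃ d', 1 - d < d' ∧ d' < 1 - d + ε ∧ d' < 1 ∧ Floats K d' := by
        intro ε hε
        obtain ⟨e, h1, h2, h3, h4, h5⟩ := hball (min ε ε0) (lt_min hε hε0)
        rw [abs_lt] at h4
        have h6 : min ε ε0 ≤ ε := min_le_left _ _
        have h7 : min ε ε0 ≤ ε0 := min_le_right _ _
        rcases lt_or_gt_of_ne h5 with h | h
        · exact ⟨1 - e, by linarith, by linarith, by linarith, floats_compl K hK e h1 h2 h3⟩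
        · exact absurd h3 (hr e h (by linarith) h2)
      obtain ⟨τ, hτ⟩ := level_const K hK h0 (1 - d) (by linarith) (by linarith)
        (floats_compl K hK d hd hd1 hF) hl
      exact ⟨-τ, level_flip K hK d τ hτ⟩
  choose! τ hτ using key
  refine (hD.image (f := τ) ?_).mono ?_
  · intro d hd d' hd' h
    obtain ⟨u, hu⟩ : ∃ u : E 2, ‖u‖ = 1 := ⟨EuclideanSpace.single 0 1, by simp⟩
    have h1 := hτ d hd u hu
    have h2 := hτ d' hd' u hu
    rw [h, h2] at h1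
    have hV := (G_t K hK u hu).1
    exact (mul_right_cancel₀ hV.ne' h1).symm
  · rintro _ ⟨d, hd, rfl⟩
    exact ⟨d, hd.1, hd.2.1, hτ d hd⟩

end Pool.Agent.Helper88.SE
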