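import Pool.Agent.Helper88.FB.Defs
import Pool.Agent.Helper88.FB.P_inrad
import Pool.Agent.Helper88.FB.P_level_range
import Pool.Agent.Helper88.FB.P_all_levels
import Pool.Agent.Helper88.FB.P_is_ball
import Pool.Agent.Helper88.FB.P_levels2

set_option autoImplicit false

open MeasureTheory Set Filter Topology
open scoped ENNReal

namespace Pool.Agent.Helper88.SE



theorem centred2 (K : Set (E 2)) (hK : Body K) (h0 : ∫ x in K, x = 0)
    (hD : {d : ℝ | 0 < d ∧ d < 1 ∧
      AccPt d (Filter.principal {e : ℝ | 0 < e ∧ e < 1 ∧ Floats K e})}.Infinite) :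
    ∃ R : ℝ, 0 < R ∧ K = Metric.closedBall 0 R := by
  obtain ⟨R, v, hR, hv, hB, hKv⟩ := inrad K hK h0
  refine ⟨R, hR, ?_⟩
  refine is_ball K hK R v hR hv hB hKv ?_
  refine all_levels K hK R hR hB ?_
  refine (levels2 K hK h0 hD).mono ?_
  rintro τ ⟨d, hd, hd1, h⟩
  exact ⟨level_range K hK R v hR hv hKv τ d hd hd1 h, d * (volume K).toReal, h⟩

end Pool.Agent.Helper88.SE
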