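import Pool.Agent.Helper88.FB.Defs

set_option autoImplicit false

open MeasureTheory Set Filter Topology
open scoped ENNReal

namespace Pool.Agent.Helper88.SE



theorem tr_vol (g : E 2) (A : Set (E 2)) : volume ((fun x => x - g) '' A) = volume A := by
  have h := (measurePreserving_sub_right (volume : Measure (E 2)) g).measure_preimage_emb
    (Homeomorph.subRight g).measurableEmbedding ((fun x => x - g) '' A)
  rw [← h, Set.preimage_image_eq _ (sub_left_injective)]

theorem tr_int (g : E 2) (K A : Set (E 2)) (hK : IsCompact K) (hA : A ⊆ K) :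
    ∫ x in (fun x => x - g) '' A, x = (∫ x in A, x) - (volume A).toReal • g := by
  have h := (measurePreserving_sub_right (volume : Measure (E 2)) g).setIntegral_image_emb
    (Homeomorph.subRight g).measurableEmbedding (fun x => x) A
  rw [h]
  have hi : IntegrableOn (fun x : E 2 => x) A volume :=
    (continuousOn_id.integrableOn_compact hK).mono_set hA
  have hc : IntegrableOn (fun _ : E 2 => g) A volume :=
    (continuousOn_const.integrableOn_compact hK).mono_set hA
  rw [integral_sub hi hc, setIntegral_const]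
  rfl

theorem tr_cen (g : E 2) (K A : Set (E 2)) (hK : IsCompact K) (hA : A ⊆ K)
    (h0 : (volume A).toReal ≠ 0) : cen ((fun x => x - g) '' A) = cen A - g := by
  unfold cen
  rw [tr_vol, tr_int g K A hK hA, smul_sub, smul_smul, inv_mul_cancel₀ h0, one_smul]

theorem tr_cut (g : E 2) (K : Set (E 2)) (u : E 2) (t : ℝ) :
    cut ((fun x => x - g) '' K) u (t - inner ℝ g u) = (fun x => x - g) '' cut K u t := by
  ext x
  simp only [cut, Set.mem_inter_iff, Set.mem_image, Set.mem_ofPred_eq]
  constructor
  · rintro ⟨⟨y, hy, rfl⟩, h⟩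
    refine ⟨y, ⟨hy, ?_⟩, rfl⟩
    rw [inner_sub_left] at h
    linarith
  · rintro ⟨y, ⟨hy, h⟩, rfl⟩
    refine ⟨⟨y, hy, rfl⟩, ?_⟩
    rw [inner_sub_left]
    linarith

theorem translate (K : Set (E 2)) (hK : Body K) :
    Body ((fun x => x - cen K) '' K) ∧ ∫ x in (fun x => x - cen K) '' K, x = 0 ∧
    ∀ d : ℝ, 0 < d → d < 1 → Floats K d → Floats ((fun x => x - cen K) '' K) d := by
  obtain ⟨hconv, hcomp, hint⟩ := hK
  have hpos : 0 < volume K := lt_of_lt_of_le (isOpen_interior.measure_pos volume hint) (measure_mono interior_subset)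
  have hfin : volume K ≠ ⊤ := hcomp.measure_lt_top.ne
  have hV : 0 < (volume K).toReal := ENNReal.toReal_pos hpos.ne' hfin
  have hcutsub : ∀ (u : E 2) (t : ℝ), cut K u t ⊆ K := fun u t => Set.inter_subset_left
  refine ⟨⟨?_, ?_, ?_⟩, ?_, ?_⟩
  · have h := hconv.translate (-(cen K))
    have e : (fun x : E 2 => -(cen K) + x) = fun x => x - cen K := by
      funext x; abel
    rwa [e] at h
  · exact hcomp.image (by fun_prop)
  · have h := (Homeomorph.subRight (cen K)).image_interior K
    have e : ((fun x => x - cen K) '' K) = (Homeomorph.subRight (cen K)) '' K := rfl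
    rw [e, ← h]
    exact hint.image _
  · rw [tr_int (cen K) K K hcomp subset_rfl]
    have e : (volume K).toReal • cen K = ∫ x in K, x := by
      unfold cen
      rw [smul_smul, mul_inv_cancel₀ hV.ne', one_smul]
    rw [e, sub_self]
  · intro d hd0 hd1 hf u hu
    obtain ⟨t, ht, c, hc⟩ := hf u hu
    refine ⟨t - inner ℝ (cen K) u, ?_, c, ?_⟩
    · rw [tr_cut, tr_vol, tr_vol, ht]
    · rw [tr_cut, tr_cen (cen K) K K hcomp subset_rfl hV.ne',
        tr_cen (cen K) K (cut K u t) hcomp (hcutsub u t) (by rw [ht]; positivity),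
        sub_sub_sub_cancel_right, hc]

end Pool.Agent.Helper88.SE
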