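import Pool.Agent.Helper88.FB.Defs
import Pool.Agent.Helper88.FB.P_translate
import Pool.Agent.Helper88.FB.P_centred2

set_option autoImplicit false

open MeasureTheory Set Filter Topology
open scoped ENNReal

namespace Pool.Agent.Helper88.SE



theorem fball2 (K : Set (E 2)) (hK : Body K)
    (hD : {d : ℝ | 0 < d ∧ d < 1 ∧
      AccPt d (Filter.principal {e : ℝ | 0 < e ∧ e < 1 ∧ Floats K e})}.Infinite) :
    ∃ (g : E 2) (R : ℝ), 0 < R ∧ K = Metric.closedBall g R := by
  obtain ⟨hB, h0, hF⟩ := translate K hK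
  have hsub : {d : ℝ | 0 < d ∧ d < 1 ∧
      AccPt d (Filter.principal {e : ℝ | 0 < e ∧ e < 1 ∧ Floats K e})} ⊆
      {d : ℝ | 0 < d ∧ d < 1 ∧
      AccPt d (Filter.principal {e : ℝ | 0 < e ∧ e < 1 ∧ Floats ((fun x => x - cen K) '' K) e})} := by
    rintro d ⟨h1, h2, h3⟩
    refine ⟨h1, h2, h3.mono ?_⟩
    apply Filter.principal_mono.mpr
    rintro e ⟨e1, e2, e3⟩
    exact ⟨e1, e2, hF e e1 e2 e3⟩
  obtain ⟨R, hR, hKR⟩ := centred2 _ hB h0 (hD.mono hsub)
  refine ⟨cen K, R, hR, ?_⟩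
  ext x
  constructor
  · intro hx
    have h1 : x - cen K ∈ (fun x => x - cen K) '' K := ⟨x, hx, rfl⟩
    rw [hKR, mem_closedBall_zero_iff] at h1
    rw [Metric.mem_closedBall, dist_eq_norm]
    exact h1
  · intro hx
    rw [Metric.mem_closedBall, dist_eq_norm] at hx
    have h1 : x - cen K ∈ Metric.closedBall (0 : E 2) R := by
      rw [mem_closedBall_zero_iff]
      exact hx
    rw [← hKR] at h1
    obtain ⟨y, hy, hyx⟩ := h1
    have : y = x := by
      have h2 : y - cen K = x - cen K := hyx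
      exact sub_left_injective h2
    rwa [← this]

end Pool.Agent.Helper88.SE
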