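import Pool.Agent.Helper88.FB.Defs

set_option autoImplicit false

open MeasureTheory Set Filter Topology
open scoped ENNReal

namespace Pool.Agent.Helper88.SE



theorem flat_aux (τ ε C : ℝ) (hε : 0 < ε) (N : ℕ) : ∀ f : ℝ → ℝ,
    ContDiffOn ℝ N f (Ioo (τ - ε) (τ + ε)) →
    (∀ t ∈ Ioo (τ - ε) (τ + ε), |iteratedDeriv N f t| ≤ C) →
    (∀ η > 0, ∃ t, τ < t ∧ t < τ + η ∧ f t = 0) →
    ∀ t ∈ Ioo (τ - ε) (τ + ε), |f t| ≤ C * |t - τ| ^ N := by
  induction N with
  | zero =>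
    intro f _ hC _ t ht
    have := hC t ht
    simpa using this
  | succ N ih =>
    intro f hf hC hz t ht
    have hτ : τ ∈ Ioo (τ - ε) (τ + ε) := ⟨by linarith, by linarith⟩
    have hcont : ContinuousOn f (Ioo (τ - ε) (τ + ε)) := hf.continuousOn
    have hdiff : ∀ x ∈ Ioo (τ - ε) (τ + ε), DifferentiableAt ℝ f x := by
      intro x hx
      have h1 : DifferentiableOn ℝ f (Ioo (τ - ε) (τ + ε)) := by
        apply hf.differentiableOn
        simp
      exact (h1 x hx).differentiableAt (isOpen_Ioo.mem_nhds hx)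
    have hder : ContDiffOn ℝ N (deriv f) (Ioo (τ - ε) (τ + ε)) := by
      have h1 : ContDiffOn ℝ ((N : WithTop ℕ∞) + 1) f (Ioo (τ - ε) (τ + ε)) := by
        exact_mod_cast hf
      exact ((contDiffOn_succ_iff_deriv_of_isOpen isOpen_Ioo).1 h1).2.2
    have hzd : ∀ η > 0, ∃ t, τ < t ∧ t < τ + η ∧ deriv f t = 0 := by
      intro η hη
      obtain ⟨t1, h1, h2, h3⟩ := hz (min η ε) (lt_min hη hε)
      obtain ⟨t2, h4, h5, h6⟩ := hz (t1 - τ) (by linarith)
      have h7 : t2 < t1 := by linarith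
      have h8 : t1 < τ + ε := lt_of_lt_of_le h2 (by have := min_le_right η ε; linarith)
      have h9 : t1 < τ + η := lt_of_lt_of_le h2 (by have := min_le_left η ε; linarith)
      have hc : ContinuousOn f (Icc t2 t1) := hcont.mono (fun x hx => ⟨by linarith [hx.1], by linarith [hx.2]⟩)
      obtain ⟨c, hc1, hc2⟩ := exists_deriv_eq_zero h7 hc (by rw [h6, h3])
      exact ⟨c, by linarith [hc1.1], by linarith [hc1.2], hc2⟩
    have hb := ih (deriv f) hder (by
      intro x hx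
      have := hC x hx
      rwa [iteratedDeriv_succ'] at this) hzd
    have hf0 : f τ = 0 := by
      by_contra hne
      have hca : ContinuousAt f τ := hcont.continuousAt (isOpen_Ioo.mem_nhds hτ)
      have h1 := hca.eventually_ne hne
      rw [Metric.eventually_nhds_iff] at h1
      obtain ⟨δ, hδ, h2⟩ := h1
      obtain ⟨s, hs1, hs2, hs3⟩ := hz δ hδ
      exact h2 (by rw [Real.dist_eq, abs_of_pos (by linarith)]; linarith) hs3
    have hsub : uIcc τ t ⊆ Ioo (τ - ε) (τ + ε) := ordConnected_Ioo.uIcc_subset hτ ht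
    have hmv := Convex.norm_image_sub_le_of_norm_deriv_le (f := f) (C := C * |t - τ| ^ N)
      (s := uIcc τ t) (x := τ) (y := t) (fun x hx => hdiff x (hsub hx)) (by
        intro x hx
        have h1 := hb x (hsub hx)
        have hC0 : 0 ≤ C := (abs_nonneg _).trans (hC τ hτ)
        have h2 : |x - τ| ≤ |t - τ| := abs_sub_left_of_mem_uIcc hx
        rw [Real.norm_eq_abs]
        exact h1.trans (mul_le_mul_of_nonneg_left (pow_le_pow_left₀ (abs_nonneg _) h2 N) hC0))
      (convex_uIcc τ t) left_mem_uIcc right_mem_uIcc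
    rw [hf0, sub_zero, Real.norm_eq_abs, Real.norm_eq_abs] at hmv
    rw [pow_succ, ← mul_assoc]
    exact hmv

theorem flat (f : ℝ → ℝ) (τ ε : ℝ) (N : ℕ) (C : ℝ) (hε : 0 < ε)
    (hf : ContDiffOn ℝ N f (Ioo (τ - ε) (τ + ε)))
    (hC : ∀ t ∈ Ioo (τ - ε) (τ + ε), |iteratedDeriv N f t| ≤ C)
    (hz : ∀ η > 0, ∃ t, τ < t ∧ t < τ + η ∧ f t = 0) :
    ∀ t ∈ Ioo (τ - ε) (τ + ε), |f t| ≤ C * |t - τ| ^ N :=
  flat_aux τ ε C hε N f hf hC hz

end Pool.Agent.Helper88.SE
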