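import Pool.Agent.Helper88.FB.Defs

set_option autoImplicit false

open MeasureTheory Set Filter Topology
open scoped ENNReal

namespace Pool.Agent.Helper88.SE



theorem poly_flat (P : Polynomial ℝ) (τ : ℝ)
    (h : ∀ N : ℕ, ∃ ε > 0, ∃ C : ℝ, ∀ t, |t - τ| < ε → |P.eval t| ≤ C * |t - τ| ^ N) : P = 0 := by
  by_contra hP
  obtain ⟨Q, hQ, hnd⟩ := Polynomial.exists_eq_pow_rootMultiplicity_mul_and_not_dvd P hP τ
  generalize Polynomial.rootMultiplicity τ P = m at hQ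
  have hQ0 : Q.eval τ ≠ 0 := by
    intro h0
    exact hnd (Polynomial.dvd_iff_isRoot.mpr h0)
  obtain ⟨ε, hε, C, hC⟩ := h (m + 1)
  have hle : ∀ᶠ t in 𝓝[≠] τ, |Q.eval t| ≤ C * |t - τ| := by
    have h1 : ∀ᶠ t in 𝓝[≠] τ, |t - τ| < ε := by
      have h2 : ∀ᶠ t in 𝓝 τ, |t - τ| < ε := by
        filter_upwards [Metric.ball_mem_nhds τ hε] with t ht
        rwa [Metric.mem_ball, Real.dist_eq] at ht
      exact h2.filter_mono nhdsWithin_le_nhds
    filter_upwards [h1, self_mem_nhdsWithin] with t ht hne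
    have hpos : 0 < |t - τ| := abs_pos.mpr (sub_ne_zero.mpr hne)
    have h2 := hC t ht
    rw [hQ, Polynomial.eval_mul, Polynomial.eval_pow, Polynomial.eval_sub, Polynomial.eval_X,
      Polynomial.eval_C, abs_mul, abs_pow, pow_succ] at h2
    have h3 : |t - τ| ^ m * |Q.eval t| ≤ |t - τ| ^ m * (C * |t - τ|) := by linarith
    exact le_of_mul_le_mul_left h3 (pow_pos hpos m)
  have t1 : Tendsto (fun t => |Q.eval t|) (𝓝[≠] τ) (𝓝 |Q.eval τ|) :=
    (Q.continuous.abs.tendsto τ).mono_left nhdsWithin_le_nhds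
  have t2 : Tendsto (fun t => C * |t - τ|) (𝓝[≠] τ) (𝓝 0) := by
    have h4 : Tendsto (fun t => C * |t - τ|) (𝓝 τ) (𝓝 (C * |τ - τ|)) :=
      Continuous.tendsto (by fun_prop) τ
    rw [sub_self, abs_zero, mul_zero] at h4
    exact h4.mono_left nhdsWithin_le_nhds
  have h5 := le_of_tendsto_of_tendsto t1 t2 hle
  exact hQ0 (abs_nonpos_iff.mp h5)

end Pool.Agent.Helper88.SE
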