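import Pool.Agent.Helper88.FB.Defs
import Pool.Agent.Helper88.FB.P_sg_prob
import Pool.Agent.Helper88.FB.P_G_u
import Pool.Agent.Helper88.FB.P_poly_G
import Pool.Agent.Helper88.FB.P_dense_test
import Pool.Agent.Helper88.FB.P_poly_flat

set_option autoImplicit false

open MeasureTheory Set Filter Topology
open scoped ENNReal

namespace Pool.Agent.Helper88.SE



theorem flat_levels (K : Set (E 2)) (hK : Body K) (R : ℝ) (hR : 0 < R)
    (hB : Metric.closedBall 0 R ⊆ K) (τ : ℝ) (hτ : |τ| < R)
    (hfl : ∀ N : ℕ, ∃ ε > 0, ∃ C : ℝ, ∀ u w : E 2, ‖u‖ = 1 → ‖w‖ = 1 → ∀ t, |t - τ| < ε →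
      |GK K u t - GK K w t| ≤ C * |t - τ| ^ N) :
    ∀ t : ℝ, |t| < R → ∀ u w : E 2, ‖u‖ = 1 → ‖w‖ = 1 → GK K u t = GK K w t := by
  have hprob : IsProbabilityMeasure (sg 2) := sg_prob 2
  have hnorm : ∀ u : S 2, ‖(u : E 2)‖ = 1 := fun u => by
    have := u.2
    rwa [mem_sphere_zero_iff_norm] at this
  have main : ∀ v : E 2, ‖v‖ = 1 → ∀ k : ℕ, ∀ t : ℝ, |t| < R →
      ∫ u : S 2, (inner ℝ (u : E 2) v) ^ k * GK K (u : E 2) t ∂(sg 2) =
        (∫ u : S 2, (inner ℝ (u : E 2) v) ^ k ∂(sg 2)) * ∫ u : S 2, GK K (u : E 2) t ∂(sg 2) := by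
    intro v hv k
    obtain ⟨P, hP⟩ := poly_G K hK R hR hB v hv k
    have hP0 : P = 0 := by
      apply poly_flat P τ
      intro N
      obtain ⟨ε, hε, C, hC⟩ := hfl N
      refine ⟨min ε (R - |τ|), lt_min hε (by linarith), C, ?_⟩
      intro t ht
      have ht1 : |t - τ| < ε := lt_of_lt_of_le ht (min_le_left _ _)
      have ht2 : |t - τ| < R - |τ| := lt_of_lt_of_le ht (min_le_right _ _)
      have htR : |t| < R := by
        have : |t| ≤ |t - τ| + |τ| := by
          have := abs_add_le (t - τ) τ
          simpa using this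
        linarith
      rw [← hP t htR]
      set g : S 2 → ℝ := fun u => GK K (u : E 2) t with hg
      set a : S 2 → ℝ := fun u => (inner ℝ (u : E 2) v) ^ k with ha
      have hgc : Continuous g := G_u K hK t
      have hac : Continuous a := by
        rw [ha]
        exact (Continuous.inner continuous_subtype_val continuous_const).pow k
      have hgi : Integrable g (sg 2) :=
        hgc.integrable_of_hasCompactSupport (HasCompactSupport.of_compactSpace g)
      have hai : Integrable a (sg 2) :=
        hac.integrable_of_hasCompactSupport (HasCompactSupport.of_compactSpace a)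
      have hagi : Integrable (fun u => a u * g u) (sg 2) :=
        (hac.mul hgc).integrable_of_hasCompactSupport (HasCompactSupport.of_compactSpace _)
      set I : ℝ := ∫ w, g w ∂(sg 2) with hI
      have e1 : (∫ u, a u * g u ∂(sg 2)) - (∫ u, a u ∂(sg 2)) * I
          = ∫ u, a u * (g u - I) ∂(sg 2) := by
        have : (fun u => a u * (g u - I)) = fun u => a u * g u - a u * I := by
          funext u; ring
        rw [this, integral_sub hagi (hai.mul_const I), integral_mul_const]
      have e2 : ∀ u : S 2, |g u - I| ≤ C * |t - τ| ^ N := by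
        intro u
        have h1 : g u - I = ∫ w, (g u - g w) ∂(sg 2) := by
          rw [integral_sub (integrable_const _) hgi, integral_const]
          simp [hI]
        rw [h1]
        have h2 : ‖∫ w, (g u - g w) ∂(sg 2)‖ ≤ (C * |t - τ| ^ N) * (sg 2).real univ := by
          apply norm_integral_le_of_norm_le_const
          refine Filter.Eventually.of_forall fun w => ?_
          rw [Real.norm_eq_abs]
          exact hC u w (hnorm u) (hnorm w) t ht1
        rw [Real.norm_eq_abs] at h2
        simpa using h2
      have e3 : ∀ u : S 2, |a u| ≤ 1 := by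
        intro u
        rw [ha]
        simp only [abs_pow]
        apply pow_le_one₀ (abs_nonneg _)
        have := abs_real_inner_le_norm (u : E 2) v
        rw [hnorm u, hv] at this
        linarith
      have e4 : ‖∫ u, a u * (g u - I) ∂(sg 2)‖ ≤ (C * |t - τ| ^ N) * (sg 2).real univ := by
        apply norm_integral_le_of_norm_le_const
        refine Filter.Eventually.of_forall fun u => ?_
        rw [Real.norm_eq_abs, abs_mul]
        calc |a u| * |g u - I| ≤ 1 * |g u - I| :=
              mul_le_mul_of_nonneg_right (e3 u) (abs_nonneg _)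
          _ ≤ C * |t - τ| ^ N := by rw [one_mul]; exact e2 u
      have e5 : |(∫ u, a u * g u ∂(sg 2)) - (∫ u, a u ∂(sg 2)) * I| ≤ C * |t - τ| ^ N := by
        rw [e1]
        rw [Real.norm_eq_abs] at e4
        simpa using e4
      exact e5
    intro t ht
    have h := hP t ht
    rw [hP0, Polynomial.eval_zero] at h
    linarith
  intro t ht u w hu hw
  have hd := dense_test (fun u : S 2 => GK K (u : E 2) t) (G_u K hK t)
    (fun v hv k => main v hv k t ht)
  have := hd ⟨u, by rw [mem_sphere_zero_iff_norm]; exact hu⟩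
    ⟨w, by rw [mem_sphere_zero_iff_norm]; exact hw⟩
  exact this

end Pool.Agent.Helper88.SE
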