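import Pool.Agent.Helper88.FB.Defs

set_option autoImplicit false

open MeasureTheory Set Filter Topology
open scoped ENNReal

namespace Pool.Agent.Helper88.SE



theorem param771_diff (f : ℝ → ℝ) (l r : ℝ) (hf : ∀ n : ℕ, ContDiffOn ℝ n f (Ioo l r)) (n : ℕ)
    (x : ℝ) (hx : x ∈ Ioo l r) :
    HasDerivAt (fun s => iteratedDeriv n f s) (iteratedDeriv (n + 1) f x) x := by
  have h1 : DifferentiableOn ℝ (iteratedDerivWithin n f (Ioo l r)) (Ioo l r) := by
    refine (hf (n + 1)).differentiableOn_iteratedDerivWithin ?_ isOpen_Ioo.uniqueDiffOn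
    exact_mod_cast Nat.lt_succ_self n
  have h2 : DifferentiableAt ℝ (iteratedDerivWithin n f (Ioo l r)) x :=
    (h1 x hx).differentiableAt (isOpen_Ioo.mem_nhds hx)
  have h3 : iteratedDerivWithin n f (Ioo l r) =ᶠ[𝓝 x] iteratedDeriv n f := by
    filter_upwards [isOpen_Ioo.mem_nhds hx] with y hy
    exact iteratedDerivWithin_of_isOpen isOpen_Ioo hy
  have h4 : DifferentiableAt ℝ (iteratedDeriv n f) x := h3.differentiableAt_iff.mp h2
  have h5 := h4.hasDerivAt
  rw [iteratedDeriv_succ]
  exact h5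

theorem param_int (g : ℝ → ℝ → ℝ) (l r : ℝ) (C : ℕ → ℝ)
    (hg : ∀ n : ℕ, ∀ a, ContDiffOn ℝ n (fun s => g s a) (Ioo l r))
    (hm : ∀ n : ℕ, ∀ s ∈ Ioo l r, Continuous (fun a => iteratedDeriv n (fun s => g s a) s))
    (hC : ∀ n : ℕ, ∀ a, ∀ s ∈ Ioo l r, |iteratedDeriv n (fun s => g s a) s| ≤ C n) :
    ∀ n : ℕ, ContDiffOn ℝ n (fun s => ∫ a in (0 : ℝ)..(2 * Real.pi), g s a) (Ioo l r) ∧
      ∀ s ∈ Ioo l r, |iteratedDeriv n (fun s => ∫ a in (0 : ℝ)..(2 * Real.pi), g s a) s| ≤
        2 * Real.pi * C n := by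
  have hpi := Real.pi_pos
  have hB : ∀ n : ℕ, ∀ s ∈ Ioo l r, HasDerivAt
      (fun s => ∫ a in (0 : ℝ)..(2 * Real.pi), iteratedDeriv n (fun s => g s a) s)
      (∫ a in (0 : ℝ)..(2 * Real.pi), iteratedDeriv (n + 1) (fun s => g s a) s) s := by
    intro n s hs
    refine (intervalIntegral.hasDerivAt_integral_of_dominated_loc_of_deriv_le
      (F := fun s a => iteratedDeriv n (fun s => g s a) s)
      (F' := fun s a => iteratedDeriv (n + 1) (fun s => g s a) s)
      (bound := fun _ => C (n + 1))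
      (isOpen_Ioo.mem_nhds hs) ?_ ?_ ?_ ?_ ?_ ?_).2
    · filter_upwards [isOpen_Ioo.mem_nhds hs] with y hy
      exact (hm n y hy).aestronglyMeasurable
    · exact (hm n s hs).intervalIntegrable _ _
    · exact (hm (n + 1) s hs).aestronglyMeasurable
    · exact Filter.Eventually.of_forall fun a _ x hx => hC (n + 1) a x hx
    · exact intervalIntegrable_const
    · exact Filter.Eventually.of_forall fun a _ x hx =>
        param771_diff (fun s => g s a) l r (fun m => hg m a) n x hx
  have hA : ∀ n : ℕ, ∀ s ∈ Ioo l r,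
      iteratedDeriv n (fun s => ∫ a in (0 : ℝ)..(2 * Real.pi), g s a) s =
      ∫ a in (0 : ℝ)..(2 * Real.pi), iteratedDeriv n (fun s => g s a) s := by
    intro n
    induction n with
    | zero => intro s _; simp only [iteratedDeriv_zero]
    | succ n ih =>
      intro s hs
      rw [iteratedDeriv_succ]
      have h1 : iteratedDeriv n (fun s => ∫ a in (0 : ℝ)..(2 * Real.pi), g s a) =ᶠ[𝓝 s]
          fun s => ∫ a in (0 : ℝ)..(2 * Real.pi), iteratedDeriv n (fun s => g s a) s := by
        filter_upwards [isOpen_Ioo.mem_nhds hs] with y hy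
        exact ih y hy
      rw [h1.deriv_eq]
      exact (hB n s hs).deriv
  intro n
  refine ⟨?_, ?_⟩
  · have h0 : ContDiffOn ℝ ((n : ℕ∞) : WithTop ℕ∞)
        (fun s => ∫ a in (0 : ℝ)..(2 * Real.pi), g s a) (Ioo l r) := by
      refine contDiffOn_of_differentiableOn_deriv ?_
      intro m _
      have h1 : DifferentiableOn ℝ
          (fun s => ∫ a in (0 : ℝ)..(2 * Real.pi), iteratedDeriv m (fun s => g s a) s)
          (Ioo l r) := fun s hs => (hB m s hs).differentiableAt.differentiableWithinAt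
      refine h1.congr fun s hs => ?_
      rw [iteratedDerivWithin_of_isOpen isOpen_Ioo hs]
      exact hA m s hs
    exact_mod_cast h0
  · intro s hs
    rw [hA n s hs]
    have h1 := intervalIntegral.norm_integral_le_of_norm_le_const
      (a := (0:ℝ)) (b := 2 * Real.pi) (C := C n)
      (f := fun a => iteratedDeriv n (fun s => g s a) s) (fun a _ => hC n a s hs)
    rw [Real.norm_eq_abs] at h1
    rw [sub_zero, abs_of_pos (show (0:ℝ) < 2 * Real.pi by positivity)] at h1
    linarith

end Pool.Agent.Helper88.SE
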