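import Pool.Agent.Helper88.FB.Defs

set_option autoImplicit false

open MeasureTheory Set Filter Topology
open scoped ENNReal

namespace Pool.Agent.Helper88.SE



theorem rad_local_zero (K : Set (E 2)) (φ : E 2 → ℝ) (hφc : Continuous φ)
    (hKφ : K = {x | φ x ≤ 0}) (p e : E 2) (R : ℝ) (hR : 0 < R)
    (h : ∀ r : ℝ, 0 ≤ r → (p + r • e ∈ K ↔ r ≤ R)) :
    φ (p + R • e) = 0 ∧ ∀ r, R < r → 0 < φ (p + r • e) := by
  have h1 : φ (p + R • e) ≤ 0 := by
    have := (h R hR.le).2 le_rfl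
    rw [hKφ] at this
    exact this
  have h2 : ∀ r, R < r → 0 < φ (p + r • e) := by
    intro r hr
    by_contra hc
    have h3 : p + r • e ∈ K := by rw [hKφ]; exact not_lt.1 hc
    have := (h r (hR.trans hr).le).1 h3
    linarith
  refine ⟨le_antisymm h1 ?_, h2⟩
  have hc : Continuous fun r : ℝ => φ (p + r • e) := by fun_prop
  have ht : Tendsto (fun r : ℝ => φ (p + r • e)) (𝓝[>] R) (𝓝 (φ (p + R • e))) :=
    (hc.tendsto R).mono_left nhdsWithin_le_nhds
  refine ge_of_tendsto ht ?_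
  filter_upwards [self_mem_nhdsWithin] with r hr
  exact (h2 r hr).le

theorem rad_local_deriv (K : Set (E 2)) (hK : Convex ℝ K) (φ : E 2 → ℝ)
    (hφd : Differentiable ℝ φ)
    (hKφ : K = {x | φ x ≤ 0}) (hreg : ∀ x, φ x = 0 → fderiv ℝ φ x ≠ 0)
    (p e : E 2) (hp : p ∈ interior K) (R : ℝ) (hR : 0 < R) (h0 : φ (p + R • e) = 0) :
    0 < fderiv ℝ φ (p + R • e) e := by
  set x : E 2 := p + R • e with hx
  have hxK : x ∈ K := by rw [hKφ]; exact h0.le
  have hmax : IsLocalMaxOn φ K x := by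
    filter_upwards [self_mem_nhdsWithin] with y hy
    rw [hKφ] at hy
    rw [h0]
    exact hy
  have hD : ∀ y ∈ K, fderiv ℝ φ x (y - x) ≤ 0 := by
    intro y hy
    exact hmax.hasFDerivWithinAt_nonpos (hφd x).hasFDerivAt.hasFDerivWithinAt
      (sub_mem_posTangentConeAt_of_segment_subset (hK.segment_subset hxK hy))
  obtain ⟨w, hw⟩ : ∃ w, 0 < fderiv ℝ φ x w := by
    have hne := hreg x h0
    obtain ⟨w, hw⟩ : ∃ w, fderiv ℝ φ x w ≠ 0 := by
      by_contra hc
      push Not at hc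
      exact hne (ContinuousLinearMap.ext hc)
    rcases lt_or_gt_of_ne hw with h | h
    · exact ⟨-w, by rw [map_neg]; linarith⟩
    · exact ⟨w, h⟩
  obtain ⟨ε, hε, hεK⟩ : ∃ ε : ℝ, 0 < ε ∧ p + ε • w ∈ K := by
    have hc : Tendsto (fun t : ℝ => p + t • w) (𝓝[>] 0) (𝓝 p) := by
      have : Continuous fun t : ℝ => p + t • w := by fun_prop
      have h := this.tendsto 0
      rw [zero_smul, add_zero] at h
      exact h.mono_left nhdsWithin_le_nhds
    have h1 := hc.eventually (mem_interior_iff_mem_nhds.1 hp)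
    obtain ⟨t, ht1, ht2⟩ := (h1.and self_mem_nhdsWithin).exists
    exact ⟨t, ht2, ht1⟩
  have h2 := hD _ hεK
  have h3 : p + ε • w - x = ε • w - R • e := by rw [hx]; abel
  rw [h3, map_sub, map_smul, map_smul, smul_eq_mul, smul_eq_mul] at h2
  have h4 : 0 < ε * fderiv ℝ φ x w := mul_pos hε hw
  have h5 : 0 < R * fderiv ℝ φ x e := by linarith
  exact (mul_pos_iff_of_pos_left hR).1 h5

theorem rad_local (K : Set (E 2)) (hK : Body K) (φ : E 2 → ℝ) (n : ℕ) (hn : 1 ≤ n)
    (hφ : ContDiff ℝ n φ)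
    (hKφ : K = {x | φ x ≤ 0}) (hreg : ∀ x, φ x = 0 → fderiv ℝ φ x ≠ 0)
    (ρ : E 2 × E 2 → ℝ)
    (hρ : ∀ p e : E 2, p ∈ interior K → e ≠ 0 →
        0 < ρ (p, e) ∧ ∀ r : ℝ, 0 ≤ r → (p + r • e ∈ K ↔ r ≤ ρ (p, e)))
    (p e : E 2) (hp : p ∈ interior K) (he : e ≠ 0) :
    φ (p + ρ (p, e) • e) = 0 ∧ 0 < fderiv ℝ φ (p + ρ (p, e) • e) e ∧
      ContinuousAt ρ (p, e) ∧ ContDiffAt ℝ n ρ (p, e) := by
  have hn0 : ((n : ℕ) : WithTop ℕ∞) ≠ 0 := by
    exact_mod_cast (Nat.one_le_iff_ne_zero.1 hn)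
  have hφd : Differentiable ℝ φ := hφ.differentiable hn0
  have hz : ∀ p' e' : E 2, p' ∈ interior K → e' ≠ 0 → φ (p' + ρ (p', e') • e') = 0 ∧
      ∀ r, ρ (p', e') < r → 0 < φ (p' + r • e') := by
    intro p' e' hp' he'
    exact rad_local_zero K φ hφ.continuous hKφ p' e' _ (hρ p' e' hp' he').1 (hρ p' e' hp' he').2
  have h0 := (hz p e hp he).1
  have hR := (hρ p e hp he).1
  have hpos := rad_local_deriv K hK.1 φ hφd hKφ hreg p e hp _ hR h0
  -- neighbourhoods
  have hnb : ∀ᶠ q : E 2 × E 2 in 𝓝 (p, e), q.1 ∈ interior K ∧ q.2 ≠ 0 := by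
    have h1 : ∀ᶠ q : E 2 × E 2 in 𝓝 (p, e), q.1 ∈ interior K :=
      continuous_fst.continuousAt.eventually (isOpen_interior.mem_nhds hp)
    have h2 : ∀ᶠ q : E 2 × E 2 in 𝓝 (p, e), q.2 ≠ 0 :=
      continuous_snd.continuousAt.eventually_ne he
    exact h1.and h2
  have hcont : ContinuousAt ρ (p, e) := by
    refine tendsto_order.2 ⟨fun a ha => ?_, fun b hb => ?_⟩
    · obtain ⟨a', ha1, ha2⟩ := exists_between (max_lt ha hR)
      have ha0 : 0 < a' := (le_max_right _ _).trans_lt ha1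
      have haa : a < a' := (le_max_left _ _).trans_lt ha1
      have hin : p + a' • e ∈ interior K := by
        have hxK : p + ρ (p, e) • e ∈ K := ((hρ p e hp he).2 _ hR.le).2 le_rfl
        have := hK.1.openSegment_interior_self_subset_interior hp hxK
        apply this
        refine ⟨1 - a' / ρ (p, e), a' / ρ (p, e), ?_, div_pos ha0 hR, by ring, ?_⟩
        · rw [sub_pos, div_lt_one hR]; exact ha2
        · rw [smul_add, smul_smul, div_mul_cancel₀ _ hR.ne', ← add_assoc, ← add_smul]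
          congr 1
          rw [sub_add_cancel, one_smul]
      have hev : ∀ᶠ q : E 2 × E 2 in 𝓝 (p, e), q.1 + a' • q.2 ∈ interior K := by
        have hc : Continuous fun q : E 2 × E 2 => q.1 + a' • q.2 := by fun_prop
        exact hc.continuousAt.eventually (isOpen_interior.mem_nhds hin)
      filter_upwards [hev, hnb] with q hq hq2
      have := ((hρ q.1 q.2 hq2.1 hq2.2).2 a' ha0.le).1 (interior_subset hq)
      exact haa.trans_le this
    · have hφb : 0 < φ (p + b • e) := (hz p e hp he).2 b hb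
      have hev : ∀ᶠ q : E 2 × E 2 in 𝓝 (p, e), 0 < φ (q.1 + b • q.2) := by
        have hc : Continuous fun q : E 2 × E 2 => φ (q.1 + b • q.2) := by
          have := hφ.continuous
          fun_prop
        exact hc.continuousAt.eventually_const_lt hφb
      filter_upwards [hev, hnb] with q hq hq2
      by_contra hc
      have h1 := ((hρ q.1 q.2 hq2.1 hq2.2).2 b (hR.trans hb).le).2 (not_lt.1 hc)
      rw [hKφ] at h1
      exact absurd hq (not_lt.2 h1)
  refine ⟨h0, hpos, hcont, ?_⟩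
  -- implicit function
  let f : (E 2 × E 2) × ℝ → ℝ := fun v => φ (v.1.1 + v.2 • v.1.2)
  have hf : ContDiff ℝ n f := by
    apply hφ.comp
    exact (contDiff_fst.fst).add (contDiff_snd.smul contDiff_fst.snd)
  have hfd : (fderiv ℝ f ((p, e), ρ (p, e)) ∘L ContinuousLinearMap.inr ℝ (E 2 × E 2) ℝ).IsInvertible := by
    have hder : ∀ t : ℝ, (fderiv ℝ f ((p, e), ρ (p, e)) ∘L
        ContinuousLinearMap.inr ℝ (E 2 × E 2) ℝ) t = fderiv ℝ φ (p + ρ (p, e) • e) e * t := by
      intro t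
      have h1 : HasFDerivAt (fun r : ℝ => f ((p, e), r))
          (fderiv ℝ f ((p, e), ρ (p, e)) ∘L ContinuousLinearMap.inr ℝ (E 2 × E 2) ℝ)
          (ρ (p, e)) := by
        have hfd0 := ((hf.differentiable hn0) ((p, e), ρ (p, e))).hasFDerivAt
        exact hfd0.comp (ρ (p, e)) (hasFDerivAt_prodMk_right (p, e) (ρ (p, e)))
      have h2 : HasDerivAt (fun r : ℝ => f ((p, e), r)) (fderiv ℝ φ (p + ρ (p, e) • e) e)
          (ρ (p, e)) := by
        have hl : HasDerivAt (fun r : ℝ => p + r • e) e (ρ (p, e)) := by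
          have := ((hasDerivAt_id (ρ (p, e))).smul_const e).const_add p
          simpa using this
        exact (hφd (p + ρ (p, e) • e)).hasFDerivAt.comp_hasDerivAt (ρ (p, e)) hl
      have h3 := h1.unique h2.hasFDerivAt
      rw [h3]
      simp [mul_comm]
    refine ⟨ContinuousLinearEquiv.unitsEquivAut ℝ (Units.mk0 _ hpos.ne'), ?_⟩
    ext
    rw [hder]
    simp
  have himp := (hf.contDiffAt (x := ((p, e), ρ (p, e)))).contDiffAt_implicitFunction hn0 hfd
  have hiff := (hf.contDiffAt (x := ((p, e), ρ (p, e)))).eventually_apply_eq_iff_implicitFunction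
    hn0 hfd
  refine himp.congr_of_eventuallyEq ?_
  have ht : Tendsto (fun q : E 2 × E 2 => (q, ρ q)) (𝓝 (p, e)) (𝓝 ((p, e), ρ (p, e))) :=
    tendsto_id.prodMk_nhds hcont
  filter_upwards [ht.eventually hiff, hnb] with q hq hq2
  have h1 : f (q, ρ q) = f ((p, e), ρ (p, e)) := by
    show φ (q.1 + ρ q • q.2) = φ (p + ρ (p, e) • e)
    rw [h0]
    exact (hz q.1 q.2 hq2.1 hq2.2).1
  exact (hq.1 h1).symm

end Pool.Agent.Helper88.SE
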