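import Pool.Agent.Helper88.FB.Defs
import Pool.Agent.Helper88.FB.P_rad_local

set_option autoImplicit false

open MeasureTheory Set Filter Topology
open scoped ENNReal

namespace Pool.Agent.Helper88.SE



theorem rad (K : Set (E 2)) (hK : Body K) (φ : E 2 → ℝ) (hφ : ∀ n : ℕ, ContDiff ℝ n φ)
    (hKφ : K = {x | φ x ≤ 0}) (hreg : ∀ x, φ x = 0 → fderiv ℝ φ x ≠ 0) :
    ∃ ρ : E 2 × E 2 → ℝ,
      (∀ p e : E 2, p ∈ interior K → e ≠ 0 →
        0 < ρ (p, e) ∧ ∀ r : ℝ, 0 ≤ r → (p + r • e ∈ K ↔ r ≤ ρ (p, e))) ∧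
      ∀ n : ℕ, ContDiffOn ℝ n ρ {q | q.1 ∈ interior K ∧ q.2 ≠ 0} := by
  obtain ⟨hconv, hcomp, hint⟩ := id hK
  set ρ : E 2 × E 2 → ℝ := fun q => sSup {r : ℝ | 0 ≤ r ∧ q.1 + r • q.2 ∈ K} with hρdef
  have hρ : ∀ p e : E 2, p ∈ interior K → e ≠ 0 →
        0 < ρ (p, e) ∧ ∀ r : ℝ, 0 ≤ r → (p + r • e ∈ K ↔ r ≤ ρ (p, e)) := by
    intro p e hp he
    have hpK : p ∈ K := interior_subset hp
    have hne : 0 < ‖e‖ := norm_pos_iff.2 he
    set T : Set ℝ := {r : ℝ | 0 ≤ r ∧ p + r • e ∈ K} with hT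
    have hρT : ρ (p, e) = sSup T := rfl
    obtain ⟨R, hR⟩ := hcomp.isBounded.subset_closedBall (0 : E 2)
    have hbdd : BddAbove T := by
      refine ⟨(R + ‖p‖) / ‖e‖, ?_⟩
      rintro r ⟨hr0, hr⟩
      rw [le_div_iff₀ hne]
      have h1 : ‖p + r • e‖ ≤ R := by simpa using hR hr
      have h2 : ‖r • e‖ ≤ ‖p + r • e‖ + ‖p‖ := by
        calc ‖r • e‖ = ‖(p + r • e) - p‖ := by rw [add_sub_cancel_left]
          _ ≤ _ := norm_sub_le _ _
      rw [norm_smul, Real.norm_of_nonneg hr0] at h2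
      linarith
    have hcl : IsClosed T := by
      have h1 : Continuous (fun r : ℝ => p + r • e) := by fun_prop
      exact (isClosed_Ici (a := (0 : ℝ))).inter (hcomp.isClosed.preimage h1)
    have hT0 : (0 : ℝ) ∈ T := ⟨le_rfl, by simpa using hpK⟩
    have hmem : sSup T ∈ T := hcl.csSup_mem ⟨0, hT0⟩ hbdd
    have hpos : 0 < sSup T := by
      obtain ⟨ε, hε, hball⟩ := Metric.isOpen_iff.1 isOpen_interior p hp
      have h1 : ε / (2 * ‖e‖) ∈ T := by
        refine ⟨by positivity, interior_subset (hball ?_)⟩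
        rw [Metric.mem_ball, dist_eq_norm, add_sub_cancel_left, norm_smul,
          Real.norm_of_nonneg (by positivity)]
        have : ε / (2 * ‖e‖) * ‖e‖ = ε / 2 := by field_simp
        rw [this]
        linarith
      exact lt_of_lt_of_le (by positivity) (le_csSup hbdd h1)
    rw [hρT]
    refine ⟨hpos, fun r hr0 => ⟨fun hr => le_csSup hbdd ⟨hr0, hr⟩, fun hr => ?_⟩⟩
    have hl0 : 0 ≤ r / sSup T := div_nonneg hr0 hpos.le
    have hl1 : r / sSup T ≤ 1 := (div_le_one hpos).2 hr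
    have hc := hconv hpK hmem.2 (sub_nonneg.2 hl1) hl0 (by ring)
    have h3 : (1 - r / sSup T) • p + (r / sSup T) • (p + sSup T • e) = p + r • e := by
      rw [smul_add, smul_smul, div_mul_cancel₀ _ hpos.ne', sub_smul, one_smul]
      abel
    rw [h3] at hc
    exact hc
  refine ⟨ρ, hρ, fun n => ?_⟩
  intro q hq
  have h := (rad_local K hK φ (max n 1) (le_max_right _ _) (hφ (max n 1)) hKφ hreg ρ hρ q.1 q.2
    hq.1 hq.2).2.2.2
  have h2 : ContDiffAt ℝ n ρ (q.1, q.2) := h.of_le (by exact_mod_cast le_max_left n 1)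
  exact h2.contDiffWithinAt

end Pool.Agent.Helper88.SE
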