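import Pool.Agent.Helper88.FB.Defs

set_option autoImplicit false

open MeasureTheory Set Filter Topology
open scoped ENNReal

namespace Pool.Agent.Helper88.SE



theorem rad_iter_smooth {V : Type*} [NormedAddCommGroup V] [NormedSpace ℝ V] (Ω : Set (ℝ × V))
    (hΩ : IsOpen Ω) (H : ℝ × V → ℝ) (hH : ∀ m : ℕ, ContDiffOn ℝ m H Ω) :
    ∀ n : ℕ, ∃ G : ℝ × V → ℝ, (∀ m : ℕ, ContDiffOn ℝ m G Ω) ∧
      ∀ p ∈ Ω, iteratedDeriv n (fun s : ℝ => H (s, p.2)) p.1 = G p := by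
  intro n
  induction n with
  | zero => exact ⟨H, hH, fun p _ => by simp⟩
  | succ n ih =>
    obtain ⟨G, hG, hGe⟩ := ih
    refine ⟨fun p => fderiv ℝ G p (1, 0), fun m => ?_, fun p hp => ?_⟩
    · have h1 : ContDiffOn ℝ m (fderiv ℝ G) Ω :=
        (hG (m+1)).fderiv_of_isOpen hΩ (by push_cast; exact le_rfl)
      exact h1.clm_apply contDiffOn_const
    · rw [iteratedDeriv_succ]
      have hev : iteratedDeriv n (fun s : ℝ => H (s, p.2)) =ᶠ[nhds p.1] fun s => G (s, p.2) := by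
        have hc : ContinuousAt (fun s : ℝ => (s, p.2)) p.1 := by fun_prop
        filter_upwards [hc.preimage_mem_nhds (hΩ.mem_nhds (by simpa using hp))] with s hs
        exact hGe (s, p.2) hs
      rw [hev.deriv_eq]
      have hd : HasFDerivAt G (fderiv ℝ G p) p :=
        (((hG 1).contDiffAt (hΩ.mem_nhds hp)).differentiableAt (by norm_num)).hasFDerivAt
      have hline : HasDerivAt (fun s : ℝ => (s, p.2)) ((1 : ℝ), (0 : V)) p.1 :=
        (hasDerivAt_id p.1).prodMk (hasDerivAt_const p.1 p.2)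
      have := hd.comp_hasDerivAt_of_eq p.1 hline rfl
      exact this.deriv

theorem rad_bound (K : Set (E 2)) (R : ℝ) (hR : 0 < R) (hB : Metric.ball 0 R ⊆ interior K)
    (ρ : E 2 × E 2 → ℝ) (hρ : ∀ n : ℕ, ContDiffOn ℝ n ρ {q | q.1 ∈ interior K ∧ q.2 ≠ 0})
    (τ : ℝ) (hτ : |τ| < R) :
    ∃ ε > 0, |τ| + ε < R ∧ ∃ C : ℕ → ℝ, ∀ n : ℕ, ∀ u : E 2, ‖u‖ = 1 → 
      (∀ e : E 2, ‖e‖ = 1 →
        ContDiffOn ℝ n (fun s : ℝ => ρ (s • u, e) ^ 2 / 2) (Ioo (τ - ε) (τ + ε)) ∧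
        ∀ s ∈ Ioo (τ - ε) (τ + ε), |iteratedDeriv n (fun s : ℝ => ρ (s • u, e) ^ 2 / 2) s| ≤ C n) ∧
      ∀ s ∈ Ioo (τ - ε) (τ + ε),
        ContinuousOn (fun e : E 2 => iteratedDeriv n (fun s : ℝ => ρ (s • u, e) ^ 2 / 2) s)
          (Metric.sphere 0 1) := by
  obtain ⟨Ω, hΩd⟩ : ∃ Ω : Set (ℝ × (E 2 × E 2)), Ω = {p | ‖p.1 • p.2.1‖ < R ∧ p.2.2 ≠ 0} :=
    ⟨_, rfl⟩
  have hΩ : IsOpen Ω := by
    rw [hΩd]
    refine IsOpen.inter ?_ ?_
    · exact isOpen_lt (f := fun p : ℝ × (E 2 × E 2) => ‖p.1 • p.2.1‖) (g := fun _ => R)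
        (by fun_prop) continuous_const
    · exact isOpen_ne_fun (f := fun p : ℝ × (E 2 × E 2) => p.2.2) (g := fun _ => 0)
        (by fun_prop) continuous_const
  let H : ℝ × (E 2 × E 2) → ℝ := fun p => ρ (p.1 • p.2.1, p.2.2) ^ 2 / 2
  have hH : ∀ m : ℕ, ContDiffOn ℝ m H Ω := by
    intro m
    have h1 : ContDiffOn ℝ m (fun p : ℝ × (E 2 × E 2) => (p.1 • p.2.1, p.2.2)) Ω := by
      apply ContDiff.contDiffOn
      fun_prop
    have h2 : ContDiffOn ℝ m (fun p : ℝ × (E 2 × E 2) => ρ (p.1 • p.2.1, p.2.2)) Ω := by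
      refine (hρ m).comp h1 ?_
      intro p hp
      rw [hΩd] at hp
      exact ⟨hB (by simpa using hp.1), hp.2⟩
    exact (h2.pow 2).div_const 2
  choose G hG hGe using rad_iter_smooth Ω hΩ H hH
  have hε : 0 < (R - |τ|) / 2 := by linarith
  obtain ⟨ε, hεd⟩ : ∃ ε, ε = (R - |τ|) / 2 := ⟨_, rfl⟩
  rw [← hεd] at hε
  have hετ : |τ| + ε < R := by rw [hεd]; linarith
  obtain ⟨Z, hZd⟩ : ∃ Z : Set (ℝ × (E 2 × E 2)), Z = Icc (τ - ε) (τ + ε) ×ˢ
    (Metric.sphere (0 : E 2) 1 ×ˢ Metric.sphere (0 : E 2) 1) := ⟨_, rfl⟩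
  have hZ : IsCompact Z := by
    rw [hZd]
    exact isCompact_Icc.prod ((isCompact_sphere _ _).prod (isCompact_sphere _ _))
  have hZΩ : ∀ s ∈ Icc (τ - ε) (τ + ε), ∀ u e : E 2, ‖u‖ = 1 → ‖e‖ = 1 → (s, (u, e)) ∈ Ω := by
    intro s hs u e hu he
    rw [hΩd]
    refine ⟨?_, ?_⟩
    · have h1 : |s| ≤ |τ| + ε := by
        rw [abs_le]
        have h2 := neg_abs_le τ
        have h3 := le_abs_self τ
        exact ⟨by linarith [hs.1], by linarith [hs.2]⟩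
      simp only [norm_smul, Real.norm_eq_abs, hu, mul_one]
      linarith
    · intro h
      simp only at h
      rw [h] at he
      simp at he
  have hZs : Z ⊆ Ω := by
    rintro ⟨s, u, e⟩ hp
    rw [hZd] at hp
    obtain ⟨h1, h2, h3⟩ := hp
    exact hZΩ s h1 u e (by simpa using h2) (by simpa using h3)
  have hbd : ∀ n, ∃ C, ∀ p ∈ Z, ‖G n p‖ ≤ C := fun n =>
    hZ.exists_bound_of_continuousOn (((hG n 0).continuousOn).mono hZs)
  choose C hC using hbd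
  refine ⟨ε, hε, hετ, C, fun n u hu => ⟨fun e he => ⟨?_, fun s hs => ?_⟩, fun s hs => ?_⟩⟩
  · have h1 : ContDiffOn ℝ n (fun s : ℝ => (s, (u, e))) (Ioo (τ - ε) (τ + ε)) := by
      apply ContDiff.contDiffOn
      fun_prop
    exact (hH n).comp h1 (fun s hs => hZΩ s (Ioo_subset_Icc_self hs) u e hu he)
  · have h1 := hGe n (s, (u, e)) (hZΩ s (Ioo_subset_Icc_self hs) u e hu he)
    have h2 := hC n (s, (u, e)) (by
      rw [hZd]
      exact ⟨Ioo_subset_Icc_self hs, by simpa using hu, by simpa using he⟩)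
    rw [← h1] at h2
    exact h2
  · have h1 : ContinuousOn (fun e : E 2 => G n (s, (u, e))) (Metric.sphere 0 1) := by
      refine ((hG n 0).continuousOn).comp (by fun_prop) ?_
      intro e he
      exact hZΩ s (Ioo_subset_Icc_self hs) u e hu (by simpa using he)
    refine h1.congr ?_
    intro e he
    exact hGe n (s, (u, e)) (hZΩ s (Ioo_subset_Icc_self hs) u e hu (by simpa using he))

end Pool.Agent.Helper88.SE
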