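import Pool.Agent.Helper88.FB.Defs
import Pool.Agent.Helper88.FB.P_G_t
import Pool.Agent.Helper88.FB.P_rad
import Pool.Agent.Helper88.FB.P_area
import Pool.Agent.Helper88.FB.P_param_int
import Pool.Agent.Helper88.FB.P_rad_bound

set_option autoImplicit false

open MeasureTheory Set Filter Topology
open scoped ENNReal

namespace Pool.Agent.Helper88.SE



theorem exists_frame (u : E 2) (hu : ‖u‖ = 1) : ∃ e f : E 2, ‖e‖ = 1 ∧ ‖f‖ = 1 ∧
    inner ℝ u e = 0 ∧ inner ℝ u f = 0 ∧ inner ℝ e f = 0 := by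
  have hv : Orthonormal ℝ (({0} : Set (Fin 3)).restrict (fun _ : Fin 3 => u)) := by
    constructor
    · intro i; exact hu
    · intro i j hij
      exact absurd (Subsingleton.elim i j) hij
  obtain ⟨b, hb⟩ := hv.exists_orthonormalBasis_extension_of_card_eq (by simp)
  have h0 : b 0 = u := hb 0 (by simp)
  refine ⟨b 1, b 2, b.orthonormal.1 1, b.orthonormal.1 2, ?_, ?_, ?_⟩
  · rw [← h0]; exact b.orthonormal.2 (by decide)
  · rw [← h0]; exact b.orthonormal.2 (by decide)
  · exact b.orthonormal.2 (by decide)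

theorem norm_w (e f : E 2) (he : ‖e‖ = 1) (hf : ‖f‖ = 1) (hef : inner ℝ e f = 0) (a : ℝ) :
    ‖Real.cos a • e + Real.sin a • f‖ = 1 := by
  have h : ‖Real.cos a • e + Real.sin a • f‖ ^ 2 = 1 := by
    rw [norm_add_sq_real, inner_smul_left, inner_smul_right, hef, norm_smul, norm_smul, he, hf]
    simp only [Real.norm_eq_abs, mul_one, sq_abs, mul_zero, add_zero]
    exact Real.cos_sq_add_sin_sq a
  have h2 : 0 ≤ ‖Real.cos a • e + Real.sin a • f‖ := norm_nonneg _
  nlinarith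

theorem smooth_G (K : Set (E 2)) (hK : Body K) (φ : E 2 → ℝ) (hφ : ∀ n : ℕ, ContDiff ℝ n φ)
    (hKφ : K = {x | φ x ≤ 0}) (hreg : ∀ x, φ x = 0 → fderiv ℝ φ x ≠ 0) (R : ℝ) (hR : 0 < R)
    (hB : Metric.closedBall 0 R ⊆ K) (τ : ℝ) (hτ : |τ| < R) :
    ∃ ε > 0, ∃ C : ℕ → ℝ, ∀ n : ℕ, ∀ u : E 2, ‖u‖ = 1 →
      ContDiffOn ℝ n (GK K u) (Ioo (τ - ε) (τ + ε)) ∧
      ∀ t ∈ Ioo (τ - ε) (τ + ε), |iteratedDeriv n (GK K u) t| ≤ C n := by
  obtain ⟨ρ, hρ, hρs⟩ := rad K hK φ hφ hKφ hreg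
  have hBint : Metric.ball 0 R ⊆ interior K :=
    interior_maximal (Metric.ball_subset_closedBall.trans hB) Metric.isOpen_ball
  obtain ⟨ε, hε, hτε, C, hC⟩ := rad_bound K R hR hBint ρ hρs τ hτ
  refine ⟨ε, hε, fun n => Nat.casesOn n (volume K).toReal (fun n => 2 * Real.pi * C n), ?_⟩
  intro n u hu
  obtain ⟨e, f, he, hf, hue, huf, hef⟩ := exists_frame u hu
  have hw := norm_w e f he hf hef
  have hwc : Continuous fun a : ℝ => Real.cos a • e + Real.sin a • f := by fun_prop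
  obtain ⟨hV, hGc, hGm, hGb, -⟩ := G_t K hK u hu
  set I := Ioo (τ - ε) (τ + ε) with hI
  let A : ℝ → ℝ := fun s => ∫ a in (0 : ℝ)..(2 * Real.pi),
      ρ (s • u, Real.cos a • e + Real.sin a • f) ^ 2 / 2
  have hA : ∀ n : ℕ, ContDiffOn ℝ n A I ∧ ∀ s ∈ I, |iteratedDeriv n A s| ≤ 2 * Real.pi * C n :=
    param_int (fun s a => ρ (s • u, Real.cos a • e + Real.sin a • f) ^ 2 / 2) (τ - ε) (τ + ε) C
      (fun n a => ((hC n u hu).1 _ (hw a)).1)
      (fun n s hs => ((hC n u hu).2 s hs).comp_continuous hwc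
        (fun a => by rw [mem_sphere_zero_iff_norm]; exact hw a))
      (fun n a s hs => ((hC n u hu).1 _ (hw a)).2 s hs)
  have hAc : ContinuousOn A I := (hA 0).1.continuousOn
  have hbd : ∀ s ∈ I, -R < s ∧ s < R := by
    intro s hs
    have h1 := neg_abs_le τ
    have h2 := le_abs_self τ
    exact ⟨by linarith [hs.1], by linarith [hs.2]⟩
  have hder : ∀ t ∈ I, HasDerivAt (GK K u) (A t) t := by
    intro t ht
    set c := (τ - ε + t) / 2 with hc
    have hct : c < t := by rw [hc]; linarith [ht.1]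
    have hcI : c ∈ I := ⟨by rw [hc]; linarith [ht.1], lt_trans hct ht.2⟩
    have hsub : uIcc c t ⊆ I := by
      rw [uIcc_of_le hct.le]
      intro x hx
      exact ⟨lt_of_lt_of_le hcI.1 hx.1, lt_of_le_of_lt hx.2 ht.2⟩
    have h1 : HasDerivAt (fun s => ∫ x in c..s, A x) (A t) t :=
      intervalIntegral.integral_hasDerivAt_right (hAc.mono hsub).intervalIntegrable
        (hAc.stronglyMeasurableAtFilter isOpen_Ioo t ht) (hAc.continuousAt (isOpen_Ioo.mem_nhds ht))
    have h2 : HasDerivAt (fun s => GK K u c + ∫ x in c..s, A x) (A t) t := h1.const_add _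
    refine h2.congr_of_eventuallyEq ?_
    filter_upwards [isOpen_Ioo.mem_nhds (show t ∈ Ioo c (τ + ε) from ⟨hct, ht.2⟩)] with s hs
    have hsI : s ∈ I := ⟨lt_trans hcI.1 hs.1, hs.2⟩
    have := area K hK R hR hB ρ hρ (hρs 0).continuousOn u e f hu he hf hue huf hef c s
      (hbd c hcI).1 hs.1.le (hbd s hsI).2
    show GK K u s = GK K u c + ∫ x in c..s, A x
    have h3 : (∫ x in c..s, A x) = GK K u s - GK K u c := this.symm
    rw [h3]; ring
  have hdeq : ∀ t ∈ I, deriv (GK K u) t = A t := fun t ht => (hder t ht).deriv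
  cases n with
  | zero =>
    refine ⟨?_, fun t _ => ?_⟩
    · have : ContDiffOn ℝ 0 (GK K u) I := contDiffOn_zero.2 hGc.continuousOn
      exact_mod_cast this
    · rw [iteratedDeriv_zero, abs_of_nonneg (hGb t).1]
      exact (hGb t).2
  | succ n =>
    refine ⟨?_, fun t ht => ?_⟩
    · have h : ContDiffOn ℝ ((n : WithTop ℕ∞) + 1) (GK K u) I := by
        rw [contDiffOn_succ_iff_deriv_of_isOpen isOpen_Ioo]
        refine ⟨fun t ht => (hder t ht).differentiableAt.differentiableWithinAt, ?_, ?_⟩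
        · intro h
          exact absurd h (by simp)
        · exact ((hA n).1).congr hdeq
      exact_mod_cast h
    · rw [iteratedDeriv_succ']
      have heq : deriv (GK K u) =ᶠ[𝓝 t] A := by
        filter_upwards [isOpen_Ioo.mem_nhds ht] with s hs
        exact hdeq s hs
      rw [heq.iteratedDeriv_eq]
      exact (hA n).2 t ht

end Pool.Agent.Helper88.SE
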