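import Pool.Agent.Helper88.FB.Defs
import Pool.Agent.Helper88.FB.P_G_t
import Pool.Agent.Helper88.FB.P_F_const
import Pool.Agent.Helper88.FB.P_F_layer

set_option autoImplicit false

open MeasureTheory Set Filter Topology
open scoped ENNReal

namespace Pool.Agent.Helper88.SE



theorem touch_core (K : Set (E 2)) (hK : Body K) (h0 : ∫ x in K, x = 0) (d : ℝ) (hd : 0 < d)
    (hd1 : d < 1) (hF : Floats K d)
    (hacc : ∀ ε > 0, ∃ d', d < d' ∧ d' < d + ε ∧ d' < 1 ∧ Floats K d') (τ : ℝ)
    (hτ : ∀ u, ‖u‖ = 1 → GK K u τ = d * (volume K).toReal) (u w : E 2) (hu : ‖u‖ = 1)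
    (hw : ‖w‖ = 1) (ε : ℝ) (hε : 0 < ε)
    (hlt : ∀ t, τ < t → t < τ + ε → GK K w t < GK K u t) : False := by
  obtain ⟨hV, hcu, hmu, hbu, hsu⟩ := G_t K hK u hu
  obtain ⟨-, hcw, hmw, hbw, hsw⟩ := G_t K hK w hw
  have hq1 : d * (volume K).toReal < GK K w (τ + ε / 2) := by
    by_cases h : GK K w (τ + ε / 2) < (volume K).toReal
    · have := hsw τ (τ + ε / 2) (by linarith) (by rw [hτ w hw]; positivity) h
      rwa [hτ w hw] at this
    · push Not at h
      have : d * (volume K).toReal < 1 * (volume K).toReal := mul_lt_mul_of_pos_right hd1 hV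
      linarith
  have hε' : 0 < GK K w (τ + ε / 2) / (volume K).toReal - d := by
    rw [sub_pos, lt_div_iff₀ hV]
    exact hq1
  obtain ⟨d', hdd', hd', hd'1, hF'⟩ := hacc _ hε'
  have hq2 : d' * (volume K).toReal < GK K w (τ + ε / 2) := by
    have : d' < GK K w (τ + ε / 2) / (volume K).toReal := by linarith
    exact (lt_div_iff₀ hV).1 this
  have hq3 : d * (volume K).toReal < d' * (volume K).toReal := mul_lt_mul_of_pos_right hdd' hV
  obtain ⟨tu, htu0, -⟩ := hF' u hu
  obtain ⟨tw, htw0, -⟩ := hF' w hw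
  have htu : GK K u tu = d' * (volume K).toReal := htu0
  have htw : GK K w tw = d' * (volume K).toReal := htw0
  have h1 : τ < tu := by
    by_contra h
    push Not at h
    have := hmu h
    rw [htu, hτ u hu] at this
    linarith
  have h2 : τ < tw := by
    by_contra h
    push Not at h
    have := hmw h
    rw [htw, hτ w hw] at this
    linarith
  have h3 : tw < τ + ε / 2 := by
    by_contra h
    push Not at h
    have := hmw h
    rw [htw] at this
    linarith
  have h4 : tu < tw := by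
    by_contra h
    push Not at h
    have h5 := hmu h
    have h6 := hlt tw h2 (by linarith)
    rw [htu] at h5
    rw [htw] at h6
    linarith
  obtain ⟨m, hm⟩ := F_const K hK h0 d hd hd1 hF
  obtain ⟨m', hm'⟩ := F_const K hK h0 d' (by linarith) hd'1 hF'
  have e1 := hm u hu τ (hτ u hu)
  have e2 := hm w hw τ (hτ w hw)
  have e3 := hm' u hu tu htu
  have e4 := hm' w hw tw htw
  have l1 := F_layer K hK u hu τ tu h1.le
  have l2 := F_layer K hK w hw τ tw h2.le
  rw [e1, e3, htu, hτ u hu] at l1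
  rw [e2, e4, htw, hτ w hw] at l2
  have s1 : ∫ s in τ..tw, GK K w s = (∫ s in τ..tu, GK K w s) + ∫ s in tu..tw, GK K w s :=
    (intervalIntegral.integral_add_adjacent_intervals (hcw.intervalIntegrable _ _)
      (hcw.intervalIntegrable _ _)).symm
  have s2 : ∫ s in τ..tu, GK K w s < ∫ s in τ..tu, GK K u s := by
    apply intervalIntegral.integral_lt_integral_of_continuousOn_of_le_of_exists_lt h1
      hcw.continuousOn hcu.continuousOn
    · intro x hx
      exact (hlt x hx.1 (by linarith [hx.2])).le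
    · exact ⟨tu, ⟨h1.le, le_rfl⟩, hlt tu h1 (by linarith)⟩
  have s3 : ∫ s in tu..tw, GK K w s ≤ ∫ s in tu..tw, (d' * (volume K).toReal) := by
    apply intervalIntegral.integral_mono_on h4.le (hcw.intervalIntegrable _ _)
      (continuous_const.intervalIntegrable _ _)
    intro x hx
    rw [← htw]
    exact hmw hx.2
  rw [intervalIntegral.integral_const, smul_eq_mul] at s3
  nlinarith

theorem touch (K : Set (E 2)) (hK : Body K) (h0 : ∫ x in K, x = 0) (d : ℝ) (hd : 0 < d)
    (hd1 : d < 1) (hF : Floats K d)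
    (hacc : ∀ ε > 0, ∃ d', d < d' ∧ d' < d + ε ∧ d' < 1 ∧ Floats K d') (τ : ℝ)
    (hτ : ∀ u, ‖u‖ = 1 → GK K u τ = d * (volume K).toReal) (u w : E 2) (hu : ‖u‖ = 1)
    (hw : ‖w‖ = 1) (ε : ℝ) (hε : 0 < ε) :
    ∃ t, τ < t ∧ t < τ + ε ∧ GK K u t = GK K w t := by
  by_contra hcon
  push Not at hcon
  obtain ⟨-, hcu, -, -, -⟩ := G_t K hK u hu
  obtain ⟨-, hcw, -, -, -⟩ := G_t K hK w hw
  have gen : ∀ f g : ℝ → ℝ, Continuous f → Continuous g →
      (∀ t, τ < t → t < τ + ε → f t ≠ g t) → f (τ + ε / 2) < g (τ + ε / 2) →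
      ∀ t, τ < t → t < τ + ε → f t < g t := by
    intro f g hf hg hne h t h1 h2
    by_contra h3
    push Not at h3
    obtain ⟨c, hc, hc2⟩ := (isPreconnected_Ioo (a := τ) (b := τ + ε)).intermediate_value₂
      (a := τ + ε / 2) (b := t) ⟨by linarith, by linarith⟩ ⟨h1, h2⟩ hf.continuousOn
      hg.continuousOn h.le h3
    exact hne c hc.1 hc.2 hc2
  rcases lt_or_gt_of_ne (hcon (τ + ε / 2) (by linarith) (by linarith)) with h | h
  · exact touch_core K hK h0 d hd hd1 hF hacc τ hτ w u hw hu ε hε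
      (gen _ _ hcu hcw hcon h)
  · exact touch_core K hK h0 d hd hd1 hF hacc τ hτ u w hu hw ε hε
      (gen _ _ hcw hcu (fun t h1 h2 => (hcon t h1 h2).symm) h)

end Pool.Agent.Helper88.SE
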