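import Pool.Agent.Helper88.FB.Defs
import Pool.Agent.Helper88.FB.P_G_t
import Pool.Agent.Helper88.FB.P_level_const
import Pool.Agent.Helper88.FB.P_inrad
import Pool.Agent.Helper88.FB.P_level_range
import Pool.Agent.Helper88.FB.P_is_ball
import Pool.Agent.Helper88.FB.P_touch
import Pool.Agent.Helper88.FB.P_flat
import Pool.Agent.Helper88.FB.P_flat_levels
import Pool.Agent.Helper88.FB.P_smooth_G

set_option autoImplicit false

open MeasureTheory Set Filter Topology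
open scoped ENNReal

namespace Pool.Agent.Helper88.SE



theorem smooth_one (K : Set (E 2)) (hK : Body K) (h0 : ∫ x in K, x = 0)
    (φ : E 2 → ℝ) (hφ : ∀ n : ℕ, ContDiff ℝ n φ)
    (hKφ : K = {x | φ x ≤ 0}) (hreg : ∀ x, φ x = 0 → fderiv ℝ φ x ≠ 0)
    (d : ℝ) (hd : 0 < d) (hd1 : d < 1) (hF : Floats K d)
    (hacc : ∀ ε > 0, ∃ d', d < d' ∧ d' < d + ε ∧ d' < 1 ∧ Floats K d') :
    ∃ R : ℝ, 0 < R ∧ K = Metric.closedBall 0 R := by
  obtain ⟨τ, hτ⟩ := level_const K hK h0 d hd hd1 hF hacc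
  obtain ⟨R, v, hR, hv, hB, hKv⟩ := inrad K hK h0
  have hτR := level_range K hK R v hR hv hKv τ d hd hd1 hτ
  obtain ⟨ε, hε, C, hC⟩ := smooth_G K hK φ hφ hKφ hreg R hR hB τ hτR
  refine ⟨R, hR, is_ball K hK R v hR hv hB hKv ?_⟩
  apply flat_levels K hK R hR hB τ hτR
  intro N
  refine ⟨ε, hε, 2 * C N, ?_⟩
  intro u w hu hw t ht
  have hmem : t ∈ Ioo (τ - ε) (τ + ε) := by
    rw [abs_lt] at ht
    exact ⟨by linarith [ht.1], by linarith [ht.2]⟩
  refine flat (fun s => GK K u s - GK K w s) τ ε N (2 * C N) hε ?_ ?_ ?_ t hmem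
  · exact (hC N u hu).1.sub (hC N w hw).1
  · intro s hs
    have hnhds : Ioo (τ - ε) (τ + ε) ∈ 𝓝 s := isOpen_Ioo.mem_nhds hs
    have h1 : ContDiffAt ℝ N (GK K u) s := (hC N u hu).1.contDiffAt hnhds
    have h2 : ContDiffAt ℝ N (GK K w) s := (hC N w hw).1.contDiffAt hnhds
    have e : iteratedDeriv N (fun s => GK K u s - GK K w s) s =
        iteratedDeriv N (GK K u) s - iteratedDeriv N (GK K w) s := iteratedDeriv_fun_sub h1 h2
    rw [e]
    have a1 := (hC N u hu).2 s hs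
    have a2 := (hC N w hw).2 s hs
    rw [abs_le] at a1 a2 ⊢
    constructor <;> linarith [a1.1, a1.2, a2.1, a2.2]
  · intro η hη
    obtain ⟨s, h1, h2, h3⟩ := touch K hK h0 d hd hd1 hF hacc τ hτ u w hu hw η hη
    exact ⟨s, h1, h2, by simp only [h3, sub_self]⟩

end Pool.Agent.Helper88.SE
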