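import Pool.Agent.Helper88.FB.Defs
import Pool.Agent.Helper88.FB.P_floats_closed
import Pool.Agent.Helper88.FB.P_floats_compl
import Pool.Agent.Helper88.FB.P_acc_zero
import Pool.Agent.Helper88.FB.P_smooth_one

set_option autoImplicit false

open MeasureTheory Set Filter Topology
open scoped ENNReal

namespace Pool.Agent.Helper88.SE



theorem smooth_centred (K : Set (E 2)) (hK : Body K) (h0 : ∫ x in K, x = 0)
    (φ : E 2 → ℝ) (hφ : ∀ n : ℕ, ContDiff ℝ n φ)
    (hKφ : K = {x | φ x ≤ 0}) (hreg : ∀ x, φ x = 0 → fderiv ℝ φ x ≠ 0)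
    (hD : {d : ℝ | 0 < d ∧ d < 1 ∧ Floats K d}.Infinite) :
    ∃ R : ℝ, 0 < R ∧ K = Metric.closedBall 0 R := by
  obtain ⟨p, hp, hacc⟩ := hD.exists_accPt_of_subset_isCompact (isCompact_Icc (a := (0:ℝ)) (b := 1))
    (fun d hd => ⟨hd.1.le, hd.2.1.le⟩)
  rw [accPt_iff_frequently] at hacc
  have key : ∀ ε > 0, ∃ d, d ≠ p ∧ |d - p| < ε ∧ 0 < d ∧ d < 1 ∧ Floats K d := by
    intro ε hε
    have h1 : ∀ᶠ y in 𝓝 p, |y - p| < ε := by
      have := Metric.ball_mem_nhds p hε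
      filter_upwards [this] with y hy
      rwa [Metric.mem_ball, Real.dist_eq] at hy
    obtain ⟨y, ⟨h2, h3⟩, h4⟩ := (hacc.and_eventually h1).exists
    exact ⟨y, h2, h4, h3.1, h3.2.1, h3.2.2⟩
  rcases hp.1.eq_or_lt with h | hp0
  · subst h
    apply acc_zero K hK h0
    intro ε hε
    obtain ⟨d, _, h2, h3, h4, h5⟩ := key ε hε
    rw [sub_zero, abs_of_pos h3] at h2
    exact ⟨d, h3, h2, h4, h5⟩
  rcases hp.2.eq_or_lt with h | hp1
  · subst h
    apply acc_zero K hK h0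
    intro ε hε
    obtain ⟨d, _, h2, h3, h4, h5⟩ := key ε hε
    rw [abs_lt] at h2
    exact ⟨1 - d, by linarith, by linarith [h2.1], by linarith, floats_compl K hK d h3 h4 h5⟩
  have hFp : Floats K p := by
    apply floats_closed K hK p hp0 hp1
    intro ε hε
    obtain ⟨d, _, h2, h3, h4, h5⟩ := key ε hε
    exact ⟨d, h3, h4, h2, h5⟩
  by_cases hright : ∀ ε > 0, ∃ d', p < d' ∧ d' < p + ε ∧ d' < 1 ∧ Floats K d'
  · exact smooth_one K hK h0 φ hφ hKφ hreg p hp0 hp1 hFp hright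
  · push Not at hright
    obtain ⟨ε₀, hε₀, hnone⟩ := hright
    apply smooth_one K hK h0 φ hφ hKφ hreg (1 - p) (by linarith) (by linarith)
      (floats_compl K hK p hp0 hp1 hFp)
    intro ε hε
    obtain ⟨d, h1, h2, h3, h4, h5⟩ := key (min ε ε₀) (lt_min hε hε₀)
    rw [abs_lt] at h2
    have h6 : min ε ε₀ ≤ ε := min_le_left _ _
    have h7 : min ε ε₀ ≤ ε₀ := min_le_right _ _
    have hdp : d < p := by
      rcases lt_or_gt_of_ne h1 with h | h
      · exact h
      · exact absurd h5 (hnone d h (by linarith [h2.2]) h4)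
    exact ⟨1 - d, by linarith, by linarith [h2.1], by linarith, floats_compl K hK d h3 h4 h5⟩

end Pool.Agent.Helper88.SE
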