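import Pool.Agent.Helper88.FB.Defs
import Pool.Agent.Helper88.FB.P_translate
import Pool.Agent.Helper88.FB.P_smooth_centred

set_option autoImplicit false

open MeasureTheory Set Filter Topology
open scoped ENNReal

namespace Pool.Agent.Helper88.SE



theorem smooth_ball (K : Set (E 2)) (hK : Body K)
    (φ : E 2 → ℝ) (hφ : ∀ n : ℕ, ContDiff ℝ n φ)
    (hKφ : K = {x | φ x ≤ 0}) (hreg : ∀ x, φ x = 0 → fderiv ℝ φ x ≠ 0)
    (hD : {d : ℝ | 0 < d ∧ d < 1 ∧ Floats K d}.Infinite) :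
    ∃ (g : E 2) (R : ℝ), 0 < R ∧ K = Metric.closedBall g R := by
  obtain ⟨hB, hI, hF⟩ := translate K hK
  have hmem : ∀ x : E 2, x ∈ (fun x => x - cen K) '' K ↔ x + cen K ∈ K := by
    intro x
    constructor
    · rintro ⟨y, hy, rfl⟩
      simpa using hy
    · intro hx
      exact ⟨x + cen K, hx, by simp⟩
  have hset : ∀ z : E 2, z ∈ K ↔ φ z ≤ 0 := by
    intro z
    rw [hKφ]
    rfl
  have hK' : (fun x => x - cen K) '' K = {x | (fun x => φ (x + cen K)) x ≤ 0} := by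
    ext x
    rw [hmem]
    exact hset _
  have hsm : ∀ n : ℕ, ContDiff ℝ n (fun x : E 2 => φ (x + cen K)) := fun n =>
    (hφ n).comp (contDiff_id.add contDiff_const)
  have hrg : ∀ x : E 2, (fun x => φ (x + cen K)) x = 0 →
      fderiv ℝ (fun x : E 2 => φ (x + cen K)) x ≠ 0 := by
    intro x hx
    rw [fderiv_comp_add_right]
    exact hreg _ hx
  have hinf : {d : ℝ | 0 < d ∧ d < 1 ∧ Floats ((fun x => x - cen K) '' K) d}.Infinite := by
    refine hD.mono ?_
    rintro d ⟨h1, h2, h3⟩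
    exact ⟨h1, h2, hF d h1 h2 h3⟩
  obtain ⟨R, hR, hE⟩ := smooth_centred _ hB hI _ hsm hK' hrg hinf
  refine ⟨cen K, R, hR, ?_⟩
  ext x
  have h1 := hmem (x - cen K)
  rw [sub_add_cancel, hE] at h1
  rw [← h1, Metric.mem_closedBall, Metric.mem_closedBall, dist_zero_right, dist_eq_norm]

end Pool.Agent.Helper88.SE
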