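import Pool.Agent.Helper88.FB.Defs

set_option autoImplicit false

open MeasureTheory Set Filter Topology
open scoped ENNReal

namespace Pool.Agent.Helper88.SE



theorem unc_acc (D : Set ℝ) (hD : ¬ {d : ℝ | 0 < d ∧ d < 1 ∧ d ∈ D}.Countable) :
    {d : ℝ | 0 < d ∧ d < 1 ∧ AccPt d (Filter.principal {e : ℝ | 0 < e ∧ e < 1 ∧ e ∈ D})}.Infinite := by
  intro hfin
  apply hD
  have hc := countable_setOfPred_isolated_right_within
    (s := {e : ℝ | 0 < e ∧ e < 1 ∧ e ∈ D})
  refine (hc.union hfin.countable).mono ?_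
  intro x hx
  by_cases hacc : AccPt x (Filter.principal {e : ℝ | 0 < e ∧ e < 1 ∧ e ∈ D})
  · exact Or.inr ⟨hx.1, hx.2.1, hacc⟩
  · left
    refine ⟨hx, ?_⟩
    rw [accPt_principal_iff_nhdsWithin, Filter.not_neBot] at hacc
    refine le_bot_iff.1 (le_trans (nhdsWithin_mono x ?_) (le_of_eq hacc))
    rintro y ⟨hy1, hy2⟩
    exact ⟨hy1, fun h => (lt_irrefl x (by
      have h2 : y = x := h
      rw [h2] at hy2
      exact hy2))⟩

end Pool.Agent.Helper88.SE
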