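import Pool.Agent.Helper88.FB.P_fball2
import Pool.Agent.Helper88.FB.P_unc_acc
import Pool.Agent.Helper88.FB.P_smooth_ball
import Pool.Agent.Helper88.FB.P_acc_zero
import Pool.Agent.Helper88.FB.P_floats_compl
import Pool.Agent.Helper88.FB.P_translate

set_option autoImplicit false

open MeasureTheory Set Filter Topology
open scoped ENNReal

namespace Pool.Agent.Helper88.SE

theorem ball_of_zero (K : Set (E 2)) (hK : Body K)
    (hacc : ∀ ε > 0, ∃ d, 0 < d ∧ d < ε ∧ d < 1 ∧ Floats K d) :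
    ∃ (g : E 2) (R : ℝ), 0 < R ∧ K = Metric.closedBall g R := by
  obtain ⟨hB, h0, hF⟩ := translate K hK
  obtain ⟨R, hR, hKR⟩ := acc_zero _ hB h0 (fun ε hε => by
    obtain ⟨d, h1, h2, h3, h4⟩ := hacc ε hε
    exact ⟨d, h1, h2, h3, hF d h1 h3 h4⟩)
  refine ⟨cen K, R, hR, ?_⟩
  ext x
  constructor
  · intro hx
    have h1 : x - cen K ∈ (fun x => x - cen K) '' K := ⟨x, hx, rfl⟩
    rw [hKR, mem_closedBall_zero_iff] at h1
    rw [Metric.mem_closedBall, dist_eq_norm]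
    exact h1
  · intro hx
    rw [Metric.mem_closedBall, dist_eq_norm] at hx
    have h1 : x - cen K ∈ Metric.closedBall (0 : E 2) R := by
      rw [mem_closedBall_zero_iff]
      exact hx
    rw [← hKR] at h1
    obtain ⟨y, hy, hyx⟩ := h1
    have : y = x := by
      have h2 : y - cen K = x - cen K := hyx
      exact sub_left_injective h2
    rwa [← this]

theorem ball_of_one (K : Set (E 2)) (hK : Body K)
    (hacc : ∀ ε > 0, ∃ d, 1 - ε < d ∧ 0 < d ∧ d < 1 ∧ Floats K d) :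
    ∃ (g : E 2) (R : ℝ), 0 < R ∧ K = Metric.closedBall g R := by
  refine ball_of_zero K hK (fun ε hε => ?_)
  obtain ⟨d, h1, h2, h3, h4⟩ := hacc ε hε
  exact ⟨1 - d, by linarith, by linarith, by linarith, floats_compl K hK d h2 h3 h4⟩

theorem away (K : Set (E 2)) (hK : Body K)
    (hb : ¬ ∃ (g : E 2) (R : ℝ), 0 < R ∧ K = Metric.closedBall g R) :
    ∃ ε : ℝ, 0 < ε ∧ {d : ℝ | 0 < d ∧ d < 1 ∧ Floats K d} ⊆ Icc ε (1 - ε) := by
  by_contra hne
  push Not at hne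
  have h0 : ¬ ∀ ε > 0, ∃ d, 0 < d ∧ d < ε ∧ d < 1 ∧ Floats K d := fun h => hb (ball_of_zero K hK h)
  have h1 : ¬ ∀ ε > 0, ∃ d, 1 - ε < d ∧ 0 < d ∧ d < 1 ∧ Floats K d :=
    fun h => hb (ball_of_one K hK h)
  push Not at h0 h1
  obtain ⟨a, ha, ha'⟩ := h0
  obtain ⟨b, hb1, hb'⟩ := h1
  refine hne (min a b) (lt_min ha hb1) ?_
  rintro d ⟨d1, d2, d3⟩
  constructor
  · by_contra hlt
    exact ha' d d1 (lt_of_lt_of_le (not_le.1 hlt) (min_le_left _ _)) d2 d3
  · by_contra hlt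
    exact hb' d (by have := min_le_right a b; have := not_le.1 hlt; linarith) d1 d2 d3

theorem structure_thm (K : Set (E 2)) (hK : Body K)
    (hb : ¬ ∃ (g : E 2) (R : ℝ), 0 < R ∧ K = Metric.closedBall g R) :
    {d : ℝ | 0 < d ∧ d < 1 ∧ Floats K d}.Countable ∧
    {d : ℝ | AccPt d (Filter.principal {d : ℝ | 0 < d ∧ d < 1 ∧ Floats K d})}.Finite ∧
    (∃ ε : ℝ, 0 < ε ∧ {d : ℝ | 0 < d ∧ d < 1 ∧ Floats K d} ⊆ Icc ε (1 - ε)) := by
  obtain ⟨ε, hε, hsub⟩ := away K hK hb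
  have hfin : {d : ℝ | AccPt d (Filter.principal {d : ℝ | 0 < d ∧ d < 1 ∧ Floats K d})}.Finite := by
    by_contra hinf
    apply hb
    apply fball2 K hK
    refine Set.Infinite.mono ?_ hinf
    intro d hd
    have hd' : AccPt d (Filter.principal {d : ℝ | 0 < d ∧ d < 1 ∧ Floats K d}) := hd
    have hcl : d ∈ closure {d : ℝ | 0 < d ∧ d < 1 ∧ Floats K d} := by
      rw [mem_closure_iff_clusterPt]
      exact hd'.clusterPt
    have h01 : d ∈ Icc ε (1 - ε) := closure_minimal hsub isClosed_Icc hcl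
    exact ⟨lt_of_lt_of_le hε h01.1, lt_of_le_of_lt h01.2 (by linarith), hd'⟩
  refine ⟨?_, hfin, ε, hε, hsub⟩
  by_contra hunc
  have h1 := unc_acc {d | Floats K d} hunc
  refine h1 (hfin.subset ?_)
  rintro d ⟨_, _, h3⟩
  exact h3

end Pool.Agent.Helper88.SE
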